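import Pool.Agent.Helper36.St.Inv

/-! Systems: conjugation, the canonical retraction of a line, fixed vectors. -/

namespace Pool.Agent.Helper4.Jordan.QuadraticJordanAlgebra

open QuadraticMap

variable {R J : Type*} [CommRing R] [AddCommGroup J] [Module R J]
  {A : QuadraticJordanAlgebra R J} (hdiv : A.IsDivision)

namespace Sys

variable {E : Type*} [AddCommGroup E] (S : Sys A E)

lemma ext_G {γ δ : S.G} (h : ∀ x, (γ : J ≃ₗ[R] J) x = (δ : J ≃ₗ[R] J) x) : γ = δ :=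
  Subtype.ext (LinearEquiv.ext h)

lemma mul_apply (γ δ : S.G) (x : J) :
    ((γ * δ : S.G) : J ≃ₗ[R] J) x = (γ : J ≃ₗ[R] J) ((δ : J ≃ₗ[R] J) x) := rfl

lemma inv_apply_apply (γ : S.G) (x : J) :
    ((γ⁻¹ : S.G) : J ≃ₗ[R] J) ((γ : J ≃ₗ[R] J) x) = x := by
  rw [← S.mul_apply, inv_mul_cancel]; rfl

lemma apply_inv_apply (γ : S.G) (x : J) :
    (γ : J ≃ₗ[R] J) (((γ⁻¹ : S.G) : J ≃ₗ[R] J) x) = x := by
  rw [← S.mul_apply, mul_inv_cancel]; rfl

lemma γ_ne (γ : S.G) {a : J} (ha : a ≠ 0) : (γ : J ≃ₗ[R] J) a ≠ 0 := by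
  intro h; exact ha ((γ : J ≃ₗ[R] J).map_eq_zero_iff.1 h)

/-- elements of `G` with the same action are equal -/
lemma w_congr {a b : J} (ha : a ≠ 0) (hb : b ≠ 0) (h : A.U a = A.U b) : S.w a = S.w b :=
  S.ext_G fun x => by rw [S.hw a ha, S.hw b hb, h]

lemma w_one (hdiv : A.IsDivision) : S.w A.one = 1 :=
  S.ext_G fun x => by rw [S.hw _ hdiv.1, U_one']; rfl

lemma W_one (hdiv : A.IsDivision) (e : E) : S.W A.one e = e := by
  rw [W, S.w_one hdiv, S.ρ_one]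

/-- conjugation by `γ` -/
lemma conj_w (hdiv : A.IsDivision) (γ : S.G) {a b : J} (ha : a ≠ 0) (hb : b ≠ 0) :
    γ * (S.w a * (S.w b)⁻¹) * γ⁻¹ =
      S.w ((γ : J ≃ₗ[R] J) a) * (S.w ((γ : J ≃ₗ[R] J) b))⁻¹ := by
  obtain ⟨γ', h⟩ := S.str γ
  -- `γ'` is injective on values
  have key : γ * (S.w a * (S.w b)⁻¹) * γ⁻¹ * S.w ((γ : J ≃ₗ[R] J) b) =
      S.w ((γ : J ≃ₗ[R] J) a) := by
    apply S.ext_G
    intro x
    rw [S.mul_apply, S.hw _ (S.γ_ne γ hb), S.hw _ (S.γ_ne γ ha), h, h, S.mul_apply,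
      S.inv_apply_apply, S.mul_apply, S.mul_apply, S.w_inv_apply hdiv hb, U_inv_U hdiv hb,
      S.hw a ha]
  rw [← key]; group

lemma conj_WW (hdiv : A.IsDivision) (γ : S.G) {a b : J} (ha : a ≠ 0) (hb : b ≠ 0) (e : E) :
    S.WW ((γ : J ≃ₗ[R] J) a) ((γ : J ≃ₗ[R] J) b) (S.ρ γ e) = S.ρ γ (S.WW a b e) := by
  rw [WW, ← S.conj_w hdiv γ ha hb, WW, ← S.ρ_mul, ← S.ρ_mul, inv_mul_cancel_right]

/-- `γ` maps inverses to inverses in the isotopes -/
lemma γ_inv (hdiv : A.IsDivision) (γ : S.G) {u a : J} (hu : u ≠ 0) (ha : a ≠ 0) :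
    (γ : J ≃ₗ[R] J) (A.U u (A.inv a)) =
      A.U ((γ : J ≃ₗ[R] J) u) (A.inv ((γ : J ≃ₗ[R] J) a)) := by
  have h1 := congrArg (fun δ : S.G => (δ : J ≃ₗ[R] J) ((γ : J ≃ₗ[R] J) a)) (S.conj_w hdiv γ hu ha)
  rw [S.mul_apply, S.mul_apply, S.inv_apply_apply, S.mul_apply, S.mul_apply,
    S.w_inv_apply hdiv ha, S.hw u hu, S.w_inv_apply hdiv (S.γ_ne γ ha), S.hw _ (S.γ_ne γ hu),
    U_inv_self hdiv ha, U_inv_self hdiv (S.γ_ne γ ha)] at h1
  exact h1

lemma γ_U (hdiv : A.IsDivision) (γ : S.G) {a b : J} (ha : a ≠ 0) (hb : b ≠ 0) (x : J) :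
    (γ : J ≃ₗ[R] J) (A.U a (A.U (A.inv b) x)) =
      A.U ((γ : J ≃ₗ[R] J) a) (A.U (A.inv ((γ : J ≃ₗ[R] J) b)) ((γ : J ≃ₗ[R] J) x)) := by
  have h1 := congrArg (fun δ : S.G => (δ : J ≃ₗ[R] J) ((γ : J ≃ₗ[R] J) x)) (S.conj_w hdiv γ ha hb)
  rw [S.mul_apply, S.mul_apply, S.inv_apply_apply, S.mul_apply, S.mul_apply,
    S.w_inv_apply hdiv hb, S.hw a ha, S.w_inv_apply hdiv (S.γ_ne γ hb), S.hw _ (S.γ_ne γ ha)] at h1
  exact h1

/-- The canonical retraction: `∑ ± U(f_S) U(u)⁻¹` over the seven nonempty subsets. -/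
noncomputable def ret (u f g h : J) : E →+ E :=
  (S.WW (f + g + h) u : E →+ E) - S.WW (f + g) u - S.WW (f + h) u - S.WW (g + h) u +
    S.WW f u + S.WW g u + S.WW h u

lemma ret_apply (u f g h : J) (e : E) : S.ret u f g h e =
    S.WW (f + g + h) u e - S.WW (f + g) u e - S.WW (f + h) u e - S.WW (g + h) u e +
    S.WW f u e + S.WW g u e + S.WW h u e := rfl

lemma WW_triv (a b : J) {e : E} (he : S.π e = 0) : S.WW a b e = e := S.triv _ _ he

lemma π_ret (hdiv : A.IsDivision) {u f g h : J} (hu : u ≠ 0) (ht : Trip f g h) (e : E) :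
    S.π (S.ret u f g h e) = 0 := by
  obtain ⟨h1, h2, h3, h4, h5, h6, h7⟩ := ht
  rw [ret_apply]
  simp only [map_add, map_sub]
  rw [S.π_WW hdiv h1 hu, S.π_WW hdiv h2 hu, S.π_WW hdiv h3 hu, S.π_WW hdiv h4 hu,
    S.π_WW hdiv h5 hu, S.π_WW hdiv h6 hu, S.π_WW hdiv h7 hu]
  simp only [U_add', P_add_left, LinearMap.add_apply]
  abel

lemma ret_triv (u f g h : J) {e : E} (he : S.π e = 0) : S.ret u f g h e = e := by
  rw [ret_apply]
  simp only [S.WW_triv _ _ he]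
  abel

/-- a retraction compatible with the seven operators is the canonical one -/
lemma eq_ret (hdiv : A.IsDivision) {u f g h : J} (hu : u ≠ 0) (ht : Trip f g h) (r : E →+ E)
    (hid : ∀ e, S.π e = 0 → r e = e)
    (hr : ∀ b, (b = f ∨ b = g ∨ b = h ∨ b = f + g ∨ b = f + h ∨ b = g + h ∨ b = f + g + h) →
      ∀ e, r (S.WW b u e) = r e) (e : E) : r e = S.ret u f g h e := by
  have h1 : r (S.ret u f g h e) = r e := by
    rw [ret_apply]
    simp only [map_add, map_sub]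
    rw [hr f (by simp), hr g (by simp), hr h (by simp), hr (f + g) (by simp),
      hr (f + h) (by simp), hr (g + h) (by simp), hr (f + g + h) (by simp)]
    abel
  rw [← h1, hid _ (S.π_ret hdiv hu ht e)]

/-- uniqueness of the invariant retraction -/
lemma isRet_unique (hdiv : A.IsDivision) {l : Set J} (hl : IsLine hdiv l) {r r' : E →+ E}
    (hr : S.IsRet l r) (hr' : S.IsRet l r') (e : E) : r e = r' e := by
  obtain ⟨f, hf, g, hg, h, hh, ht⟩ := hl.trip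
  have hc := hl.ck f ht.1 hf
  have mem : ∀ b, (b = f ∨ b = g ∨ b = h ∨ b = f + g ∨ b = f + h ∨ b = g + h ∨ b = f + g + h) →
      b ∈ l ∧ b ≠ 0 := by
    obtain ⟨h1, h2, h3, h4, h5, h6, h7⟩ := ht
    rintro b (rfl | rfl | rfl | rfl | rfl | rfl | rfl)
    · exact ⟨hf, h1⟩
    · exact ⟨hg, h2⟩
    · exact ⟨hh, h3⟩
    · exact ⟨hc.add _ hf _ hg, h4⟩
    · exact ⟨hc.add _ hf _ hh, h5⟩
    · exact ⟨hc.add _ hg _ hh, h6⟩
    · exact ⟨hc.add _ (hc.add _ hf _ hg) _ hh, h7⟩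
  rw [S.eq_ret hdiv ht.1 ht r hr.id fun b hb e => hr.inv b (mem b hb).1 f hf (mem b hb).2 ht.1 e,
    S.eq_ret hdiv ht.1 ht r' hr'.id fun b hb e => hr'.inv b (mem b hb).1 f hf (mem b hb).2 ht.1 e]

/-- existence of the invariant retraction of a line -/
lemma exists_isRet (hdiv : A.IsDivision) {l : Set J} (hl : IsLine hdiv l) :
    ∃ r : E →+ E, S.IsRet l r := by
  obtain ⟨f, hf, g, hg, h, hh, ht⟩ := hl.trip
  have hc := hl.ck f ht.1 hf
  have hfg := hc.add _ hf _ hg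
  have hfh := hc.add _ hf _ hh
  have hgh := hc.add _ hg _ hh
  have hfgh := hc.add _ hfg _ hh
  refine ⟨S.ret f f g h, fun e => S.π_ret hdiv ht.1 ht e, fun e he => S.ret_triv _ _ _ _ he, ?_⟩
  -- invariance under `U(c) U(f)⁻¹`
  have h1 : ∀ c ∈ l, c ≠ 0 → ∀ e, S.ret f f g h (S.WW c f e) = S.ret f f g h e := by
    intro c hcl hc0 e
    have comm : ∀ a ∈ l, a ≠ 0 → S.WW a f (S.WW c f e) = S.WW c f (S.WW a f e) := by
      intro a ha ha0
      rw [WW, WW, ← S.ρ_mul, ← S.ρ_mul]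
      congr 2
      apply S.ext_G
      intro x
      have h2 := LinearMap.congr_fun (hc.com.UU a ha c hcl).eq x
      rw [isotope_U, isotope_U] at h2
      simp only [S.mul_apply, S.w_inv_apply hdiv ht.1, S.hw a ha0, S.hw c hc0]
      exact h2
    have h3 : S.ret f f g h (S.WW c f e) = S.WW c f (S.ret f f g h e) := by
      rw [ret_apply, ret_apply]
      obtain ⟨t1, t2, t3, t4, t5, t6, t7⟩ := ht
      simp only [map_add, map_sub]
      rw [comm f hf t1, comm g hg t2, comm h hh t3, comm _ hfg t4, comm _ hfh t5, comm _ hgh t6,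
        comm _ hfgh t7]
    rw [h3, S.WW_triv _ _ (S.π_ret hdiv ht.1 ht e)]
  intro a ha b hb ha0 hb0 e
  have e1 : S.WW a b e = S.WW a f (S.WW f b e) := by
    rw [WW, WW, WW, ← S.ρ_mul]; congr 2; group
  have e2 : S.WW b f (S.WW f b e) = e := by
    rw [WW, WW, ← S.ρ_mul]
    have : S.w b * (S.w f)⁻¹ * (S.w f * (S.w b)⁻¹) = 1 := by group
    rw [this, S.ρ_one]
  rw [e1, h1 a ha ha0, ← h1 b hb hb0 (S.WW f b e), e2]

/-- equivariance: the retraction of the image line -/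
lemma isRet_map (hdiv : A.IsDivision) {l : Set J} {r : E →+ E} (hr : S.IsRet l r) (γ : S.G) :
    S.IsRet ((fun x => (γ : J ≃ₗ[R] J) x) '' l) (r.comp (S.ρ γ⁻¹ : E →+ E)) where
  ker e := hr.ker _
  id e he := by
    show r (S.ρ γ⁻¹ e) = e
    rw [S.triv _ _ he, hr.id e he]
  inv := by
    rintro _ ⟨a, ha, rfl⟩ _ ⟨b, hb, rfl⟩ ha0 hb0 e
    have ha1 : a ≠ 0 := by rintro rfl; exact ha0 (map_zero _)
    have hb1 : b ≠ 0 := by rintro rfl; exact hb0 (map_zero _)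
    show r (S.ρ γ⁻¹ (S.WW _ _ e)) = r (S.ρ γ⁻¹ e)
    have h1 := S.conj_WW hdiv γ ha1 hb1 (S.ρ γ⁻¹ e)
    rw [S.ρ_apply_inv] at h1
    simp only
    rw [h1, S.ρ_inv_apply, hr.inv a ha b hb ha1 hb1]

/-- an element of `G` fixing a triple fixes every `e` whose projection it fixes -/
lemma fix_of_trip (hdiv : A.IsDivision) (γ : S.G) {f g h : J} (ht : Trip f g h)
    (hf : (γ : J ≃ₗ[R] J) f = f) (hg : (γ : J ≃ₗ[R] J) g = g) (hh : (γ : J ≃ₗ[R] J) h = h)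
    {e : E} (he : (γ : J ≃ₗ[R] J) (S.π e) = S.π e) : S.ρ γ e = e := by
  have key : S.ret f f g h (S.ρ γ e) = S.ρ γ (S.ret f f g h e) := by
    obtain ⟨t1, t2, t3, t4, t5, t6, t7⟩ := ht
    have c : ∀ b, b ≠ 0 → (γ : J ≃ₗ[R] J) b = b → S.WW b f (S.ρ γ e) = S.ρ γ (S.WW b f e) := by
      intro b hb hγ
      have := S.conj_WW hdiv γ hb t1 e
      rwa [hγ, hf] at this
    rw [ret_apply, ret_apply]
    simp only [map_add, map_sub]
    rw [c f t1 hf, c g t2 hg, c h t3 hh, c _ t4 (by rw [map_add, hf, hg]),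
      c _ t5 (by rw [map_add, hf, hh]), c _ t6 (by rw [map_add, hg, hh]),
      c _ t7 (by rw [map_add, map_add, hf, hg, hh])]
  rw [S.triv γ _ (S.π_ret hdiv ht.1 ht e)] at key
  have h1 : S.π (S.ρ γ e - e) = 0 := by rw [map_sub, S.equi, he, sub_self]
  have h2 := S.ret_triv f f g h h1
  rw [map_sub, key, sub_self] at h2
  exact (sub_eq_zero.1 h2.symm)

end Sys

end Pool.Agent.Helper4.Jordan.QuadraticJordanAlgebra
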