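import Pool.Agent.Helper36.St.Act

/-! From invariant retractions to central closedness. -/

namespace Pool.Agent.Helper4.Jordan.QuadraticJordanAlgebra

open QuadraticMap
open scoped commutatorElement IsMulCommutative

universe v w

namespace Bridge

variable {R : Type*} {J : Type w} [CommRing R] [AddCommGroup J]
    [Module R J] {A : QuadraticJordanAlgebra R J}

section defs

variable {E : Type v} [Group E] (π : E →* A.St)

/-- the fibre product `{(e, a) : π e = x_+(a)}` -/
def EE : Subgroup (E × Multiplicative J) where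
  carrier := {p | π p.1 = A.x true (Multiplicative.toAdd p.2)}
  one_mem' := by
    show π 1 = A.x true 0
    rw [map_one, x_zero]
  mul_mem' := by
    intro p q hp hq
    show π (p.1 * q.1) = A.x true (Multiplicative.toAdd p.2 + Multiplicative.toAdd q.2)
    rw [map_mul, x_add, hp, hq]
  inv_mem' := by
    intro p hp
    show π p.1⁻¹ = A.x true (-Multiplicative.toAdd p.2)
    rw [map_inv, x_neg, hp]

lemma mem_EE {p : E × Multiplicative J} :
    p ∈ EE π ↔ π p.1 = A.x true (Multiplicative.toAdd p.2) := Iff.rfl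

/-- the group of triples `(g, γ, δ)` -/
def NN : Subgroup (E × (J ≃ₗ[R] J) × (J ≃ₗ[R] J)) where
  carrier := {p | (∀ a, π p.1 * A.x true a * (π p.1)⁻¹ = A.x true (p.2.1 a)) ∧
    (∀ a, π p.1 * A.x false a * (π p.1)⁻¹ = A.x false (p.2.2 a)) ∧
    ∀ z a, A.U (p.2.1 z) (p.2.2 a) = p.2.1 (A.U z a)}
  one_mem' := by
    refine ⟨fun a => ?_, fun a => ?_, fun z a => rfl⟩
    · show π 1 * A.x true a * (π 1)⁻¹ = A.x true a
      rw [map_one]; group
    · show π 1 * A.x false a * (π 1)⁻¹ = A.x false a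
      rw [map_one]; group
  mul_mem' := by
    rintro p q ⟨p1, p2, p3⟩ ⟨q1, q2, q3⟩
    refine ⟨fun a => ?_, fun a => ?_, fun z a => ?_⟩
    · show π (p.1 * q.1) * A.x true a * (π (p.1 * q.1))⁻¹ = A.x true (p.2.1 (q.2.1 a))
      rw [← p1, ← q1, map_mul]; group
    · show π (p.1 * q.1) * A.x false a * (π (p.1 * q.1))⁻¹ = A.x false (p.2.2 (q.2.2 a))
      rw [← p2, ← q2, map_mul]; group
    · show A.U (p.2.1 (q.2.1 z)) (p.2.2 (q.2.2 a)) = p.2.1 (q.2.1 (A.U z a))
      rw [p3, q3]
  inv_mem' := by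
    rintro p ⟨p1, p2, p3⟩
    refine ⟨fun a => ?_, fun a => ?_, fun z a => ?_⟩
    · show π p.1⁻¹ * A.x true a * (π p.1⁻¹)⁻¹ = A.x true (p.2.1.symm a)
      have := p1 (p.2.1.symm a)
      rw [LinearEquiv.apply_symm_apply] at this
      rw [← this, map_inv]; group
    · show π p.1⁻¹ * A.x false a * (π p.1⁻¹)⁻¹ = A.x false (p.2.2.symm a)
      have := p2 (p.2.2.symm a)
      rw [LinearEquiv.apply_symm_apply] at this
      rw [← this, map_inv]; group
    · show A.U (p.2.1.symm z) (p.2.2.symm a) = p.2.1.symm (A.U z a)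
      apply p.2.1.injective
      rw [← p3, LinearEquiv.apply_symm_apply, LinearEquiv.apply_symm_apply,
        LinearEquiv.apply_symm_apply]

lemma mem_NN {g : E} {γ δ : J ≃ₗ[R] J} :
    (g, γ, δ) ∈ NN π ↔ (∀ a, π g * A.x true a * (π g)⁻¹ = A.x true (γ a)) ∧
    (∀ a, π g * A.x false a * (π g)⁻¹ = A.x false (δ a)) ∧
    ∀ z a, A.U (γ z) (δ a) = γ (A.U z a) := Iff.rfl

/-- `U b` as a linear equivalence -/
noncomputable def Ul (hdiv : A.IsDivision) {b : J} (hb : b ≠ 0) : J ≃ₗ[R] J :=
  LinearEquiv.ofBijective (A.U b) (hdiv.2 b hb)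

lemma Ul_apply (hdiv : A.IsDivision) {b : J} (hb : b ≠ 0) (a : J) :
    Ul hdiv hb a = A.U b a := rfl

lemma mem_NN_of_w (hdiv : A.IsDivision) {b : J} (hb : b ≠ 0) {g : E}
    (hg : π g = A.w b * (A.w A.one)⁻¹) : (g, Ul hdiv hb, (Ul hdiv hb)⁻¹) ∈ NN π := by
  refine (mem_NN π).2 ⟨fun a => ?_, fun a => ?_, fun z a => ?_⟩
  · have h1 := rel_inv' (A := A) hdiv.1 a
    rw [U_one'] at h1
    have h2 := rel (A := A) hb a
    rw [hg, Ul_apply, ← h2, ← h1]
    simp only [Module.End.one_apply]
    group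
  · have h1 := rel_inv (A := A) hdiv hdiv.1 a
    rw [U_one'] at h1
    have h2 := rel' hdiv hb ((Ul hdiv hb).symm a)
    have h3 : A.U b ((Ul hdiv hb).symm a) = a := (Ul hdiv hb).apply_symm_apply a
    rw [h3] at h2
    rw [hg]
    change _ = A.x false ((Ul hdiv hb).symm a)
    rw [← h2]
    simp only [Module.End.one_apply] at h1
    rw [← h1]
    group
  · have h3 : A.U b ((Ul hdiv hb).symm a) = a := (Ul hdiv hb).apply_symm_apply a
    change A.U (A.U b z) ((Ul hdiv hb).symm a) = A.U b (A.U z a)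
    rw [A.QJ3, Module.End.mul_apply, Module.End.mul_apply, h3]

variable (hsurj : Function.Surjective π) (hker : π.ker ≤ Subgroup.center E)

include hker hsurj in
lemma key (hperf : commutator A.St = ⊤) {g g' : E} {γ δ δ' : J ≃ₗ[R] J}
    (h : (g, γ, δ) ∈ NN π) (h' : (g', γ, δ') ∈ NN π) (e : E) : g * e * g⁻¹ = g' * e * g'⁻¹ := by
  have h1 : (g⁻¹ * g', (1 : J ≃ₗ[R] J), δ⁻¹ * δ') ∈ NN π := by
    have := (NN π).mul_mem ((NN π).inv_mem h) h'
    have e1 : (g, γ, δ)⁻¹ * (g', γ, δ') = (g⁻¹ * g', γ⁻¹ * γ, δ⁻¹ * δ') := rfl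
    rw [e1, inv_mul_cancel] at this
    exact this
  obtain ⟨q1, q2, q3⟩ := (mem_NN π).1 h1
  have hδ : ∀ a, (δ⁻¹ * δ') a = a := by
    intro a
    have := q3 A.one a
    change A.U A.one ((δ⁻¹ * δ') a) = A.U A.one a at this
    rw [U_one'] at this
    exact this
  have hc : ∀ x : A.St, π (g⁻¹ * g') * x = x * π (g⁻¹ * g') := by
    apply central_of_gen
    intro σ a
    cases σ with
    | true =>
      have := q1 a
      change _ = A.x true a at this
      rw [mul_inv_eq_iff_eq_mul] at this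
      exact this
    | false =>
      have := q2 a
      rw [hδ, mul_inv_eq_iff_eq_mul] at this
      exact this
  have hc2 := center_lift hker hsurj hperf hc
  have : g' = g * (g⁻¹ * g') := by group
  rw [this]
  calc g * e * g⁻¹ = g * (e * (g⁻¹ * g')) * (g⁻¹ * g')⁻¹ * g⁻¹ := by group
    _ = g * ((g⁻¹ * g') * e) * (g⁻¹ * g')⁻¹ * g⁻¹ := by rw [hc2 e]
    _ = _ := by group

end defs

end Bridge

open Bridge in
/-- BLOCK BRIDGE. From invariant retractions to splittings of the central extensions. -/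
theorem centrallyClosed_of_ret {R : Type*} {J : Type w} [CommRing R] [AddCommGroup J]
    [Module R J] {A : QuadraticJordanAlgebra R J} (hdiv : A.IsDivision)
    (hperf : commutator A.St = ⊤)
    (hforms : ∀ (C : Type v) [AddCommGroup C] (f : J →+ J →+ C), InvForm A f →
      ∀ a b, f a b = 0)
    (hret : ∀ (E : Type (max v w)) [AddCommGroup E] (S : Sys A E), ∃ r, S.IsRet Set.univ r) :
    IsCentrallyClosed.{w, v} A.St := by
  classical
  refine ⟨hperf, ?_⟩
  intro E _ π hsurj hker
  have hXc : ∀ p ∈ EE π, ∀ q ∈ EE π, p * q = q * p := by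
    intro p hp q hq
    refine Prod.ext ?_ (mul_comm p.2 q.2)
    exact X_comm (hdiv := hdiv) hker
      (fun f hf a b => hforms (Additive (Subgroup.center E)) f hf a b) hsurj true hp hq
  let _ : CommGroup (EE π) :=
    { (inferInstance : Group (EE π)) with
      mul_comm := fun p q => Subtype.ext (hXc p p.2 q q.2) }
  -- the group
  let GG : Subgroup (J ≃ₗ[R] J) := (NN π).map
    ((MonoidHom.fst (J ≃ₗ[R] J) (J ≃ₗ[R] J)).comp (MonoidHom.snd E _))
  have hGG : ∀ γ : GG, ∃ (g : E) (δ : J ≃ₗ[R] J), (g, (γ : J ≃ₗ[R] J), δ) ∈ NN π := by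
    rintro ⟨γ, ⟨⟨g, γ', δ⟩, h, rfl⟩⟩
    exact ⟨g, δ, h⟩
  have memGG : ∀ {g : E} {γ δ : J ≃ₗ[R] J}, (g, γ, δ) ∈ NN π → γ ∈ GG :=
    fun {g γ δ} h => ⟨(g, γ, δ), h, rfl⟩
  choose lf ld hl using hGG
  -- the action
  have hact : ∀ (γ : GG) (p : EE π),
      ((lf γ * p.1.1 * (lf γ)⁻¹, Multiplicative.ofAdd ((γ : J ≃ₗ[R] J)
        (Multiplicative.toAdd p.1.2))) : E × Multiplicative J) ∈ EE π := by
    intro γ p
    rw [mem_EE]
    change π (lf γ * p.1.1 * (lf γ)⁻¹) = A.x true ((γ : J ≃ₗ[R] J) (Multiplicative.toAdd p.1.2))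
    rw [map_mul, map_mul, map_inv, (mem_EE π).1 p.2]
    exact ((mem_NN π).1 (hl γ)).1 _
  let act : GG → Additive (EE π) → Additive (EE π) := fun γ p =>
    Additive.ofMul ⟨_, hact γ (Additive.toMul p)⟩
  have act1 : ∀ γ p, (Additive.toMul (act γ p)).1.1 =
    lf γ * (Additive.toMul p).1.1 * (lf γ)⁻¹ := fun _ _ => rfl
  have act2 : ∀ γ p, Multiplicative.toAdd (Additive.toMul (act γ p)).1.2 =
    (γ : J ≃ₗ[R] J) (Multiplicative.toAdd (Additive.toMul p).1.2) := fun _ _ => rfl
  have ext2 : ∀ {p q : Additive (EE π)}, (Additive.toMul p).1.1 = (Additive.toMul q).1.1 →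
      Multiplicative.toAdd (Additive.toMul p).1.2 = Multiplicative.toAdd (Additive.toMul q).1.2 →
      p = q := by
    intro p q h1 h2
    apply Additive.toMul.injective
    apply Subtype.ext
    exact Prod.ext h1 (Multiplicative.toAdd.injective h2)
  let ρ : GG →* AddMonoid.End (Additive (EE π)) :=
    { toFun := fun γ =>
        { toFun := act γ
          map_zero' := by
            refine ext2 ?_ ?_
            · rw [act1]
              change lf γ * 1 * (lf γ)⁻¹ = 1
              group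
            · rw [act2]
              exact map_zero (γ : J ≃ₗ[R] J)
          map_add' := by
            intro p q
            refine ext2 ?_ ?_
            · rw [act1]
              change lf γ * ((Additive.toMul p).1.1 * (Additive.toMul q).1.1) * (lf γ)⁻¹ =
                (lf γ * (Additive.toMul p).1.1 * (lf γ)⁻¹) *
                (lf γ * (Additive.toMul q).1.1 * (lf γ)⁻¹)
              group
            · rw [act2]
              exact map_add (γ : J ≃ₗ[R] J) _ _ }
      map_one' := by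
        refine AddMonoidHom.ext fun p => ext2 ?_ ?_
        · change lf 1 * (Additive.toMul p).1.1 * (lf 1)⁻¹ = (Additive.toMul p).1.1
          have h1 : (1, (1 : J ≃ₗ[R] J), (1 : J ≃ₗ[R] J)) ∈ NN π := (NN π).one_mem
          rw [key π hsurj hker hperf (hl 1) h1]
          group
        · rfl
      map_mul' := by
        intro γ γ'
        refine AddMonoidHom.ext fun p => ext2 ?_ ?_
        · change lf (γ * γ') * (Additive.toMul p).1.1 * (lf (γ * γ'))⁻¹ =
            lf γ * (lf γ' * (Additive.toMul p).1.1 * (lf γ')⁻¹) * (lf γ)⁻¹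
          have h1 : (lf γ * lf γ', ((γ * γ' : GG) : J ≃ₗ[R] J), ld γ * ld γ') ∈ NN π :=
            (NN π).mul_mem (hl γ) (hl γ')
          rw [key π hsurj hker hperf (hl (γ * γ')) h1]
          group
        · rfl }
  have hρ : ∀ {g : E} {γ δ : J ≃ₗ[R] J} (h : (g, γ, δ) ∈ NN π) (p : Additive (EE π)),
      (Additive.toMul (ρ ⟨γ, memGG h⟩ p)).1.1 = g * (Additive.toMul p).1.1 * g⁻¹ := by
    intro g γ δ h p
    change lf ⟨γ, memGG h⟩ * (Additive.toMul p).1.1 * (lf ⟨γ, memGG h⟩)⁻¹ = _
    exact key π hsurj hker hperf (hl ⟨γ, memGG h⟩) h _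
  -- lifts of `w_b w_1⁻¹`
  have hlw : ∀ b : J, ∃ g : E, π g = A.w b * (A.w A.one)⁻¹ := fun b => hsurj _
  choose lw hlw using hlw
  let S : Sys A (Additive (EE π)) :=
    { G := GG
      w := fun b => if hb : b = 0 then 1 else
        ⟨Ul hdiv hb, memGG (mem_NN_of_w π hdiv hb (hlw b))⟩
      hw := by
        intro b hb x
        rw [dif_neg hb]
        rfl
      str := by
        intro γ
        refine ⟨fun x => (ld γ).symm x, fun z x => ?_⟩
        have := ((mem_NN π).1 (hl γ)).2.2 z ((ld γ).symm x)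
        rw [LinearEquiv.apply_symm_apply] at this
        exact this
      ρ := ρ
      π :=
        { toFun := fun p => Multiplicative.toAdd (Additive.toMul p).1.2
          map_zero' := rfl
          map_add' := fun _ _ => rfl }
      surj := by
        intro a
        obtain ⟨e, he⟩ := hsurj (A.x true a)
        exact ⟨Additive.ofMul ⟨(e, Multiplicative.ofAdd a), he⟩, rfl⟩
      equi := fun γ e => rfl
      triv := by
        intro γ p hp
        have hp' : Multiplicative.toAdd (Additive.toMul p).1.2 = 0 := hp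
        have h1 : π (Additive.toMul p).1.1 = 1 := by
          rw [(mem_EE π).1 (Additive.toMul p).2, hp', x_zero]
        have h2 := hker ((MonoidHom.mem_ker).2 h1)
        rw [Subgroup.mem_center_iff] at h2
        refine ext2 ?_ ?_
        · change lf γ * (Additive.toMul p).1.1 * (lf γ)⁻¹ = _
          rw [h2]
          group
        · change (γ : J ≃ₗ[R] J) (Multiplicative.toAdd (Additive.toMul p).1.2) = _
          rw [hp', map_zero] }
  obtain ⟨r, hr⟩ := hret (Additive (EE π)) S
  -- the additive section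
  let L : J → Additive (EE π) := Function.surjInv S.surj
  have hL : ∀ a, S.π (L a) = a := Function.surjInv_eq S.surj
  let n : J → Additive (EE π) := fun a => L a - r (L a)
  have hn : ∀ {e : Additive (EE π)} {a : J}, S.π e = a → n a = e - r e := by
    intro e a h
    have h1 : S.π (L a - e) = 0 := by rw [map_sub, hL, h, sub_self]
    have h2 := hr.id _ h1
    rw [map_sub] at h2
    change L a - r (L a) = e - r e
    rw [sub_eq_sub_iff_add_eq_add, ← sub_eq_sub_iff_add_eq_add] at h2 ⊢
    have h3 : r (L a) = L a - e + r e := by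
      rw [← h2]
      abel
    rw [h3]
    abel
  have hπn : ∀ a, S.π (n a) = a := by
    intro a
    change S.π (L a - r (L a)) = a
    rw [map_sub, hL, hr.ker, sub_zero]
  have hnadd : ∀ a b, n (a + b) = n a + n b := by
    intro a b
    rw [hn (e := L a + L b) (by rw [map_add, hL, hL]), map_add]
    change L a + L b - (r (L a) + r (L b)) = (L a - r (L a)) + (L b - r (L b))
    abel
  have hnw : ∀ b, b ≠ 0 → ∀ a, S.ρ (S.w b) (n a) = n (A.U b a) := by
    intro b hb a
    have h1 : S.π (S.ρ (S.w b) (L a)) = A.U b a := by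
      rw [S.equi, hL, S.hw b hb]
    have h2 : r (S.ρ (S.w b) (L a)) = r (L a) := by
      have := hr.inv b (Set.mem_univ _) A.one (Set.mem_univ _) hb hdiv.1 (L a)
      rw [Sys.WW, S.w_one hdiv, inv_one, mul_one] at this
      exact this
    rw [hn h1, h2]
    change S.ρ (S.w b) (L a - r (L a)) = _
    rw [map_sub, S.triv _ _ (hr.ker _)]
  -- the lifts of the generators
  obtain ⟨g₁, hg₁⟩ : ∃ g, π g = A.w A.one := hsurj _
  let yp : J → E := fun a => (Additive.toMul (n a)).1.1
  have hyp : ∀ a, π (yp a) = A.x true a := by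
    intro a
    have h1 := (mem_EE π).1 (Additive.toMul (n a)).2
    have h2 : Multiplicative.toAdd (Additive.toMul (n a)).1.2 = a := hπn a
    rw [h2] at h1
    exact h1
  have hypadd : ∀ a b, yp (a + b) = yp a * yp b := by
    intro a b
    change (Additive.toMul (n (a + b))).1.1 = _
    rw [hnadd]
    rfl
  let y : Bool → J → E := fun σ a => bif σ then yp a else g₁⁻¹ * yp a * g₁
  have hyadd : ∀ σ a b, y σ (a + b) = y σ a * y σ b := by
    intro σ a b
    cases σ with
    | true => exact hypadd a b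
    | false =>
      change g₁⁻¹ * yp (a + b) * g₁ = (g₁⁻¹ * yp a * g₁) * (g₁⁻¹ * yp b * g₁)
      rw [hypadd]
      group
  have hπy : ∀ σ a, π (y σ a) = A.x σ a := by
    intro σ a
    cases σ with
    | true => exact hyp a
    | false =>
      change π (g₁⁻¹ * yp a * g₁) = _
      have h1 := rel_inv' (A := A) hdiv.1 a
      rw [U_one', Module.End.one_apply] at h1
      rw [map_mul, map_mul, map_inv, hyp, hg₁, h1]
  have hyrel : ∀ {b : J}, b ≠ 0 → ∀ a {g : E}, π g = A.w b →
      g * y false a * g⁻¹ = y true (A.U b a) := by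
    intro b hb a g hg
    have h1 : π (g * g₁⁻¹) = A.w b * (A.w A.one)⁻¹ := by rw [map_mul, map_inv, hg, hg₁]
    have h2 := hρ (mem_NN_of_w π hdiv hb h1) (n a)
    have h3 : S.ρ (S.w b) (n a) = ρ ⟨Ul hdiv hb, memGG (mem_NN_of_w π hdiv hb h1)⟩ (n a) := by
      have : S.w b = ⟨Ul hdiv hb, memGG (mem_NN_of_w π hdiv hb h1)⟩ := by
        change (if hb : b = 0 then 1 else _) = _
        rw [dif_neg hb]
      rw [this]
    rw [← h3, hnw b hb] at h2
    change g * (g₁⁻¹ * yp a * g₁) * g⁻¹ = (Additive.toMul (n (A.U b a))).1.1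
    rw [h2]
    change _ = g * g₁⁻¹ * yp a * (g * g₁⁻¹)⁻¹
    group
  have hrel : ∀ r ∈ A.stRels, FreeGroup.lift (fun p : Bool × J => y p.1 p.2) r = 1 := by
    rintro r (⟨σ, a, b, rfl⟩ | ⟨a, b, hb, rfl⟩)
    · rw [map_mul, map_inv, map_mul, FreeGroup.lift_apply_of, FreeGroup.lift_apply_of,
        FreeGroup.lift_apply_of, hyadd, mul_inv_cancel]
    · rw [map_mul, map_mul, map_mul, map_inv, map_inv, FreeGroup.lift_apply_of,
        FreeGroup.lift_apply_of, mul_inv_eq_one]
      apply hyrel hb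
      rw [wWord]
      simp only [map_mul, FreeGroup.lift_apply_of, hπy]
      rfl
  refine ⟨PresentedGroup.toGroup hrel, ?_⟩
  apply PresentedGroup.ext
  rintro ⟨σ, a⟩
  show π (PresentedGroup.toGroup hrel (PresentedGroup.of (σ, a))) = PresentedGroup.of (σ, a)
  rw [PresentedGroup.toGroup.of]
  exact hπy σ a

end Pool.Agent.Helper4.Jordan.QuadraticJordanAlgebra
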