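import Pool.Agent.Helper36.St.Max

/-! Lines through two points, characteristic 2. -/

namespace Pool.Agent.Helper4.Jordan.QuadraticJordanAlgebra

open QuadraticMap

variable {R J : Type*} [CommRing R] [AddCommGroup J] [Module R J]
  {A : QuadraticJordanAlgebra R J}

namespace Lines2

/-- A set of elements whose operators lie in the subring generated by commuting operators. -/
lemma isCom_of_closure {S : Set J} {s : Set (Module.End R J)}
    (hs : ∀ a ∈ s, ∀ b ∈ s, a * b = b * a) (hU : ∀ a ∈ S, A.U a ∈ Subring.closure s)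
    (hP : ∀ a ∈ S, ∀ b ∈ S, A.P a b ∈ Subring.closure s) : A.IsCom S := by
  have key : ∀ T ∈ Subring.closure s, ∀ T' ∈ Subring.closure s, Commute T T' := by
    intro T hT T' hT'
    have := (Subring.isMulCommutative_closure hs).is_comm.comm ⟨T, hT⟩ ⟨T', hT'⟩
    exact congrArg Subtype.val this
  exact ⟨fun a ha b hb => key _ (hU a ha) _ (hU b hb),
    fun a ha b hb c hc => key _ (hU a ha) _ (hP b hb c hc),
    fun a ha b hb c hc d hd => key _ (hP a ha b hb) _ (hP c hc d hd)⟩

lemma isCom_pair (x : J) : A.IsCom {A.one, x} := by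
  refine isCom_of_closure (s := {A.U x, A.V x}) ?_ ?_ ?_
  · rintro a (rfl | rfl) b (rfl | rfl)
    · rfl
    · exact (V_mul_U x).symm
    · exact V_mul_U x
    · rfl
  · rintro a (rfl | rfl)
    · rw [U_one']; exact Subring.one_mem _
    · exact Subring.subset_closure (Or.inl rfl)
  · have hx : A.U x ∈ Subring.closure ({A.U x, A.V x} : Set (Module.End R J)) :=
      Subring.subset_closure (Or.inl rfl)
    have hV : A.V x ∈ Subring.closure ({A.U x, A.V x} : Set (Module.End R J)) :=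
      Subring.subset_closure (Or.inr rfl)
    rintro a (rfl | rfl) b (rfl | rfl)
    · rw [P_self, U_one']
      exact Subring.add_mem _ (Subring.one_mem _) (Subring.one_mem _)
    · rw [P_comm]; exact hV
    · exact hV
    · rw [P_self]; exact Subring.add_mem _ hx hx

section char2

variable (h2 : ∀ a : J, a + a = 0)
include h2

lemma end_add_self (T : Module.End R J) : T + T = 0 :=
  LinearMap.ext fun x => by rw [LinearMap.add_apply, h2]; rfl

omit [Module R J] [CommRing R] in
lemma eq_of_add_eq_zero {a b : J} (h : a + b = 0) : a = b := by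
  have h1 : a + b + b = b := by rw [h, zero_add]
  rwa [add_assoc, h2, add_zero] at h1

lemma end_eq_of_add {S T : Module.End R J} (h : S + T = 0) : S = T :=
  LinearMap.ext fun x => eq_of_add_eq_zero h2 (by rw [← LinearMap.add_apply, h]; rfl)

lemma jp_one0 (a : J) : A.jp a A.one = 0 := by rw [jp_one, h2]

lemma sq_eq_one (hdiv : A.IsDivision) {x : J} (hx : A.U x A.one = A.one) : x = A.one := by
  by_contra hne
  have hne' : x + A.one ≠ 0 := fun h => hne (eq_of_add_eq_zero h2 h)
  apply U_ne hdiv hne' hdiv.1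
  rw [U_add', LinearMap.add_apply, LinearMap.add_apply, hx, U_one', Module.End.one_apply, h2,
    zero_add, P_apply, tr_one_mid, jp_one0 h2]

/-- (3a) -/
lemma V2_comm_of_jp (hdiv : A.IsDivision) {a b : J} (h : A.jp a b = 0) :
    A.V2 a b = A.V2 b a := by
  apply end_eq_of_add h2
  rw [V2_add_V2 hdiv, h, V_def, P_zero_left]

/-- a primitive cube root of unity -/
structure Om (A : QuadraticJordanAlgebra R J) (ω : J) : Prop where
  ne0 : ω ≠ 0
  ne1 : ω ≠ A.one
  inv : A.inv ω = A.one + ω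
  sq : A.U ω A.one = ω + A.one
  cube : A.U ω * A.U ω * A.U ω = 1
  U_add : A.U (ω + A.one) = A.U ω * A.U ω
  V : A.V ω = 1 + A.U ω + A.U ω * A.U ω

lemma om_of_inv (hdiv : A.IsDivision) {ω : J} (h0 : ω ≠ 0) (h1 : ω ≠ A.one)
    (h : A.one + ω + A.inv ω = 0) : Om A ω := by
  have hinv : A.inv ω = A.one + ω := (eq_of_add_eq_zero h2 h).symm
  have hc := U_inv_mul_cancel hdiv h0
  have e1 : A.U (A.inv ω) = 1 + A.U ω + A.V ω := by
    rw [hinv, U_add', U_one', P_comm]; rfl
  -- `U ω ω = 1`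
  have e2 : A.U ω ω = A.one := by
    have h3 := U_inv_self hdiv h0
    rw [e1, hinv, LinearMap.add_apply, LinearMap.add_apply, Module.End.one_apply, V_apply,
      jp_def, P_self, LinearMap.add_apply, h2, add_zero, add_comm A.one] at h3
    exact add_left_cancel h3
  have e3 : A.U ω A.one = ω + A.one := by
    have h3 := U_inv hdiv h0
    rw [hinv, map_add, e2] at h3
    apply eq_of_add_eq_zero h2
    calc A.U ω A.one + (ω + A.one) = (A.U ω A.one + A.one) + ω := by abel
      _ = 0 := by rw [h3, h2]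
  have e4 : A.U (ω + A.one) = A.U ω * A.U ω := by rw [← e3, U_sq]
  have e5 : A.U (A.inv ω) = A.U ω * A.U ω := by rw [hinv, add_comm, e4]
  refine ⟨h0, h1, hinv, e3, ?_, e4, ?_⟩
  · rw [← e5, hc.1]
  · rw [e5] at e1
    apply end_eq_of_add h2
    rw [e1]
    have : A.V ω + (1 + A.U ω + (1 + A.U ω + A.V ω)) =
      (1 + 1) + (A.U ω + A.U ω) + (A.V ω + A.V ω) := by abel
    rw [this, end_add_self h2 (1 : Module.End R J), end_add_self h2 (A.U ω),
      end_add_self h2 (A.V ω), add_zero, add_zero]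

omit h2 in
lemma Om.comm_of_sq {ω : J} (hω : Om A ω) {T : Module.End R J}
    (h : Commute T (A.U ω * A.U ω)) : Commute T (A.U ω) := by
  have h4 : A.U ω = (A.U ω * A.U ω) * (A.U ω * A.U ω) := by
    rw [← mul_assoc, hω.cube, one_mul]
  rw [h4]
  exact h.mul_right h

omit h2 in
lemma Om.comm_V {ω : J} (hω : Om A ω) {T : Module.End R J}
    (h : Commute T (A.U ω)) : Commute T (A.V ω) := by
  rw [hω.V]
  exact ((Commute.one_right T).add_right h).add_right (h.mul_right h)

lemma Om.comm_V2 (hdiv : A.IsDivision) {ω : J} (_hω : Om A ω) {c : J} (hc : A.jp ω c = 0) :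
    Commute (A.V2 c ω) (A.U ω) := by
  have h := V2_mul_U (A := A) ω c
  rw [V2_comm_of_jp h2 hdiv hc] at h
  exact h

lemma Om.comm_Vc (hdiv : A.IsDivision) {ω : J} (hω : Om A ω) {c : J} (hc : A.jp ω c = 0) :
    Commute (A.V c) (A.U ω) := by
  apply hω.comm_of_sq
  have h := V2_mul_U (A := A) (ω + A.one) c
  rw [V2_add_left, V2_add_right, V2_one_left, V2_one_right, V2_comm_of_jp h2 hdiv hc, hω.U_add,
    add_mul, mul_add] at h
  have h3 : Commute (A.V2 c ω) (A.U ω * A.U ω) :=
    (hω.comm_V2 h2 hdiv hc).mul_right (hω.comm_V2 h2 hdiv hc)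
  rw [h3.eq] at h
  exact add_left_cancel h

lemma Om.comm_P (hdiv : A.IsDivision) {ω : J} (hω : Om A ω) {c : J} (hc : A.jp ω c = 0) :
    Commute (A.P c ω) (A.U ω) := by
  have h := V_mul_V hdiv c ω
  have h3 : A.P c ω = A.V c * A.V ω - A.V2 c ω := by rw [h]; abel
  rw [h3]
  exact ((hω.comm_Vc h2 hdiv hc).mul_left (hω.comm_V (Commute.refl _)).symm).sub_left
    (hω.comm_V2 h2 hdiv hc)

/-- (3a) -/
lemma Om.isCom (hdiv : A.IsDivision) {ω : J} (hω : Om A ω) {c : J} (hc : A.jp ω c = 0)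
    (hcU : Commute (A.U c) (A.U ω)) : A.IsCom {A.one, ω, c} := by
  have k1 := hω.comm_Vc h2 hdiv hc
  have k2 := hω.comm_P h2 hdiv hc
  have k3 : Commute (A.V c) (A.U c) := V_mul_U c
  have k4 : Commute (A.V2 c ω) (A.U c) := by
    have h := V2_mul_U (A := A) c ω
    rw [← V2_comm_of_jp h2 hdiv hc] at h
    rw [← V2_comm_of_jp h2 hdiv hc]
    exact h
  have k5 : Commute (A.P c ω) (A.U c) := by
    have h := V_mul_V hdiv c ω
    have h3 : A.P c ω = A.V c * A.V ω - A.V2 c ω := by rw [h]; abel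
    rw [h3]
    exact (k3.mul_left (hω.comm_V hcU).symm).sub_left k4
  have k6 : Commute (A.P c ω) (A.V c) := by
    have h := lieV hdiv c c ω
    have h3 : A.jp c c = 0 := by
      rw [jp_def, P_self, LinearMap.add_apply, h2]
    rw [h3, P_zero_left, jp_comm c ω, hc, P_zero_right, add_zero] at h
    exact (end_eq_of_add h2 h).symm
  set s : Set (Module.End R J) := {A.U ω, A.U c, A.V c, A.P c ω} with hs
  have m1 : A.U ω ∈ Subring.closure s := Subring.subset_closure (Or.inl rfl)
  have m2 : A.U c ∈ Subring.closure s := Subring.subset_closure (Or.inr (Or.inl rfl))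
  have m3 : A.V c ∈ Subring.closure s := Subring.subset_closure (Or.inr (Or.inr (Or.inl rfl)))
  have m4 : A.P c ω ∈ Subring.closure s := Subring.subset_closure (Or.inr (Or.inr (Or.inr rfl)))
  have m5 : A.V ω ∈ Subring.closure s := by
    rw [hω.V]
    exact Subring.add_mem _ (Subring.add_mem _ (Subring.one_mem _) m1) (Subring.mul_mem _ m1 m1)
  refine isCom_of_closure (s := s) ?_ ?_ ?_
  · rintro a (rfl | rfl | rfl | rfl) b (rfl | rfl | rfl | rfl)
    · rfl
    · exact hcU.symm.eq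
    · exact k1.symm.eq
    · exact k2.symm.eq
    · exact hcU.eq
    · rfl
    · exact k3.symm.eq
    · exact k5.symm.eq
    · exact k1.eq
    · exact k3.eq
    · rfl
    · exact k6.symm.eq
    · exact k2.eq
    · exact k5.eq
    · exact k6.eq
    · rfl
  · rintro a (rfl | rfl | rfl)
    · rw [U_one']; exact Subring.one_mem _
    · exact m1
    · exact m2
  · rintro a (rfl | rfl | rfl) b (rfl | rfl | rfl)
    · rw [P_self, U_one']
      exact Subring.add_mem _ (Subring.one_mem _) (Subring.one_mem _)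
    · rw [P_comm]; exact m5
    · rw [P_comm]; exact m3
    · exact m5
    · rw [P_self]; exact Subring.add_mem _ m1 m1
    · rw [P_comm]; exact m4
    · exact m3
    · exact m4
    · rw [P_self]; exact Subring.add_mem _ m2 m2

omit h2 in
lemma Om.U_ne_one {ω : J} (hω : Om A ω) (hdiv : A.IsDivision) : A.U ω ≠ 1 := by
  intro h
  have h3 := hω.sq
  rw [h, Module.End.one_apply] at h3
  exact hω.ne0 (by simpa using h3)

/-- (3b) -/
lemma Om.exists_b (hdiv : A.IsDivision) {ω : J} (hω : Om A ω) (hV : A.V ω ≠ 0) :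
    ∃ c, c ≠ 0 ∧ c ≠ A.one ∧ c ≠ ω ∧ c ≠ ω + A.one ∧ A.jp ω c = 0 ∧
      Commute (A.U c) (A.U ω) := by
  obtain ⟨w, hw⟩ : ∃ w, A.V ω w ≠ 0 := by
    by_contra hcon
    push Not at hcon
    exact hV (LinearMap.ext hcon)
  set z := A.V ω w with hz
  have hγV : A.U ω * A.V ω = A.V ω := by
    rw [hω.V, mul_add, mul_add, mul_one, ← mul_assoc, hω.cube]
    abel
  have hγz : A.U ω z = z := by
    rw [hz, ← Module.End.mul_apply, hγV]
  have hUz : A.U z = A.U ω * A.U z * A.U ω := by
    conv_lhs => rw [← hγz]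
    exact A.QJ3 ω z
  -- `U z * γ = γ⁻¹ * U z`
  have e1 : A.U z * A.U ω = A.U ω * A.U ω * A.U z := by
    have : A.U ω * A.U ω * A.U z = A.U ω * A.U ω * (A.U ω * A.U z * A.U ω) := by rw [← hUz]
    rw [this, mul_assoc (A.U ω) (A.U z), ← mul_assoc, hω.cube, one_mul]
  have e2 : A.U z * (A.U ω * A.U ω) = A.U ω * A.U z := by
    calc A.U z * (A.U ω * A.U ω) = (A.U z * A.U ω) * A.U ω := by rw [mul_assoc]
      _ = A.U ω * A.U ω * A.U z * A.U ω := by rw [e1]
      _ = A.U ω * (A.U ω * A.U z * A.U ω) := by simp only [mul_assoc]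
      _ = A.U ω * A.U z := by rw [← hUz]
  have e3 : Commute (A.U z * A.U z) (A.U ω) := by
    show A.U z * A.U z * A.U ω = A.U ω * (A.U z * A.U z)
    rw [mul_assoc, e1, ← mul_assoc, e2, mul_assoc]
  have e4 : A.U z * A.V ω = A.V ω * A.U z := by
    rw [hω.V, mul_add, mul_add, add_mul, add_mul, mul_one, one_mul, e1, e2]
    abel
  have hcU : A.U (A.U z A.one) = A.U z * A.U z := U_sq z
  have hinvz := U_inv_mul_cancel hdiv hw
  have hne : ¬ Commute (A.U z) (A.U ω) := by
    intro h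
    have h3 : A.U ω * A.U z = A.U ω * A.U ω * A.U z := by rw [← e1]; exact h.symm.eq
    have h4 : A.U ω = A.U ω * A.U ω := by
      calc A.U ω = A.U ω * A.U z * A.U (A.inv z) := by rw [mul_assoc, hinvz.2, mul_one]
        _ = A.U ω * A.U ω * A.U z * A.U (A.inv z) := by rw [h3]
        _ = A.U ω * A.U ω := by rw [mul_assoc, hinvz.2, mul_one]
    apply hω.U_ne_one hdiv
    have h5 := hω.cube
    rw [← h4, ← h4] at h5
    exact h5
  refine ⟨A.U z A.one, U_ne hdiv hw hdiv.1, ?_, ?_, ?_, ?_, ?_⟩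
  · intro h
    have hz1 := sq_eq_one h2 hdiv h
    rw [hz1, hω.sq] at hγz
    exact hω.ne0 (by simpa using hγz)
  · intro h
    apply hne
    rw [h] at hcU
    rw [hcU]
    exact (Commute.refl _).mul_right (Commute.refl _)
  · intro h
    apply hne
    rw [h, hω.U_add] at hcU
    apply hω.comm_of_sq
    rw [hcU]
    exact (Commute.refl _).mul_right (Commute.refl _)
  · rw [← V_apply, ← Module.End.mul_apply, ← e4, Module.End.mul_apply, V_apply,
      jp_one0 h2, map_zero]
  · rw [hcU]; exact e3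

/-- (3c) -/
lemma Om.comm_of_V_eq_zero (hdiv : A.IsDivision) {ω : J} (hω : Om A ω) (hV : A.V ω = 0) (c : J) :
    Commute (A.U c) (A.U ω) := by
  have hj : ∀ x, A.jp ω x = 0 := fun x => by rw [← V_apply, hV]; rfl
  set γ := A.U ω with hγ
  have h1 := U_jp (A := A) c ω
  rw [jp_comm, hj, map_zero] at h1
  have h3 : Commute (A.P (A.U c ω) ω) γ := hω.comm_P h2 hdiv (hj _)
  have h4 : Commute (A.V c) γ := hω.comm_Vc h2 hdiv (hj _)
  have h5 : Commute (A.V c * γ * A.V c) γ := (h4.mul_left (Commute.refl _)).mul_left h4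
  obtain ⟨κ, hκ⟩ : ∃ κ, κ = γ * A.U c + A.U c * γ := ⟨_, rfl⟩
  have h6 : κ = A.P (A.U c ω) ω - A.V c * γ * A.V c := by
    rw [hκ]
    have h7 : A.U c * γ + γ * A.U c = A.P (A.U c ω) ω - A.V c * γ * A.V c +
      (A.U c * γ + γ * A.U c + A.V c * γ * A.V c - A.P (A.U c ω) ω) := by abel
    rw [add_comm, h7, ← h1, add_zero]
  have h8 : Commute κ γ := by rw [h6]; exact h3.sub_left h5
  have h9 : γ * γ = 1 + γ := by
    apply end_eq_of_add h2
    have h10 := hω.V
    rw [hV, ← hγ] at h10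
    rw [add_comm]
    exact h10.symm
  have h11 : γ * γ * A.U c + A.U c * (γ * γ) = κ := by
    have : γ * γ * A.U c + A.U c * (γ * γ) = (A.U c + A.U c) + κ := by
      rw [h9, hκ]; noncomm_ring
    rw [this, end_add_self h2 (A.U c), zero_add]
  have h12 : γ * γ * A.U c + A.U c * (γ * γ) = 0 := by
    have : γ * γ * A.U c + A.U c * (γ * γ) =
        γ * κ + κ * γ - (γ * A.U c * γ + γ * A.U c * γ) := by
      rw [hκ]; noncomm_ring
    rw [this, h8.eq, end_add_self h2, end_add_self h2, sub_zero]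
  have h13 : κ = 0 := by rw [← h11, h12]
  rw [h13] at hκ
  exact (end_eq_of_add h2 hκ.symm).symm

/-- The statement for the unit element. -/
theorem exists_ck (hdiv : A.IsDivision) (hbig : Big J 4) (x : J) :
    ∃ l, A.IsCK l ∧ x ∈ l ∧ ∃ f ∈ l, ∃ g ∈ l, ∃ h ∈ l, Trip f g h := by
  classical
  have key : ∀ x : J, x ≠ 0 → x ≠ A.one →
      ∃ l, A.IsCK l ∧ x ∈ l ∧ ∃ f ∈ l, ∃ g ∈ l, ∃ h ∈ l, Trip f g h := by
    intro x hx0 hx1
    by_cases hx : A.one + x + A.inv x = 0
    · have hω := om_of_inv h2 hdiv hx0 hx1 hx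
      obtain ⟨c, hc0, hc1, hcω, hcω1, hj, hcU⟩ : ∃ c, c ≠ 0 ∧ c ≠ A.one ∧ c ≠ x ∧
          c ≠ x + A.one ∧ A.jp x c = 0 ∧ Commute (A.U c) (A.U x) := by
        by_cases hV : A.V x = 0
        · obtain ⟨c, hc⟩ := hbig {0, A.one, x, x + A.one} Finset.card_le_four
          simp only [Finset.mem_insert, Finset.mem_singleton, not_or] at hc
          refine ⟨c, hc.1, hc.2.1, hc.2.2.1, hc.2.2.2, ?_, hω.comm_of_V_eq_zero h2 hdiv hV c⟩
          rw [← V_apply, hV]; rfl
        · exact hω.exists_b h2 hdiv hV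
      obtain ⟨K, hK, hsub, -⟩ := exists_isCK hdiv (S0 := {A.one, x, c}) (Or.inl rfl)
        (hω.isCom h2 hdiv hj hcU)
      refine ⟨K, hK, hsub (Or.inr (Or.inl rfl)), A.one, hK.one, x,
        hsub (Or.inr (Or.inl rfl)), c, hsub (Or.inr (Or.inr rfl)), hdiv.1, hx0, hc0, ?_, ?_, ?_, ?_⟩
      · exact fun h => hx1 (eq_of_add_eq_zero h2 h).symm
      · exact fun h => hc1 (eq_of_add_eq_zero h2 h).symm
      · exact fun h => hcω (eq_of_add_eq_zero h2 h).symm
      · intro h
        apply hcω1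
        rw [← eq_of_add_eq_zero h2 h, add_comm]
    · obtain ⟨K, hK, hsub, -⟩ := exists_isCK hdiv (S0 := {A.one, x}) (Or.inl rfl) (isCom_pair x)
      have hxK : x ∈ K := hsub (Or.inr rfl)
      refine ⟨K, hK, hxK, A.one, hK.one, x, hxK, A.inv x, hK.inv x hxK hx0, hdiv.1, hx0,
        inv_ne hdiv hx0, ?_, ?_, ?_, hx⟩
      · exact fun h => hx1 (eq_of_add_eq_zero h2 h).symm
      · intro h
        apply hx1
        apply inv_injective hdiv hx0 hdiv.1
        rw [← eq_of_add_eq_zero h2 h, inv_one' hdiv]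
      · intro h
        apply hx1
        have h3 : A.inv x = x := (eq_of_add_eq_zero h2 h).symm
        have h4 := (U_inv_mul_cancel hdiv hx0).1
        rw [h3] at h4
        apply sq_eq_one h2 hdiv
        apply sq_eq_one h2 hdiv
        rw [U_sq, h4]; rfl
  by_cases hx : x = 0 ∨ x = A.one
  · obtain ⟨y, hy⟩ := hbig {0, A.one} (Finset.card_le_two.trans (by norm_num))
    simp only [Finset.mem_insert, Finset.mem_singleton, not_or] at hy
    obtain ⟨l, hl, -, ht⟩ := key y hy.1 hy.2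
    refine ⟨l, hl, ?_, ht⟩
    rcases hx with rfl | rfl
    · exact hl.zero_mem
    · exact hl.one
  · push Not at hx
    exact key x hx.1 hx.2

end char2

end Lines2

/-- BLOCK LINES2. -/
theorem exists_line2 (h2 : ∀ a : J, a + a = 0) (hdiv : A.IsDivision) (hbig : Big J 4) {u : J}
    (hu : u ≠ 0) (x : J) : ∃ l, IsLine hdiv l ∧ u ∈ l ∧ x ∈ l := by
  obtain ⟨l, hl, hx, ht⟩ := Lines2.exists_ck h2 (isotope_isDivision hdiv hu) hbig x
  exact ⟨l, isLine_of_isCK hdiv hu hl ht, hl.one, hx⟩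

end Pool.Agent.Helper4.Jordan.QuadraticJordanAlgebra
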