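import Pool.Agent.Helper36.St.Max

/-! Lines through two points, characteristic 3. -/

namespace Pool.Agent.Helper4.Jordan.QuadraticJordanAlgebra

open QuadraticMap

variable {R J : Type*} [CommRing R] [AddCommGroup J] [Module R J]
  {A : QuadraticJordanAlgebra R J}

/-- `{one, x}` is commuting -/
lemma isCom_pair (x : J) : A.IsCom {A.one, x} := by
  have hU : ∀ a ∈ ({A.one, x} : Set J), A.U a = 1 ∨ A.U a = A.U x := by
    rintro a (rfl | rfl)
    · exact Or.inl U_one'
    · exact Or.inr rfl
  have hP : ∀ a ∈ ({A.one, x} : Set J), ∀ b ∈ ({A.one, x} : Set J),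
      A.P a b = 2 ∨ A.P a b = A.V x ∨ A.P a b = A.U x + A.U x := by
    rintro a (rfl | rfl) b (rfl | rfl)
    · left; rw [← V_def, V_one]
    · right; left; rw [P_comm]; rfl
    · right; left; rfl
    · right; right; exact P_self _
  have cUV : Commute (A.U x) (A.V x) := (V_mul_U x).symm
  have c2 : ∀ T : Module.End R J, Commute T 2 := fun T => by
    rw [← one_add_one_eq_two]; exact (Commute.one_right T).add_right (Commute.one_right T)
  refine ⟨?_, ?_, ?_⟩
  · intro a ha b hb
    rcases hU a ha with h | h <;> rcases hU b hb with h' | h' <;> rw [h, h']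
    · exact Commute.one_left _
    · exact Commute.one_right _
  · intro a ha b hb c hc
    rcases hU a ha with h | h <;> rcases hP b hb c hc with h' | h' | h' <;> rw [h, h']
    · exact Commute.one_left _
    · exact Commute.one_left _
    · exact Commute.one_left _
    · exact c2 _
    · exact cUV
    · exact (Commute.refl _).add_right (Commute.refl _)
  · intro a ha b hb c hc d hd
    rcases hP a ha b hb with h | h | h <;> rcases hP c hc d hd with h' | h' | h' <;> rw [h, h']
    · exact (c2 _).symm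
    · exact (c2 _).symm
    · exact c2 _
    · exact cUV.symm.add_right cUV.symm
    · exact c2 _
    · exact cUV.add_left cUV

/-- the triple used for characteristic 3 -/
theorem trip3 (h3 : ∀ a : J, a + a + a = 0) {u x : J} (hu : u ≠ 0) (h0 : x ≠ 0) (h1 : x ≠ u)
    (h2 : x ≠ -u) : Trip u u x := by
  have e : u + u = -u := eq_neg_of_add_eq_zero_left (h3 u)
  refine ⟨hu, hu, h0, ?_, ?_, ?_, ?_⟩
  · rw [e]; exact neg_ne_zero.2 hu
  · intro h; exact h2 (eq_neg_of_add_eq_zero_right h)
  · intro h; exact h2 (eq_neg_of_add_eq_zero_right h)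
  · rw [e]; intro h; exact h1 (by rw [neg_add_eq_zero] at h; exact h.symm)

/-- BLOCK LINES3. -/
theorem exists_line3 (h3 : ∀ a : J, a + a + a = 0) (hdiv : A.IsDivision) (hbig : Big J 3) {u : J}
    (hu : u ≠ 0) (x : J) : ∃ l, IsLine hdiv l ∧ u ∈ l ∧ x ∈ l := by
  classical
  -- it is enough to treat `x` outside `{0, u, -u}`
  have key : ∀ x, x ≠ 0 → x ≠ u → x ≠ -u → ∃ l, IsLine hdiv l ∧ u ∈ l ∧ x ∈ l := by
    intro x h0 h1 h2
    obtain ⟨K, hK, hS, -⟩ := exists_isCK (isotope_isDivision hdiv hu)
      (S0 := {(isotope hdiv hu).one, x}) (by simp) (isCom_pair x)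
    refine ⟨K, isLine_of_isCK hdiv hu hK ⟨u, hS (by simp [isotope_one]), u,
      hS (by simp [isotope_one]), x, hS (by simp), trip3 h3 hu h0 h1 h2⟩,
      hS (by simp [isotope_one]), hS (by simp)⟩
  by_cases hx : x = 0 ∨ x = u ∨ x = -u
  · obtain ⟨y, hy⟩ := hbig {0, u, -u} (Finset.card_le_three)
    simp only [Finset.mem_insert, Finset.mem_singleton, not_or] at hy
    obtain ⟨l, hl, hul, hyl⟩ := key y hy.1 hy.2.1 hy.2.2
    refine ⟨l, hl, hul, ?_⟩
    rcases hx with rfl | rfl | rfl
    · exact hl.zero_mem hdiv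
    · exact hul
    · exact hl.neg_mem hdiv hul
  · push Not at hx
    exact key x hx.1 hx.2.1 hx.2.2

end Pool.Agent.Helper4.Jordan.QuadraticJordanAlgebra
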