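import Pool.Agent.Helper36.St.Hua
import Pool.Agent.Helper36.St.Lines2
import Pool.Agent.Helper36.St.Lines3

/-! Small algebras are commutative. -/

namespace Pool.Agent.Helper4.Jordan.QuadraticJordanAlgebra

open QuadraticMap

variable {R J : Type*} [CommRing R] [AddCommGroup J] [Module R J]
  {A : QuadraticJordanAlgebra R J}

namespace Card

/-- the additive subgroup underlying a commutative subfield -/
def sub {K : Set J} (hK : A.IsCK K) : AddSubgroup J where
  carrier := K
  add_mem' ha hb := hK.add _ ha _ hb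
  zero_mem' := hK.zero_mem
  neg_mem' ha := hK.neg _ ha

lemma mem_sub {K : Set J} (hK : A.IsCK K) {x : J} : x ∈ sub hK ↔ x ∈ K := Iff.rfl

/-- `U a` for nonzero `a ∈ K` preserves the complement of `K` -/
lemma U_notMem (hdiv : A.IsDivision) {K : Set J} (hK : A.IsCK K) {a x : J} (ha : a ∈ K)
    (ha0 : a ≠ 0) (hx : x ∉ K) : A.U a x ∉ K := by
  intro h
  apply hx
  have := hK.U_mem hdiv (hK.inv a ha ha0) h
  rwa [U_inv_U hdiv ha0] at this

omit [Module R J] [CommRing R] in
/-- three independent elements in an additive subgroup: at least `p ^ 3` elements -/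
lemma card_ge {p : ℕ} {K' : AddSubgroup J} [Finite J] {f g h : J} (hf : f ∈ K') (hg : g ∈ K')
    (hh : h ∈ K') (hind : ∀ i j k : ℤ, i • f + j • g + k • h = 0 →
      (p : ℤ) ∣ i ∧ (p : ℤ) ∣ j ∧ (p : ℤ) ∣ k) : p * (p * p) ≤ Nat.card K' := by
  let ψ : Fin p × Fin p × Fin p → K' := fun t =>
    ⟨(t.1 : ℕ) • f + (t.2.1 : ℕ) • g + (t.2.2 : ℕ) • h,
      K'.add_mem (K'.add_mem (K'.nsmul_mem hf _) (K'.nsmul_mem hg _)) (K'.nsmul_mem hh _)⟩
  have hψ : Function.Injective ψ := by
    rintro ⟨i, j, k⟩ ⟨i', j', k'⟩ e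
    have e1 : (i : ℕ) • f + (j : ℕ) • g + (k : ℕ) • h =
      (i' : ℕ) • f + (j' : ℕ) • g + (k' : ℕ) • h := congrArg Subtype.val e
    have e2 : ((i : ℤ) - i') • f + ((j : ℤ) - j') • g + ((k : ℤ) - k') • h = 0 := by
      simp only [sub_smul, natCast_zsmul]
      have : (i : ℕ) • f - (i' : ℕ) • f + ((j : ℕ) • g - (j' : ℕ) • g) +
        ((k : ℕ) • h - (k' : ℕ) • h) = ((i : ℕ) • f + (j : ℕ) • g + (k : ℕ) • h) -
        ((i' : ℕ) • f + (j' : ℕ) • g + (k' : ℕ) • h) := by abel
      rw [this, e1, sub_self]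
    have key : ∀ a b : Fin p, (p : ℤ) ∣ (a : ℤ) - b → a = b := by
      intro a b hd
      have h1 := a.2
      have h2 := b.2
      have h3 : ((a : ℕ) : ℤ) - ((b : ℕ) : ℤ) = 0 := by
        apply Int.eq_zero_of_abs_lt_dvd hd
        rw [abs_lt]; constructor <;> omega
      exact Fin.ext (by omega)
    obtain ⟨d1, d2, d3⟩ := hind _ _ _ e2
    rw [key _ _ d1, key _ _ d2, key _ _ d3]
  have h1 := Nat.card_le_card_of_injective ψ hψ
  simpa [Nat.card_prod] using h1

lemma four_distinct {G : Type*} [Finite G] (h : Nat.card G ≤ 3) {a b c d : G} (hab : a ≠ b)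
    (hac : a ≠ c) (had : a ≠ d) (hbc : b ≠ c) (hbd : b ≠ d) (hcd : c ≠ d) : False := by
  classical
  have := Fintype.ofFinite G
  have h1 : ({a, b, c, d} : Finset G).card = 4 := by
    rw [Finset.card_insert_of_notMem (by simp [hab, hac, had]),
      Finset.card_insert_of_notMem (by simp [hbc, hbd]),
      Finset.card_insert_of_notMem (by simp [hcd]), Finset.card_singleton]
  have h2 := Finset.card_le_univ ({a, b, c, d} : Finset G)
  rw [h1, ← Nat.card_eq_fintype_card] at h2
  omega

omit [Module R J] [CommRing R] in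
lemma index_le {K' : AddSubgroup J} [Finite J] {m n : ℕ} (h1 : m ≤ Nat.card K')
    (h2 : Nat.card J ≤ n) (hm : n < m * 4) : Nat.card (J ⧸ K') ≤ 3 := by
  have h3 := K'.card_mul_index
  have h4 : K'.index = Nat.card (J ⧸ K') := rfl
  rw [h4] at h3
  by_contra h5
  push Not at h5
  have h6 : m * 4 ≤ Nat.card K' * Nat.card (J ⧸ K') := Nat.mul_le_mul h1 h5
  omega

omit [Module R J] [CommRing R] in
lemma zs2 (h2 : ∀ a : J, a + a = 0) (i : ℤ) (v : J) :
    (i • v = 0 ∧ (2 : ℤ) ∣ i) ∨ i • v = v := by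
  rcases Int.even_or_odd' i with ⟨k, rfl | rfl⟩
  · left
    refine ⟨?_, Dvd.intro _ rfl⟩
    rw [mul_comm, mul_smul, two_smul, h2, smul_zero]
  · right
    rw [add_smul, one_smul, mul_comm, mul_smul, two_smul, h2, smul_zero, zero_add]

omit [Module R J] [CommRing R] in
lemma ind2 (h2 : ∀ a : J, a + a = 0) {f g h : J} (ht : Trip f g h) (i j k : ℤ)
    (e : i • f + j • g + k • h = 0) : (2 : ℤ) ∣ i ∧ (2 : ℤ) ∣ j ∧ (2 : ℤ) ∣ k := by
  obtain ⟨t1, t2, t3, t4, t5, t6, t7⟩ := ht
  rcases zs2 h2 i f with ⟨a1, b1⟩ | a1 <;> rcases zs2 h2 j g with ⟨a2, b2⟩ | a2 <;>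
    rcases zs2 h2 k h with ⟨a3, b3⟩ | a3 <;> rw [a1, a2, a3] at e <;>
    (try simp only [zero_add, add_zero] at e)
  · exact ⟨b1, b2, b3⟩
  · exact absurd e t3
  · exact absurd e t2
  · exact absurd e t6
  · exact absurd e t1
  · exact absurd e t5
  · exact absurd e t4
  · exact absurd e t7

end Card

open Card

/-- BLOCK CARD (i). Proof: `K ∋ one` maximal (`exists_isCK` applied to the set of `exists_line2`) has
at least 8 elements. If `K ≠ J` and `|J| ≤ 31` then `|K| = 8`, `|J/K| = 2`; `U a` for `a ∈ K`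
nonzero maps `K` onto `K`, so acts trivially on `J/K ≅ Z/2`; for `Trip f g h` in `K` and `x ∉ K`:
`0 = ∑ ± U_{f_S} x ≡ 7 x = x` mod `K`, contradiction. If `K = J`: `IsCK univ`. -/
theorem card2 (h2 : ∀ a : J, a + a = 0) (hdiv : A.IsDivision) (hbig : Big J 4) :
    A.IsCK Set.univ ∨ Big J 31 := by
  classical
  by_contra hcon
  push Not at hcon
  obtain ⟨hnc, hnb⟩ := hcon
  obtain ⟨hfin, hcard⟩ := not_big_iff.1 hnb
  obtain ⟨K, hl, h1K, -⟩ := exists_line2 h2 hdiv hbig hdiv.1 A.one
  have hK := hl.isCK hdiv h1K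
  obtain ⟨f, hf, g, hg, h, hh, ht⟩ := hl.trip
  have hne : ∃ x, x ∉ K := by
    by_contra hx
    push Not at hx
    exact hnc ((Set.eq_univ_of_forall hx) ▸ hK)
  obtain ⟨x, hx⟩ := hne
  have hind := card_ge (K' := sub hK) hf hg hh (ind2 h2 ht)
  have hidx : Nat.card (J ⧸ sub hK) ≤ 3 := index_le hind hcard (by norm_num)
  set q := QuotientAddGroup.mk' (sub hK) with hq
  have hq0 : ∀ z, q z = 0 ↔ z ∈ K := fun z => QuotientAddGroup.eq_zero_iff z
  have hq2 : ∀ z, q z + q z = 0 := fun z => by rw [← map_add, h2, map_zero]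
  have hqx : ∀ z, z ∉ K → q z = q x := by
    intro z hz
    by_contra hzx
    have hz0 : q z ≠ 0 := fun h0 => hz ((hq0 z).1 h0)
    have hx0 : q x ≠ 0 := fun h0 => hx ((hq0 x).1 h0)
    refine four_distinct hidx (a := 0) (b := q x) (c := q z) (d := q x + q z) (Ne.symm hx0)
      (Ne.symm hz0) ?_ (fun e => hzx e.symm) ?_ ?_
    · intro e
      apply hzx
      have : q z = q x + q z + q x := by
        rw [add_right_comm, hq2, zero_add]
      rw [this, ← e, zero_add]
    · intro e; exact hz0 (by simpa using e)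
    · intro e; exact hx0 (by simpa using e)
  have hfg := hK.add _ hf _ hg
  have hfh := hK.add _ hf _ hh
  have hgh := hK.add _ hg _ hh
  have hfgh := hK.add _ hfg _ hh
  obtain ⟨t1, t2, t3, t4, t5, t6, t7⟩ := ht
  have key : A.U (f + g + h) x - A.U (f + g) x - A.U (f + h) x - A.U (g + h) x + A.U f x +
      A.U g x + A.U h x = 0 := by
    simp only [U_add', P_add_left, LinearMap.add_apply]
    abel
  have key2 := congrArg q key
  simp only [map_add, map_sub, map_zero] at key2
  have hU : ∀ b, b ∈ K → b ≠ 0 → q (A.U b x) = q x := fun b hb hb0 =>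
    hqx _ (U_notMem hdiv hK hb hb0 hx)
  rw [hU _ hfgh t7, hU _ hfg t4, hU _ hfh t5, hU _ hgh t6, hU _ hf t1, hU _ hg t2,
    hU _ hh t3] at key2
  apply hx
  rw [← hq0]
  rw [← key2]
  abel

/-- BLOCK CARD (ii). `y² = 1 ⇒ y = ±1`: `U (y - 1) (y + 1) = 0` (expand; `U y y = y` if `y² = 1`
since `U y U y = 1` and `V y U y 1 = U y V y 1`). -/
theorem sq_eq_one3 (h3 : ∀ a : J, a + a + a = 0) (hdiv : A.IsDivision) {y : J}
    (hy : A.U y A.one = A.one) : y = A.one ∨ y = -A.one := by
  have e2 : ∀ a : J, a + a = -a := fun a => eq_neg_of_add_eq_zero_left (h3 a)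
  have hUy : A.U y y = y := by
    have h1 := LinearMap.congr_fun (V_mul_U (A := A) y) A.one
    rw [Module.End.mul_apply, Module.End.mul_apply, hy, V_apply, jp_one, e2, map_neg] at h1
    exact (neg_injective h1).symm
  have h4 : A.U (y - A.one) (y + A.one) = 0 := by
    rw [sub_eq_add_neg, U_add', U_neg, U_one', P_neg_right, ← V_def, LinearMap.add_apply,
      LinearMap.add_apply, Module.End.one_apply, LinearMap.neg_apply, map_add, map_add, hUy, hy,
      V_apply, V_apply, jp_one, ← tr_one_mid, tr_self, hy]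
    have : y + A.one + (y + A.one) + -(A.one + A.one + (y + y)) = 0 := by abel
    exact this
  by_cases h5 : y + A.one = 0
  · exact Or.inr (eq_neg_of_add_eq_zero_left h5)
  · exact Or.inl (sub_eq_zero.1 (eq_zero_of_U hdiv h5 h4))

namespace Card

omit [Module R J] [CommRing R] in
lemma zs3_mul (h3 : ∀ a : J, a + a + a = 0) (k : ℤ) (v : J) : (3 * k) • v = 0 := by
  rw [mul_comm, mul_smul]
  have : (3 : ℤ) • v = v + v + v := by
    rw [show (3 : ℤ) = 1 + 1 + 1 by norm_num, add_smul, add_smul, one_smul]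
  rw [this, h3, smul_zero]

omit [Module R J] [CommRing R] in
/-- `i • v` for an integer `i`, characteristic 3 -/
lemma zs3 (h3 : ∀ a : J, a + a + a = 0) (i : ℤ) (v : J) :
    (i • v = 0 ∧ (3 : ℤ) ∣ i) ∨ i • v = v ∨ i • v = -v := by
  have h33 : ∀ k : ℤ, (3 * k) • v = 0 := fun k => zs3_mul h3 k v
  have hi : i = 3 * (i / 3) + i % 3 := (Int.mul_ediv_add_emod i 3).symm
  have h0 := Int.emod_nonneg i (by norm_num : (3 : ℤ) ≠ 0)
  have h1 := Int.emod_lt_of_pos i (by norm_num : (0 : ℤ) < 3)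
  have h4 : i % 3 = 0 ∨ i % 3 = 1 ∨ i % 3 = 2 := by omega
  rcases h4 with h4 | h4 | h4
  · left
    refine ⟨?_, Int.dvd_of_emod_eq_zero h4⟩
    rw [hi, h4, add_zero, h33]
  · right; left
    rw [hi, h4, add_smul, h33, zero_add, one_smul]
  · right; right
    rw [hi, h4, add_smul, h33, zero_add, two_smul]
    exact eq_neg_of_add_eq_zero_left (h3 v)

/-- the span of `1` and `x` -/
def S1 (A : QuadraticJordanAlgebra R J) (x : J) : Set J := {z | ∃ m n : ℤ, z = m • A.one + n • x}

lemma S1_add {x z w : J} (hz : z ∈ S1 A x) (hw : w ∈ S1 A x) : z + w ∈ S1 A x := by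
  obtain ⟨m, n, rfl⟩ := hz
  obtain ⟨m', n', rfl⟩ := hw
  exact ⟨m + m', n + n', by rw [add_smul, add_smul]; abel⟩

lemma S1_neg {x z : J} (hz : z ∈ S1 A x) : -z ∈ S1 A x := by
  obtain ⟨m, n, rfl⟩ := hz
  exact ⟨-m, -n, by rw [neg_smul, neg_smul]; abel⟩

lemma S1_sub {x z w : J} (hz : z ∈ S1 A x) (hw : w ∈ S1 A x) : z - w ∈ S1 A x := by
  rw [sub_eq_add_neg]; exact S1_add hz (S1_neg hw)

lemma S1_zsmul {x z : J} (k : ℤ) (hz : z ∈ S1 A x) : k • z ∈ S1 A x := by
  obtain ⟨m, n, rfl⟩ := hz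
  exact ⟨k * m, k * n, by rw [smul_add, mul_smul, mul_smul]⟩

lemma S1_one {x : J} : A.one ∈ S1 A x := ⟨1, 0, by rw [one_smul, zero_smul, add_zero]⟩

lemma S1_self {x : J} : x ∈ S1 A x := ⟨0, 1, by rw [one_smul, zero_smul, zero_add]⟩

lemma S1_zero {x : J} : (0 : J) ∈ S1 A x := ⟨0, 0, by rw [zero_smul, zero_smul, add_zero]⟩

/-- if `y` is not in the prime field and `y²` is, then `y² = -1` -/
lemma sq_eq_neg_one (h3 : ∀ a : J, a + a + a = 0) (hdiv : A.IsDivision) {y : J}
    (hy : y ≠ 0 ∧ y ≠ A.one ∧ y ≠ -A.one) {m : ℤ} (hm : A.U y A.one = m • A.one) :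
    A.U y A.one = -A.one := by
  rcases zs3 h3 m A.one with ⟨h, -⟩ | h | h
  · rw [h] at hm; exact absurd hm (U_ne hdiv hy.1 hdiv.1)
  · rw [h] at hm
    rcases sq_eq_one3 h3 hdiv hm with h | h
    · exact absurd h hy.2.1
    · exact absurd h hy.2.2
  · rw [hm, h]

lemma U_add_one (x y : J) : A.U (x + y) A.one = A.U x A.one + A.U y A.one + A.jp x y := by
  rw [U_add', LinearMap.add_apply, LinearMap.add_apply]; rfl

lemma U_zsmul_one (n : ℤ) (x : J) :
    A.U (n • x) A.one = (n * n) • A.U x A.one := by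
  have : A.U (n • x) = (n * n) • A.U x := by
    have h1 := QuadraticMap.map_smul A.U (n : R) x
    rw [Int.cast_smul_eq_zsmul] at h1
    rw [h1, ← Int.cast_mul, Int.cast_smul_eq_zsmul]
  rw [this, LinearMap.smul_apply]

lemma jp_zsmul_one (n : ℤ) (x : J) : A.jp x (n • A.one) = n • (x + x) := by
  have h : A.V x (n • A.one) = n • A.V x A.one := map_zsmul _ _ _
  rwa [V_apply, V_apply, jp_one] at h

lemma jp_zsmul (n : ℤ) (x y : J) : A.jp x (n • y) = n • A.jp x y := by
  have h : A.V x (n • y) = n • A.V x y := map_zsmul _ _ _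
  rwa [V_apply, V_apply] at h

lemma jp_self (x : J) : A.jp x x = A.U x A.one + A.U x A.one := tr_self x A.one

end Card

/-- BLOCK CARD (iii). There is `y` with `y² ∉ span(1, y)`. Proof: otherwise for each `y ∉ F_3 1`,
after completing the square there is `x ∉ F_3 1` with `x² ∈ F_3 1`, so `x² = -1` (`sq_eq_one3`,
`x² ≠ 0`). Take `x`, and `y ∉ span(1,x)` also normalised, `y² = -1`. From `(x±y)² ∈ span(1, x±y)`,
`(x±y)² = 1 ± x∘y`, deduce `x∘y ∈ F_3 1`; replace `y` by `y - (x∘y) x` so that `x∘y = 0`, again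
`y² = -1`; then `(x+y)² = 1`, so `x + y = ±1`, contradiction. -/
theorem exists_cubic3 (h3 : ∀ a : J, a + a + a = 0) (hdiv : A.IsDivision) (hbig : Big J 9) :
    ∃ y : J, ∀ m n : ℤ, A.U y A.one ≠ m • A.one + n • y := by
  classical
  by_contra hcon
  push Not at hcon
  have e2 : ∀ a : J, a + a = -a := fun a => eq_neg_of_add_eq_zero_left (h3 a)
  have hprime : ∀ (n : ℤ) (v : J), n • v = 0 ∨ n • v = v ∨ n • v = -v := by
    intro n v
    rcases zs3 h3 n v with ⟨h, -⟩ | h | h
    · exact Or.inl h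
    · exact Or.inr (Or.inl h)
    · exact Or.inr (Or.inr h)
  -- normalisation
  have hnorm : ∀ y : J, y ≠ 0 → y ≠ A.one → y ≠ -A.one → ∃ n : ℤ,
      A.U (y + n • A.one) A.one = -A.one := by
    intro y y0 y1 y2
    obtain ⟨m, n, hmn⟩ := hcon y
    refine ⟨n, ?_⟩
    have h1 : A.U (y + n • A.one) A.one = (m + n * n) • A.one := by
      rw [U_add_one, jp_zsmul_one, e2, hmn, U_zsmul_one, U_one', Module.End.one_apply, smul_neg,
        add_smul]
      abel
    refine sq_eq_neg_one h3 hdiv ⟨?_, ?_, ?_⟩ h1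
    · intro h
      have hy : y = -(n • A.one) := eq_neg_of_add_eq_zero_left h
      rcases hprime n A.one with h | h | h <;> rw [h] at hy
      · exact y0 (by rw [hy, neg_zero])
      · exact y2 hy
      · exact y1 (by rw [hy, neg_neg])
    · intro h
      have hy : y = A.one - n • A.one := eq_sub_of_add_eq h
      rcases hprime n A.one with h | h | h <;> rw [h] at hy
      · exact y1 (by rw [hy, sub_zero])
      · exact y0 (by rw [hy, sub_self])
      · exact y2 (by rw [hy, sub_neg_eq_add, e2])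
    · intro h
      have hy : y = -A.one - n • A.one := eq_sub_of_add_eq h
      rcases hprime n A.one with h | h | h <;> rw [h] at hy
      · exact y2 (by rw [hy, sub_zero])
      · exact y1 (by rw [hy, ← neg_add', e2, neg_neg])
      · exact y0 (by rw [hy, sub_self])
  obtain ⟨y0, hy0⟩ := hbig {0, A.one, -A.one} (Finset.card_le_three.trans (by norm_num))
  simp only [Finset.mem_insert, Finset.mem_singleton, not_or] at hy0
  obtain ⟨n0, hx⟩ := hnorm y0 hy0.1 hy0.2.1 hy0.2.2
  set x := y0 + n0 • A.one with hxdef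
  -- `x` is not in the prime field
  have hx1 : ∀ k : ℤ, x ≠ k • A.one := by
    intro k hk
    have h4 : A.U x A.one = (k * k) • A.one := by
      rw [hk, U_zsmul_one, U_one', Module.End.one_apply]
    have h5 : A.U x A.one = A.one ∨ A.U x A.one = 0 := by
      rcases hprime k A.one with h | h | h
      · right; rw [hk, h, U_zero]; rfl
      · left; rw [hk, h, U_one']; rfl
      · left; rw [hk, h, U_neg, U_one']; rfl
    rcases h5 with h | h
    · rw [hx] at h
      have : A.one + A.one + A.one = 0 := h3 _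
      rw [e2, h, e2] at this
      have h7 : -A.one = 0 := by
        rw [← this, h]
      exact hdiv.1 (neg_eq_zero.1 h7)
    · rw [hx] at h
      exact hdiv.1 (neg_eq_zero.1 h)
  clear_value x
  -- an element outside the span of `1, x`
  have hS : ∃ y, y ∉ S1 A x := by
    obtain ⟨y, hy⟩ := hbig ((({0, A.one, -A.one} : Finset J) ×ˢ ({0, x, -x} : Finset J)).image
      fun t => t.1 + t.2) (Finset.card_image_le.trans (by
        rw [Finset.card_product]
        exact Nat.mul_le_mul Finset.card_le_three Finset.card_le_three))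
    refine ⟨y, ?_⟩
    rintro ⟨m, n, rfl⟩
    apply hy
    rw [Finset.mem_image]
    refine ⟨(m • A.one, n • x), ?_, rfl⟩
    rw [Finset.mem_product]
    simp only [Finset.mem_insert, Finset.mem_singleton]
    exact ⟨hprime m A.one, hprime n x⟩
  obtain ⟨y1, hy1⟩ := hS
  obtain ⟨n1, hy⟩ := hnorm y1 (fun h => hy1 (h ▸ S1_zero)) (fun h => hy1 (h ▸ S1_one))
    (fun h => hy1 (h ▸ S1_neg S1_one))
  set y := y1 + n1 • A.one with hydef
  have hyS : y ∉ S1 A x := by
    intro h
    apply hy1
    have : y1 = y - n1 • A.one := by rw [hydef]; abel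
    rw [this]
    exact S1_sub h (S1_zsmul _ S1_one)
  clear_value y
  -- `x ∘ y` is in the prime field
  have hxy : ∃ c : ℤ, A.jp x y = c • A.one := by
    obtain ⟨m, n, h1⟩ := hcon (x + y)
    obtain ⟨m', n', h2⟩ := hcon (x + -y)
    rw [U_add_one, hx, hy, e2, neg_neg] at h1
    rw [U_add_one, hx, U_neg, hy, e2, neg_neg, show A.jp x (-y) = -A.jp x y by
      rw [← tr_one_mid, tr_neg_right]; rfl] at h2
    have h4 : A.jp x y = (m - 1) • A.one + n • (x + y) := by
      have : A.jp x y = A.one + A.jp x y - A.one := by abel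
      rw [this, h1, sub_smul, one_smul]; abel
    have h5 : A.jp x y = (1 - m') • A.one - n' • (x + -y) := by
      have : A.jp x y = A.one - (A.one + -A.jp x y) := by abel
      rw [this, h2, sub_smul, one_smul]; abel
    have h6 : (n - n') • y = (1 - m' - (m - 1)) • A.one + (-n' - n) • x := by
      have h7 := h4.symm.trans h5
      have h8 : (n - n') • y = ((m - 1) • A.one + n • (x + y)) - (m - 1) • A.one - n • x -
        n' • y := by
        rw [smul_add, sub_smul]; abel
      rw [h8, h7, smul_add, smul_neg, sub_smul (1 - m'), sub_smul (-n'), neg_smul]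
      abel
    have h7 : (n - n') • y = 0 ∧ (3 : ℤ) ∣ n - n' := by
      rcases zs3 h3 (n - n') y with h | h | h
      · exact h
      · exfalso; apply hyS; rw [← h, h6]; exact ⟨_, _, rfl⟩
      · exfalso; apply hyS
        have : y = -(-y) := (neg_neg y).symm
        rw [this, ← h, h6]; exact S1_neg ⟨_, _, rfl⟩
    have h8 : (3 : ℤ) ∣ -n' - n := by
      rw [h7.1] at h6
      have h9 : (-n' - n) • x = (-(1 - m' - (m - 1))) • A.one := by
        rw [neg_smul]; exact eq_neg_of_add_eq_zero_right h6.symm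
      rcases zs3 h3 (-n' - n) x with h | h | h
      · exact h.2
      · exact absurd (h.symm.trans h9) (hx1 _)
      · exfalso
        apply hx1 (1 - m' - (m - 1))
        have h10 := h.symm.trans h9
        rw [neg_smul] at h10
        exact neg_injective h10
    have h9 : (3 : ℤ) ∣ n := by
      obtain ⟨a, ha⟩ := h7.2
      obtain ⟨b, hb⟩ := h8
      exact ⟨n - a + b, by linarith⟩
    refine ⟨m - 1, ?_⟩
    rw [h4]
    obtain ⟨k, rfl⟩ := h9
    rw [zs3_mul h3, add_zero]
  obtain ⟨c, hc⟩ := hxy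
  set z := y + (-c) • x with hzdef
  have hzS : z ∉ S1 A x := by
    intro h
    apply hyS
    have : y = z - (-c) • x := by rw [hzdef]; abel
    rw [this]
    exact S1_sub h (S1_zsmul _ S1_self)
  have hxz : A.jp x z = 0 := by
    rw [hzdef, jp_add_right, jp_zsmul, jp_self, hx, hc, e2, neg_neg, neg_smul, add_neg_cancel]
  have hz : A.U z A.one = -A.one := by
    have h4 : A.U z A.one = (-1 + c * c) • A.one := by
      rw [hzdef, U_add_one, U_zsmul_one, hx, hy, jp_comm, ← jp_comm, jp_zsmul, jp_comm y x, hc,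
        smul_smul, add_smul, neg_smul, one_smul, neg_mul_neg, smul_neg, neg_mul, neg_smul]
      have : -A.one + -((c * c) • A.one) + -((c * c) • A.one) =
        -A.one + -((c * c) • A.one + (c * c) • A.one) := by abel
      rw [this, e2, neg_neg]
    refine sq_eq_neg_one h3 hdiv ⟨?_, ?_, ?_⟩ h4
    · intro h; exact hzS (h ▸ S1_zero)
    · intro h; exact hzS (h ▸ S1_one)
    · intro h; exact hzS (h ▸ S1_neg S1_one)
  have hsum : A.U (x + z) A.one = A.one := by
    rw [U_add_one, hx, hz, hxz, add_zero, e2, neg_neg]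
  rcases sq_eq_one3 h3 hdiv hsum with h | h
  · apply hzS
    have : z = A.one - x := by rw [← h]; abel
    rw [this]; exact S1_sub S1_one S1_self
  · apply hzS
    have : z = -A.one - x := by rw [← h]; abel
    rw [this]; exact S1_sub (S1_neg S1_one) S1_self

namespace Card

set_option maxRecDepth 100000 in
/-- a quadratic form in three variables over `F_3` has a nontrivial zero -/
lemma exists_zero : ∀ a b c d e f : ZMod 3, ∃ i j k : ZMod 3, ¬ (i = 0 ∧ j = 0 ∧ k = 0) ∧
    i * i * a + j * j * b + k * k * c + i * j * d + i * k * e + j * k * f = 0 := by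
  decide

lemma val_dvd : ∀ i : ZMod 3, ((3 : ℕ) : ℤ) ∣ (i.val : ℤ) → i = 0 := by decide

lemma U_comb (r s t : R) (a b c : J) : A.U (r • a + s • b + t • c) =
    (r * r) • A.U a + (s * s) • A.U b + (t * t) • A.U c + (r * s) • A.P a b +
      (r * t) • A.P a c + (s * t) • A.P b c := by
  have hP : ∀ (u v : R) (x y : J), A.P (u • x) (v • y) = (u * v) • A.P x y := by
    intro u v x y
    have h1 : A.P (u • x) (v • y) = u • A.P x (v • y) := QuadraticMap.polar_smul_left _ _ _ _
    have h2 : A.P x (v • y) = v • A.P x y := QuadraticMap.polar_smul_right _ _ _ _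
    rw [h1, h2, smul_smul]
  rw [U_add', U_add', P_add_left, hP, hP, hP, QuadraticMap.map_smul, QuadraticMap.map_smul,
    QuadraticMap.map_smul]
  abel

end Card

/-- BLOCK CARD (iv). Proof: `K` maximal containing `1, y` of (iii): `|K| ≥ 27`. If `K = J` done.
Otherwise if `|J| ≤ 81` then `|K| = 27`, `|J/K| = 3`, `U a` (`a ∈ K` nonzero) acts on `J/K` by
`q(a) = ±1`, and `q(a+b) - q(a) - q(b)` is biadditive: a quadratic form on `F_3^3` without zeros;
contradiction (for independent `a,b,c`, it has a nontrivial zero, finite check). -/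
theorem card3 (h3 : ∀ a : J, a + a + a = 0) (hdiv : A.IsDivision) (hbig : Big J 9) :
    A.IsCK Set.univ ∨ Big J 81 := by
  classical
  by_contra hcon
  push Not at hcon
  obtain ⟨hnc, hnb⟩ := hcon
  obtain ⟨hfin, hcard⟩ := not_big_iff.1 hnb
  obtain ⟨y, hy⟩ := exists_cubic3 h3 hdiv hbig
  obtain ⟨K, hK, hS, -⟩ := exists_isCK hdiv (S0 := {A.one, y}) (by simp) (isCom_pair y)
  have h1K : A.one ∈ K := hS (by simp)
  have hyK : y ∈ K := hS (by simp)
  have hy2K : A.U y A.one ∈ K := hK.U_mem hdiv hyK h1K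
  have hne : ∃ x, x ∉ K := by
    by_contra hx
    push Not at hx
    exact hnc ((Set.eq_univ_of_forall hx) ▸ hK)
  obtain ⟨x, hx⟩ := hne
  -- independence of `1, y, y²`
  have hind0 : ∀ i j k : ℤ, i • A.one + j • y + k • A.U y A.one = 0 →
      ((3 : ℕ) : ℤ) ∣ i ∧ ((3 : ℕ) : ℤ) ∣ j ∧ ((3 : ℕ) : ℤ) ∣ k := by
    intro i j k e
    have hk : k • A.U y A.one = 0 ∧ (3 : ℤ) ∣ k := by
      rcases zs3 h3 k (A.U y A.one) with h | h | h
      · exact h
      · exfalso
        apply hy (-i) (-j)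
        rw [h] at e
        rw [eq_neg_of_add_eq_zero_right e, neg_smul, neg_smul]; abel
      · exfalso
        apply hy i j
        rw [h] at e
        exact (add_neg_eq_zero.1 e).symm
    rw [hk.1, add_zero] at e
    have hyne : y ≠ 0 ∧ y ≠ A.one ∧ y ≠ -A.one := by
      refine ⟨?_, ?_, ?_⟩
      · intro h; apply hy 0 0; rw [h, U_zero, zero_smul, zero_smul, add_zero]; rfl
      · intro h; apply hy 1 0; rw [h, U_one', one_smul, zero_smul, add_zero]; rfl
      · intro h; apply hy 1 0; rw [h, U_neg, U_one', one_smul, zero_smul, add_zero]; rfl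
    have hj : j • y = 0 ∧ (3 : ℤ) ∣ j := by
      have hi := zs3 h3 i A.one
      rcases zs3 h3 j y with h | h | h
      · exact h
      · exfalso
        rw [h] at e
        rcases hi with ⟨h', -⟩ | h' | h' <;> rw [h'] at e
        · exact hyne.1 (by rwa [zero_add] at e)
        · exact hyne.2.2 (eq_neg_of_add_eq_zero_right e)
        · exact hyne.2.1 (by rwa [neg_add_eq_zero, eq_comm] at e)
      · exfalso
        rw [h] at e
        rcases hi with ⟨h', -⟩ | h' | h' <;> rw [h'] at e
        · exact hyne.1 (by rwa [zero_add, neg_eq_zero] at e)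
        · exact hyne.2.1 (add_neg_eq_zero.1 e).symm
        · exact hyne.2.2 (by
            have := eq_neg_of_add_eq_zero_right e
            rw [neg_neg] at this
            rw [← this, neg_neg])
    rw [hj.1, add_zero] at e
    have hi : (3 : ℤ) ∣ i := by
      rcases zs3 h3 i A.one with h | h | h
      · exact h.2
      · rw [h] at e; exact absurd e hdiv.1
      · rw [h] at e; exact absurd (neg_eq_zero.1 e) hdiv.1
    exact ⟨hi, hj.2, hk.2⟩
  have hind := card_ge (K' := sub hK) h1K hyK hy2K hind0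
  have hidx : Nat.card (J ⧸ sub hK) ≤ 3 := index_le hind hcard (by norm_num)
  set q := QuotientAddGroup.mk' (sub hK) with hq
  have hq0 : ∀ z, q z = 0 ↔ z ∈ K := fun z => QuotientAddGroup.eq_zero_iff z
  have hq3 : ∀ z, q z + q z + q z = 0 := fun z => by rw [← map_add, ← map_add, h3, map_zero]
  have hx0 : q x ≠ 0 := fun h0 => hx ((hq0 x).1 h0)
  have hxx : q x ≠ -q x := by
    intro h
    apply hx0
    have h5 := hq3 x
    nth_rewrite 1 [h] at h5
    rwa [neg_add_cancel, zero_add] at h5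
  have hcard3 : Nat.card (J ⧸ sub hK) = 3 := by
    apply le_antisymm hidx
    have := Fintype.ofFinite (J ⧸ sub hK)
    have h5 : ({0, q x, -q x} : Finset (J ⧸ sub hK)).card = 3 := by
      rw [Finset.card_insert_of_notMem (by
        simp only [Finset.mem_insert, Finset.mem_singleton, not_or]
        exact ⟨Ne.symm hx0, fun h => hx0 (neg_eq_zero.1 h.symm)⟩),
        Finset.card_insert_of_notMem (by simpa using hxx), Finset.card_singleton]
    have h6 := Finset.card_le_univ ({0, q x, -q x} : Finset (J ⧸ sub hK))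
    rw [h5, ← Nat.card_eq_fintype_card] at h6
    exact h6
  have : Fact (Nat.Prime 3) := ⟨by norm_num⟩
  let θ : (J ⧸ sub hK) ≃+ ZMod 3 := addEquivOfPrimeCardEq (p := 3) hcard3 (by simp)
  let F : J →+ ZMod 3 := θ.toAddMonoidHom.comp q
  have hF : ∀ z, F z = 0 ↔ z ∈ K := by
    intro z
    rw [← hq0 z]
    exact θ.map_eq_zero_iff
  obtain ⟨i, j, k, hijk, hz⟩ := exists_zero (F (A.U A.one x)) (F (A.U y x))
    (F (A.U (A.U y A.one) x)) (F (A.P A.one y x)) (F (A.P A.one (A.U y A.one) x))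
    (F (A.P y (A.U y A.one) x))
  set w : J := ((i.val : ℕ) : R) • A.one + ((j.val : ℕ) : R) • y +
    ((k.val : ℕ) : R) • A.U y A.one with hw
  have hwn : w = (i.val : ℤ) • A.one + (j.val : ℤ) • y + (k.val : ℤ) • A.U y A.one := by
    rw [hw]; simp only [Nat.cast_smul_eq_nsmul, natCast_zsmul]
  have hwK : w ∈ K := by
    rw [hwn]
    exact (sub hK).add_mem ((sub hK).add_mem ((sub hK).zsmul_mem h1K _)
      ((sub hK).zsmul_mem hyK _)) ((sub hK).zsmul_mem hy2K _)
  have hw0 : w ≠ 0 := by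
    intro h
    rw [hwn] at h
    obtain ⟨d1, d2, d3⟩ := hind0 _ _ _ h
    apply hijk
    exact ⟨val_dvd i d1, val_dvd j d2, val_dvd k d3⟩
  apply U_notMem hdiv hK hwK hw0 hx
  rw [← hF, hw, U_comb]
  have hs : ∀ (m n : ZMod 3) (T : Module.End R J), F (((((m.val : ℕ) : R) * ((n.val : ℕ) : R)) • T) x)
      = m * n * F (T x) := by
    intro m n T
    rw [← Nat.cast_mul, LinearMap.smul_apply, Nat.cast_smul_eq_nsmul, map_nsmul, nsmul_eq_mul,
      Nat.cast_mul, ZMod.natCast_zmod_val, ZMod.natCast_zmod_val]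
  simp only [LinearMap.add_apply, map_add, hs]
  exact hz

end Pool.Agent.Helper4.Jordan.QuadraticJordanAlgebra
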