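import Pool.Agent.Helper36.St.Inv

/-! The division Jordan algebras with 2, 3, 4, 9 elements. -/

namespace Pool.Agent.Helper4.Jordan.QuadraticJordanAlgebra

open QuadraticMap

variable {R J : Type*} [CommRing R] [AddCommGroup J] [Module R J]
  {A : QuadraticJordanAlgebra R J}

namespace SmallAux

lemma isoFq_of_hom {K : Type} [Field K] {q : ℕ} (hq : Nat.card K = q) (ψ : K →+ J)
    (hb : Function.Bijective ψ) (h1 : ψ 1 = A.one)
    (hU : ∀ a b, ψ (a ^ 2 * b) = A.U (ψ a) (ψ b)) : A.IsoFq q := by
  refine ⟨ULift K, inferInstance, AddEquiv.ulift.trans (AddEquiv.ofBijective ψ hb), ?_, ?_, ?_⟩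
  · rw [← hq]; exact Nat.card_congr Equiv.ulift
  · exact h1
  · intro a b; exact hU a.down b.down

/-- the homomorphism `ZMod p → J` with `m ↦ m x` -/
noncomputable def zhom (p : ℕ) (hp : ∀ y : J, p • y = 0) (x : J) : ZMod p →+ J :=
  ZMod.lift p ⟨zmultiplesHom J x, by simpa using hp x⟩

lemma zhom_int (p : ℕ) (hp : ∀ y : J, p • y = 0) (x : J) (m : ℤ) :
    zhom p hp x (m : ZMod p) = m • x := by
  simp [zhom]

lemma U_zsmul (m : ℤ) (y : J) : A.U (m • y) = (m * m) • A.U y := by
  rw [← Int.cast_smul_eq_zsmul R m y, QuadraticMap.map_smul, ← Int.cast_mul,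
    Int.cast_smul_eq_zsmul]

lemma P_zsmul (m n : ℤ) (y z : J) : A.P (m • y) (n • z) = (m * n) • A.P y z := by
  rw [← Int.cast_smul_eq_zsmul R m y, ← Int.cast_smul_eq_zsmul R n z]
  show polar A.U _ _ = _
  rw [QuadraticMap.polar_smul_left, QuadraticMap.polar_smul_right, smul_smul, ← Int.cast_mul,
    Int.cast_smul_eq_zsmul]
  rfl

lemma U_span (m n : ℤ) (x w : J) : A.U (m • A.one + n • x) w =
    (m * m) • w + (n * n) • A.U x w + (m * n) • A.P A.one x w := by
  rw [U_add', U_zsmul, U_zsmul, P_zsmul, U_one']
  rfl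

lemma P_one_one (x : J) : A.P A.one x A.one = x + x := by
  rw [P_apply, tr_one_left, jp_comm, jp_one]

lemma P_one_self (x : J) : A.P A.one x x = A.U x A.one + A.U x A.one := by
  rw [P_apply, tr_one_left, ← tr_one_mid, tr_self]

lemma isoFq_prime (p : ℕ) [Fact p.Prime] (hp : ∀ y : J, p • y = 0) (hone : A.one ≠ 0)
    (h : ∀ y : J, ∃ m : ℤ, y = m • A.one) : A.IsoFq p := by
  refine isoFq_of_hom (K := ZMod p) (Nat.card_zmod p) (zhom p hp A.one) ⟨?_, ?_⟩ ?_ ?_
  · refine (injective_iff_map_eq_zero _).2 fun z hz => ?_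
    by_contra hne
    obtain ⟨m, hm⟩ := ZMod.intCast_surjective z⁻¹
    obtain ⟨n, hn⟩ := ZMod.intCast_surjective z
    apply hone
    have h1 : zhom p hp A.one (((m * n : ℤ)) : ZMod p) = A.one := by
      rw [Int.cast_mul, hm, hn, inv_mul_cancel₀ hne]
      have := zhom_int p hp A.one 1
      simpa using this
    rw [zhom_int, mul_smul, ← zhom_int p hp A.one n, hn, hz, smul_zero] at h1
    exact h1.symm
  · intro y
    obtain ⟨m, rfl⟩ := h y
    exact ⟨m, zhom_int _ _ _ _⟩
  · have := zhom_int p hp A.one 1
    simpa using this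
  · intro a b
    obtain ⟨m, rfl⟩ := ZMod.intCast_surjective a
    obtain ⟨n, rfl⟩ := ZMod.intCast_surjective b
    have e : ((m : ZMod p)) ^ 2 * (n : ZMod p) = ((m * m * n : ℤ) : ZMod p) := by
      push_cast; ring
    rw [e, zhom_int, zhom_int, zhom_int, U_zsmul, U_one', mul_smul, LinearMap.smul_apply,
      Module.End.one_apply]

lemma isoFq_quad (p : ℕ) [Fact p.Prime] (hp : ∀ y : J, p • y = 0) (hone : A.one ≠ 0)
    (a b : ℤ) (hab : ∀ r : ZMod p, r ^ 2 ≠ (a : ZMod p) + (b : ZMod p) * r) (x : J)
    (hx : ∀ m : ℤ, x ≠ m • A.one) (h1 : A.U x A.one = a • A.one + b • x)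
    (h2 : A.U x x = (a * b) • A.one + (a + b ^ 2) • x) (hf : Finite J)
    (hc : Nat.card J ≤ p ^ 2) : A.IsoFq (p ^ 2) := by
  have : Fact (∀ r : ZMod p, r ^ 2 ≠ (a : ZMod p) + (b : ZMod p) * r) := ⟨hab⟩
  have hcard : Nat.card (QuadraticAlgebra (ZMod p) (a : ZMod p) (b : ZMod p)) = p ^ 2 := by
    rw [Nat.card_congr (QuadraticAlgebra.equivProd (a : ZMod p) (b : ZMod p)), Nat.card_prod,
      Nat.card_zmod, ← pow_two]
  let ψ : QuadraticAlgebra (ZMod p) (a : ZMod p) (b : ZMod p) →+ J :=
    { toFun := fun z => zhom p hp A.one z.re + zhom p hp x z.im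
      map_zero' := by simp
      map_add' := fun z w => by
        rw [QuadraticAlgebra.re_add, QuadraticAlgebra.im_add, map_add, map_add]; abel }
  have hψ : ∀ m n : ℤ, ψ ⟨(m : ZMod p), (n : ZMod p)⟩ = m • A.one + n • x := by
    intro m n
    show zhom p hp A.one (m : ZMod p) + zhom p hp x (n : ZMod p) = _
    rw [zhom_int, zhom_int]
  have hsurj : ∀ z : QuadraticAlgebra (ZMod p) (a : ZMod p) (b : ZMod p), ∃ m n : ℤ,
      z = ⟨(m : ZMod p), (n : ZMod p)⟩ := by
    rintro ⟨z, w⟩
    obtain ⟨m, rfl⟩ := ZMod.intCast_surjective z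
    obtain ⟨n, rfl⟩ := ZMod.intCast_surjective w
    exact ⟨m, n, rfl⟩
  have hone' : ∀ m : ℤ, m • A.one = 0 → (m : ZMod p) = 0 := by
    intro m hm
    by_contra hne
    obtain ⟨k, hk⟩ := ZMod.intCast_surjective ((m : ZMod p)⁻¹)
    apply hone
    have h1 : zhom p hp A.one (((k * m : ℤ)) : ZMod p) = A.one := by
      rw [Int.cast_mul, hk, inv_mul_cancel₀ hne]
      have := zhom_int p hp A.one 1
      simpa using this
    rw [zhom_int, mul_smul, hm, smul_zero] at h1
    exact h1.symm
  have hinj : Function.Injective ψ := by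
    refine (injective_iff_map_eq_zero _).2 fun z hz => ?_
    obtain ⟨m, n, rfl⟩ := hsurj z
    rw [hψ] at hz
    have hn : (n : ZMod p) = 0 := by
      by_contra hne
      obtain ⟨k, hk⟩ := ZMod.intCast_surjective ((n : ZMod p)⁻¹)
      have h1 : zhom p hp x (((k * n : ℤ)) : ZMod p) = x := by
        rw [Int.cast_mul, hk, inv_mul_cancel₀ hne]
        have := zhom_int p hp x 1
        simpa using this
      rw [zhom_int, mul_smul] at h1
      have h3 : n • x = -(m • A.one) := by rw [eq_neg_iff_add_eq_zero, add_comm]; exact hz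
      rw [h3] at h1
      apply hx (-(k * m))
      rw [← h1, neg_smul, mul_smul, smul_neg]
    have h0 : n • x = 0 := by
      rw [← zhom_int p hp x n, hn, map_zero]
    rw [h0, add_zero] at hz
    rw [hone' m hz, hn]
    rfl
  have hbij : Function.Bijective ψ := by
    have := hf
    refine hinj.bijective_of_nat_card_le ?_
    rw [hcard]; exact hc
  refine isoFq_of_hom hcard ψ hbij ?_ ?_
  · have := hψ 1 0
    rw [one_smul, zero_smul, add_zero, Int.cast_one, Int.cast_zero] at this
    exact this
  · intro z w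
    obtain ⟨m, n, rfl⟩ := hsurj z
    obtain ⟨s, t, rfl⟩ := hsurj w
    have e : (⟨(m : ZMod p), (n : ZMod p)⟩ :
        QuadraticAlgebra (ZMod p) (a : ZMod p) (b : ZMod p)) ^ 2 *
        ⟨(s : ZMod p), (t : ZMod p)⟩ =
        ⟨(((m * m + a * (n * n)) * s + a * ((2 * m * n + b * (n * n)) * t) : ℤ) : ZMod p),
          (((m * m + a * (n * n)) * t + (2 * m * n + b * (n * n)) * s +
            b * ((2 * m * n + b * (n * n)) * t) : ℤ) : ZMod p)⟩ := by
      ext
      · simp [pow_two]; ring
      · simp [pow_two]; ring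
    rw [e, hψ, hψ, hψ, map_add, map_zsmul, map_zsmul, U_span, U_span, P_one_one, P_one_self,
      h1, h2]
    module

end SmallAux

open SmallAux

/-- BLOCK SMALL (i). `|J| ≤ 4`, characteristic 2: `|J| = 2` or `4`. `|J| = 4`: `J = {0,1,ω,ω+1}`,
`ω⁻¹ = ω + 1` (`x² = 1 ⇒ x = 1`), so `U ω (ω+1) = ω`, `U ω 1 ≠ 1`, so `U ω 1 = ω+1`, `U ω ω = 1`;
compare with the field with 4 elements (`ULift (GaloisField 2 2)` or an explicit model). -/
theorem small2 (h2 : ∀ a : J, a + a = 0) (hdiv : A.IsDivision) (h : ¬ Big J 4) :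
    A.IsoFq 2 ∨ A.IsoFq 4 := by
  obtain ⟨hf, hc⟩ := not_big_iff.1 h
  have hp : ∀ y : J, 2 • y = 0 := fun y => by rw [two_smul, h2]
  by_cases hall : ∀ y : J, ∃ m : ℤ, y = m • A.one
  · exact Or.inl (isoFq_prime 2 hp hdiv.1 hall)
  · right
    push Not at hall
    obtain ⟨x, hx⟩ := hall
    have hx0 : x ≠ 0 := by simpa using hx 0
    have hx1 : x ≠ A.one := by simpa using hx 1
    have hone := hdiv.1
    have hxx1 : x + A.one ≠ 0 := by
      intro h0
      apply hx1
      have := h2 A.one
      exact add_right_cancel (h0.trans this.symm)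
    -- the four elements
    have hinj : Function.Injective ![0, A.one, x, x + A.one] := by
      intro i j hij
      fin_cases i <;> fin_cases j <;> simp at hij ⊢ <;> first
        | exact hone hij | exact hone hij.symm | exact hx0 hij | exact hx0 hij.symm
        | exact hx1 hij | exact hx1 hij.symm | exact hxx1 hij | exact hxx1 hij.symm
    have hbij : Function.Bijective ![0, A.one, x, x + A.one] := by
      have := hf
      refine hinj.bijective_of_nat_card_le ?_
      simpa using hc
    have hcases : ∀ y : J, y = 0 ∨ y = A.one ∨ y = x ∨ y = x + A.one := by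
      intro y
      obtain ⟨i, hi⟩ := hbij.2 y
      fin_cases i <;> simp at hi <;> simp [← hi]
    have hsq : ∀ y : J, A.U y A.one = A.one → y = A.one := by
      intro y hy
      have h3 : A.U (y + A.one) A.one = 0 := by
        rw [U_add', LinearMap.add_apply, LinearMap.add_apply, hy, U_one', Module.End.one_apply,
          P_comm, P_one_one, h2, h2, add_zero]
      have h4 : y + A.one = 0 := eq_zero_of_U hdiv hone h3
      exact add_right_cancel (h4.trans (h2 A.one).symm)
    have hinv : A.inv x = x + A.one := by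
      rcases hcases (A.inv x) with h3 | h3 | h3 | h3
      · exact absurd h3 (inv_ne hdiv hx0)
      · exfalso
        apply hx1
        rw [← inv_inv' hdiv hx0, h3, inv_one' hdiv]
      · exfalso
        have h5 := U_inv hdiv hx0
        rw [h3] at h5
        have h6 : A.U (A.U x A.one) = 1 := by
          rw [A.QJ3, U_one', mul_one]
          have := (U_inv_mul_cancel hdiv hx0).1
          rwa [h3] at this
        have h7 := hsq (A.U x A.one) (by rw [h6]; rfl)
        exact hx1 (hsq x h7)
      · exact h3
    have hU1 : A.U x (x + A.one) = x := by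
      have := U_inv hdiv hx0
      rwa [hinv] at this
    have hU2 : A.U x A.one = x + A.one := by
      rcases hcases (A.U x A.one) with h3 | h3 | h3 | h3
      · exact absurd h3 (U_ne hdiv hx0 hone)
      · exact absurd (hsq x h3) hx1
      · exfalso
        have := U_inj hdiv hx0 (hU1.trans h3.symm)
        apply hx0
        have h5 : x + A.one = 0 + A.one := by rw [this, zero_add]
        exact add_right_cancel h5
      · exact h3
    have hU3 : A.U x x = A.one := by
      rw [map_add, hU2] at hU1
      have h5 : A.U x x = x + (x + A.one) := by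
        have h6 := congrArg (fun y => y + (x + A.one)) hU1
        simp only [add_assoc] at h6
        have h7 : x + (A.one + (x + A.one)) = 0 := by
          have : x + (A.one + (x + A.one)) = (x + A.one) + (x + A.one) := by abel
          rw [this, h2]
        rw [h7, add_zero] at h6
        exact h6
      rw [h5, ← add_assoc, h2, zero_add]
    refine isoFq_quad 2 hp hone 1 1 (by decide) x hx ?_ ?_ hf (by simpa using hc)
    · rw [hU2]; module
    · rw [hU3]
      have : ((1 : ℤ) + 1 ^ 2) • x = x + x := by module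
      rw [this, h2, add_zero]; module

lemma SmallAux.sq_eq_one3' (h3 : ∀ a : J, a + a + a = 0) (hdiv : A.IsDivision) {y : J}
    (hy : A.U y A.one = A.one) : y = A.one ∨ y = -A.one := by
  have h4 : A.U y y = y := by
    have h5 : A.V y (A.U y A.one) = A.U y (A.V y A.one) := by
      have := LinearMap.congr_fun (V2_mul_U (A := A) y A.one) A.one
      rw [V2_one_right, V2_one_left] at this
      exact this
    rw [hy, V_apply, jp_one, map_add] at h5
    have h6 := h3 y
    have h7 := h3 (A.U y y)
    have e1 : y = -(y + y) := by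
      rw [eq_neg_iff_add_eq_zero, ← add_assoc]; exact h6
    have e2 : A.U y y = -(A.U y y + A.U y y) := by
      rw [eq_neg_iff_add_eq_zero, ← add_assoc]; exact h7
    rw [e2, ← h5, ← e1]
  by_cases h5 : y = A.one
  · exact Or.inl h5
  · right
    have h6 : y + -A.one ≠ 0 := by
      intro h7
      exact h5 (by rw [add_neg_eq_zero] at h7; exact h7)
    have h8 : A.U (y + -A.one) (y + A.one) = 0 := by
      rw [U_add', U_neg, U_one', P_neg_right, P_comm]
      simp only [LinearMap.add_apply, LinearMap.neg_apply, Module.End.one_apply, map_add, h4, hy,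
        P_one_self, P_one_one]
      abel
    have h9 : y + A.one = 0 := by
      by_contra hne
      exact U_ne hdiv h6 hne h8
    exact eq_neg_of_add_eq_zero_left h9

/-- BLOCK SMALL (ii). `|J| ≤ 9`, characteristic 3: `|J| = 3` or `9`. `|J| = 9`: there is
`x ∉ F_3 1` with `x² = -1` (complete the square; `x² = 1 ⇒ x = ±1`, see `sq_eq_one3` in Card for the
proof), `V x 1 = 2x`, `V x x = 2 x²`, `U x x = -x` (`V_mul_U` applied to 1), which determines `U`. -/
theorem small3 (h3 : ∀ a : J, a + a + a = 0) (hdiv : A.IsDivision) (h : ¬ Big J 9) :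
    A.IsoFq 3 ∨ A.IsoFq 9 := by
  obtain ⟨hf, hc⟩ := not_big_iff.1 h
  have hp : ∀ y : J, 3 • y = 0 := fun y => by
    rw [← h3 y]; module
  have hp' : ∀ y : J, (3 : ℤ) • y = 0 := fun y => by
    rw [← h3 y]; module
  by_cases hall : ∀ y : J, ∃ m : ℤ, y = m • A.one
  · exact Or.inl (isoFq_prime 3 hp hdiv.1 hall)
  · right
    push Not at hall
    obtain ⟨y, hy⟩ := hall
    have hone := hdiv.1
    -- every element is an integer combination of `1` and `y`
    have hmod : ∀ (m : ℤ) (z : J), m • z = (m % 3) • z := by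
      intro m z
      conv_lhs => rw [← Int.emod_add_mul_ediv m 3, add_smul, mul_smul, hp', add_zero]
    have hspan : ∀ z : J, ∃ m n : ℤ, z = m • A.one + n • y := by
      let f : ZMod 3 × ZMod 3 → J := fun q => zhom 3 hp A.one q.1 + zhom 3 hp y q.2
      have hadd : ∀ q r, f (q - r) = f q - f r := by
        intro q r
        simp only [f, Prod.fst_sub, Prod.snd_sub, map_sub]; abel
      have hinj : Function.Injective f := by
        intro q r hqr
        rw [← sub_eq_zero]
        have h0 : f (q - r) = 0 := by rw [hadd, hqr, sub_self]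
        generalize q - r = s at h0
        obtain ⟨s1, s2⟩ := s
        obtain ⟨m, rfl⟩ := ZMod.intCast_surjective s1
        obtain ⟨n, rfl⟩ := ZMod.intCast_surjective s2
        simp only [f, zhom_int] at h0
        have hn : (n : ZMod 3) = 0 := by
          by_contra hne
          obtain ⟨k, hk⟩ := ZMod.intCast_surjective ((n : ZMod 3)⁻¹)
          have h1 : zhom 3 hp y (((k * n : ℤ)) : ZMod 3) = y := by
            rw [Int.cast_mul, hk, inv_mul_cancel₀ hne]
            have := zhom_int 3 hp y 1
            simpa using this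
          rw [zhom_int, mul_smul] at h1
          have h3 : n • y = -(m • A.one) := by rw [eq_neg_iff_add_eq_zero, add_comm]; exact h0
          rw [h3] at h1
          apply hy (-(k * m))
          rw [← h1, neg_smul, mul_smul, smul_neg]
        have h5 : n • y = 0 := by rw [← zhom_int 3 hp y n, hn, map_zero]
        rw [h5, add_zero] at h0
        have hm : (m : ZMod 3) = 0 := by
          by_contra hne
          obtain ⟨k, hk⟩ := ZMod.intCast_surjective ((m : ZMod 3)⁻¹)
          apply hone
          have h1 : zhom 3 hp A.one (((k * m : ℤ)) : ZMod 3) = A.one := by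
            rw [Int.cast_mul, hk, inv_mul_cancel₀ hne]
            have := zhom_int 3 hp A.one 1
            simpa using this
          rw [zhom_int, mul_smul, h0, smul_zero] at h1
          exact h1.symm
        rw [hm, hn]; rfl
      have hbij : Function.Bijective f := by
        have := hf
        refine hinj.bijective_of_nat_card_le ?_
        rw [Nat.card_prod, Nat.card_zmod]
        exact hc
      intro z
      obtain ⟨⟨s1, s2⟩, rfl⟩ := hbij.2 z
      obtain ⟨m, rfl⟩ := ZMod.intCast_surjective s1
      obtain ⟨n, rfl⟩ := ZMod.intCast_surjective s2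
      exact ⟨m, n, by simp only [f, zhom_int]⟩
    -- complete the square
    obtain ⟨c, b, hcb⟩ := hspan (A.U y A.one)
    obtain ⟨x, hxdef⟩ : ∃ x, x = b • A.one + y := ⟨_, rfl⟩
    have hx : ∀ m : ℤ, x ≠ m • A.one := by
      intro m hm
      apply hy (m - b)
      rw [sub_smul, ← hm, hxdef]; abel
    have hx2 : A.U x A.one = (c + b * b) • A.one := by
      have h5 := U_span (A := A) b 1 y A.one
      rw [one_smul] at h5
      rw [hxdef, h5, P_one_one, hcb]
      have h6 : (b * b) • A.one + ((1 : ℤ) * 1) • (c • A.one + b • y) + (b * 1) • (y + y) =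
        (c + b * b) • A.one + (3 : ℤ) • (b • y) := by module
      rw [h6, hp', add_zero]
    have hx0 : x ≠ 0 := by
      intro h5
      exact hx 0 (by rw [h5, zero_smul])
    have hx3 : A.U x A.one = -A.one := by
      rw [hmod] at hx2
      have h5 : 0 ≤ (c + b * b) % 3 := Int.emod_nonneg _ (by norm_num)
      have h6 : (c + b * b) % 3 < 3 := Int.emod_lt_of_pos _ (by norm_num)
      obtain h7 | h7 | h7 : (c + b * b) % 3 = 0 ∨ (c + b * b) % 3 = 1 ∨ (c + b * b) % 3 = 2 := by
        omega
      · rw [h7, zero_smul] at hx2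
        exact absurd hx2 (U_ne hdiv hx0 hone)
      · rw [h7, one_smul] at hx2
        rcases SmallAux.sq_eq_one3' h3 hdiv hx2 with h8 | h8
        · exact absurd (by rw [h8, one_smul]) (hx 1)
        · exact absurd (by rw [h8]; module) (hx (-1))
      · rw [hx2, h7, two_smul, eq_neg_iff_add_eq_zero, h3]
    have hx4 : A.U x x = -x := by
      have h5 : A.V x (A.U x A.one) = A.U x (A.V x A.one) := by
        have := LinearMap.congr_fun (V2_mul_U (A := A) x A.one) A.one
        rw [V2_one_right, V2_one_left] at this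
        exact this
      rw [hx3, map_neg, V_apply, jp_one, map_add] at h5
      have h7 := h3 (A.U x x)
      have e2 : A.U x x = -(A.U x x + A.U x x) := by
        rw [eq_neg_iff_add_eq_zero, ← add_assoc]; exact h7
      have h6 := h3 x
      have e1 : x = -(x + x) := by
        rw [eq_neg_iff_add_eq_zero, ← add_assoc]; exact h6
      rw [e2, ← h5, ← e1]
    refine isoFq_quad 3 hp hone (-1) 0 (by decide) x hx ?_ ?_ hf (by simpa using hc)
    · rw [hx3]; module
    · rw [hx4]; module

end Pool.Agent.Helper4.Jordan.QuadraticJordanAlgebra
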