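import Pool.Agent.Helper36.St.Lines3
import Pool.Agent.Helper36.St.Small

/-! Small algebras are commutative, characteristic 3. -/

namespace Pool.Agent.Helper4.Jordan.QuadraticJordanAlgebra

open QuadraticMap

variable {R J : Type*} [CommRing R] [AddCommGroup J] [Module R J]
  {A : QuadraticJordanAlgebra R J}

namespace Card3

/-- A ternary quadratic form over the field with three elements has a nontrivial zero. -/
lemma exists_zero : ∀ q1 q2 q3 b12 b13 b23 : ZMod 3, ∃ m1 m2 m3 : ZMod 3,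
    ¬ (m1 = 0 ∧ m2 = 0 ∧ m3 = 0) ∧
    m1 * m1 * q1 + m2 * m2 * q2 + m3 * m3 * q3 + m1 * m2 * b12 + m1 * m3 * b13 +
      m2 * m3 * b23 = 0 := by
  decide +kernel

lemma zsmul_mod (h3 : ∀ a : J, a + a + a = 0) {m : ℤ} (hm : (m : ZMod 3) = 0) (x : J) :
    m • x = 0 := by
  rw [ZMod.intCast_zmod_eq_zero_iff_dvd] at hm
  obtain ⟨k, rfl⟩ := hm
  have h : (3 : ℤ) • x = 0 := by
    rw [show (3 : ℤ) = 1 + 1 + 1 by norm_num, add_smul, add_smul, one_smul, h3]
  rw [mul_comm, mul_smul]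
  have : ((3 : ℕ) : ℤ) • x = 0 := by exact_mod_cast h
  rw [this, smul_zero]

/-- if `m` is not divisible by 3 then `m • x = z` can be solved for `x` -/
lemma exists_inv (h3 : ∀ a : J, a + a + a = 0) {m : ℤ} (hm : (m : ZMod 3) ≠ 0) :
    ∃ k : ℤ, ∀ x : J, k • (m • x) = x := by
  obtain ⟨k, hk⟩ := ZMod.intCast_surjective ((m : ZMod 3)⁻¹)
  refine ⟨k, fun x => ?_⟩
  have h1 : ((k * m - 1 : ℤ) : ZMod 3) = 0 := by
    push_cast
    have : Fact (Nat.Prime 3) := ⟨Nat.prime_three⟩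
    rw [hk, inv_mul_cancel₀ hm, sub_self]
  have h2 := zsmul_mod h3 h1 x
  rw [sub_smul, one_smul, mul_smul] at h2
  exact sub_eq_zero.1 h2

/-- independence of `1, y, y²` -/
lemma indep (h3 : ∀ a : J, a + a + a = 0) (hdiv : A.IsDivision) {y : J}
    (hy : ∀ m n : ℤ, A.U y A.one ≠ m • A.one + n • y) {m1 m2 m3 : ℤ}
    (h : m1 • A.one + m2 • y + m3 • A.U y A.one = 0) :
    (m1 : ZMod 3) = 0 ∧ (m2 : ZMod 3) = 0 ∧ (m3 : ZMod 3) = 0 := by
  have c3 : (m3 : ZMod 3) = 0 := by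
    by_contra hne
    obtain ⟨k, hk⟩ := exists_inv h3 hne
    apply hy (k * -m1) (k * -m2)
    have h1 : m3 • A.U y A.one = (-m1) • A.one + (-m2) • y := by
      rw [neg_smul, neg_smul]
      rw [← sub_eq_zero]
      rw [← h]; abel
    rw [← hk (A.U y A.one), h1, smul_add, mul_smul, mul_smul]
  rw [zsmul_mod h3 c3, add_zero] at h
  have c2 : (m2 : ZMod 3) = 0 := by
    by_contra hne
    obtain ⟨k, hk⟩ := exists_inv h3 hne
    have h1 : m2 • y = (-m1) • A.one := by
      rw [neg_smul, ← sub_eq_zero, ← h]; abel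
    have h2 : y = (k * -m1) • A.one := by
      rw [← hk y, h1, mul_smul]
    apply hy ((k * -m1) * (k * -m1)) 0
    rw [zero_smul, add_zero]
    conv_lhs => rw [h2]
    rw [SmallAux.U_zsmul, U_one']
    rfl
  rw [zsmul_mod h3 c2, add_zero] at h
  refine ⟨?_, c2, c3⟩
  by_contra hne
  obtain ⟨k, hk⟩ := exists_inv h3 hne
  apply hdiv.1
  rw [← hk A.one, h, smul_zero]

/-- values of the quadratic map -/
lemma U_comb (m1 m2 m3 : ℤ) (a b c x : J) : A.U (m1 • a + m2 • b + m3 • c) x =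
    (m1 * m1) • A.U a x + (m2 * m2) • A.U b x + (m3 * m3) • A.U c x +
      (m1 * m2) • A.P a b x + (m1 * m3) • A.P a c x + (m2 * m3) • A.P b c x := by
  rw [U_add', U_add', P_add_left, SmallAux.U_zsmul, SmallAux.U_zsmul, SmallAux.U_zsmul,
    SmallAux.P_zsmul, SmallAux.P_zsmul, SmallAux.P_zsmul]
  simp only [LinearMap.add_apply, LinearMap.smul_apply]
  abel

end Card3

/-- BLOCK CARD (iv), from (iii). -/
theorem card3_of_cubic (h3 : ∀ a : J, a + a + a = 0) (hdiv : A.IsDivision)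
    (hc : ∃ y : J, ∀ m n : ℤ, A.U y A.one ≠ m • A.one + n • y) :
    A.IsCK Set.univ ∨ Big J 81 := by
  classical
  by_contra hcon
  push Not at hcon
  obtain ⟨hK1, hB⟩ := hcon
  obtain ⟨hfin, hcard⟩ := not_big_iff.1 hB
  obtain ⟨y, hy⟩ := hc
  obtain ⟨K, hK, hsub, -⟩ := exists_isCK hdiv (S0 := {A.one, y}) (Or.inl rfl) (isCom_pair y)
  have hyK : y ∈ K := hsub (Or.inr rfl)
  set e := A.U y A.one with he
  have heK : e ∈ K := hK.U_mem hdiv hyK hK.one
  have hKne : K ≠ Set.univ := fun h => hK1 (h ▸ hK)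
  let S : AddSubgroup J :=
    { carrier := K
      add_mem' := fun {a b} ha hb => hK.add a ha b hb
      zero_mem' := hK.zero_mem
      neg_mem' := fun {a} ha => hK.neg a ha }
  have hS : ∀ t, t ∈ S ↔ t ∈ K := fun t => Iff.rfl
  have hcomb : ∀ m1 m2 m3 : ℤ, m1 • A.one + m2 • y + m3 • e ∈ S := fun m1 m2 m3 =>
    S.add_mem (S.add_mem (S.zsmul_mem hK.one _) (S.zsmul_mem hyK _)) (S.zsmul_mem heK _)
  -- `|K| ≥ 27`
  have h27 : 27 ≤ Nat.card S := by
    have hinj : Function.Injective (fun z : ZMod 3 × ZMod 3 × ZMod 3 =>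
        (⟨(z.1.val : ℤ) • A.one + (z.2.1.val : ℤ) • y + (z.2.2.val : ℤ) • e,
          hcomb _ _ _⟩ : S)) := by
      rintro ⟨a, b, c⟩ ⟨a', b', c'⟩ h
      have h1 := congrArg Subtype.val h
      simp only at h1
      have h2 : ((a.val : ℤ) - a'.val) • A.one + ((b.val : ℤ) - b'.val) • y +
          ((c.val : ℤ) - c'.val) • e = 0 := by
        rw [sub_smul, sub_smul, sub_smul]
        rw [← sub_eq_zero] at h1
        rw [← h1]; abel
      obtain ⟨i1, i2, i3⟩ := Card3.indep h3 hdiv hy h2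
      push_cast at i1 i2 i3
      rw [ZMod.natCast_zmod_val, ZMod.natCast_zmod_val, sub_eq_zero] at i1 i2 i3
      rw [i1, i2, i3]
    have h2 := Nat.card_le_card_of_injective _ hinj
    have h3 : Nat.card (ZMod 3 × ZMod 3 × ZMod 3) = 27 := by
      rw [Nat.card_prod, Nat.card_prod, Nat.card_zmod]
    rwa [h3] at h2
  have hmul := AddSubgroup.card_mul_index S
  have hidx : S.index = Nat.card (J ⧸ S) := rfl
  have hq3 : ∀ t : J ⧸ S, (3 : ℕ) • t = 0 := by
    intro t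
    obtain ⟨t, rfl⟩ := QuotientAddGroup.mk_surjective t
    rw [← QuotientAddGroup.mk_nsmul, show (3 : ℕ) = 1 + 1 + 1 by norm_num, add_nsmul, add_nsmul,
      one_nsmul, h3]
    rfl
  have hcardq : Nat.card (J ⧸ S) = 3 := by
    have h1 : S.index ≤ 3 := by
      by_contra h
      push Not at h
      have : 27 * 4 ≤ Nat.card S * S.index := Nat.mul_le_mul h27 h
      omega
    have h0 : S.index ≠ 0 := by
      intro h
      rw [h, mul_zero] at hmul
      have : 0 < Nat.card J := Nat.card_pos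
      omega
    have h2 : S.index ≠ 1 := by
      intro h
      rw [AddSubgroup.index_eq_one] at h
      apply hKne
      ext t
      rw [← hS, h]
      simp
    have h4 : S.index ≠ 2 := by
      intro h
      apply h2
      have hz : ∀ t : J ⧸ S, t = 0 := by
        intro t
        have e1 := card_nsmul_eq_zero' (x := t)
        rw [← hidx, h] at e1
        have e2 := hq3 t
        rw [show (3 : ℕ) = 2 + 1 by norm_num, add_nsmul, e1, zero_add, one_nsmul] at e2
        exact e2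
      rw [hidx, Nat.card_eq_one_iff_unique]
      exact ⟨⟨fun a b => by rw [hz a, hz b]⟩, ⟨0⟩⟩
    omega
  have hp3 : Fact (Nat.Prime 3) := ⟨Nat.prime_three⟩
  have hcyc : IsAddCyclic (J ⧸ S) := isAddCyclic_of_prime_card hcardq
  obtain ⟨ψ⟩ : Nonempty ((J ⧸ S) ≃+ ZMod 3) := by
    have := (zmodAddCyclicAddEquiv hcyc).symm
    rw [hcardq] at this
    exact ⟨this⟩
  let φ : J →+ ZMod 3 := ψ.toAddMonoidHom.comp (QuotientAddGroup.mk' S)
  have hφ : ∀ t, φ t = 0 ↔ t ∈ K := by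
    intro t
    change ψ (QuotientAddGroup.mk' S t) = 0 ↔ _
    rw [map_eq_zero_iff ψ ψ.injective]
    exact QuotientAddGroup.eq_zero_iff t
  obtain ⟨x, hx⟩ : ∃ x, φ x = 1 := by
    obtain ⟨t, ht⟩ := ψ.surjective 1
    obtain ⟨t, rfl⟩ := QuotientAddGroup.mk_surjective t
    exact ⟨t, ht⟩
  have hne : ∀ a ∈ K, a ≠ 0 → φ (A.U a x) ≠ 0 := by
    intro a ha ha0 h
    rw [hφ] at h
    have h1 := hK.U_mem hdiv (hK.inv a ha ha0) h
    rw [U_inv_U hdiv ha0, ← hφ, hx] at h1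
    exact one_ne_zero h1
  obtain ⟨m1, m2, m3, hm, hzero⟩ := Card3.exists_zero (φ (A.U A.one x)) (φ (A.U y x))
    (φ (A.U e x)) (φ (A.P A.one y x)) (φ (A.P A.one e x)) (φ (A.P y e x))
  obtain ⟨n1, rfl⟩ := ZMod.intCast_surjective m1
  obtain ⟨n2, rfl⟩ := ZMod.intCast_surjective m2
  obtain ⟨n3, rfl⟩ := ZMod.intCast_surjective m3
  refine hne (n1 • A.one + n2 • y + n3 • e) (hcomb n1 n2 n3) (fun h => hm ?_) ?_
  · exact Card3.indep h3 hdiv hy h
  · rw [Card3.U_comb]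
    simp only [map_add, map_zsmul, zsmul_eq_mul, Int.cast_mul]
    rw [← hzero]

end Pool.Agent.Helper4.Jordan.QuadraticJordanAlgebra
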