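import Pool.Agent.Helper36.St.Inv

/-! The operator `T = U (g∘y) - 2 U g U y - 2 U y U g` satisfies `T² = U (T 1)`. -/

namespace Pool.Agent.Helper4.Jordan.QuadraticJordanAlgebra

open QuadraticMap

variable {R J : Type*} [CommRing R] [AddCommGroup J] [Module R J]
  {A : QuadraticJordanAlgebra R J}

/-- `{a a c} = a² ∘ c` -/
lemma V2_self (hdiv : A.IsDivision) (a : J) : A.V2 a a = A.V (A.U a A.one) := by
  have h1 := V_mul_V hdiv a a
  rw [V_sq hdiv, P_self] at h1
  have : A.V2 a a = (A.V2 a a + (A.U a + A.U a)) - (A.U a + A.U a) := by abel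
  rw [this, ← h1]; abel

/-- `g ∘ U_y g = {y, g∘y, g} - y² ∘ g²` -/
lemma jp_U_eq (hdiv : A.IsDivision) (g y : J) :
    A.jp g (A.U y g) = A.tr y (A.jp g y) g - A.jp (A.U y A.one) (A.U g A.one) := by
  have h := QJ2' (A := A) y g A.one g
  -- tr g 1 (U y g) + tr y 1 (tr y g g) = tr y (tr 1 y g) g + U y (tr 1 g g)
  have e1 : A.tr y g g = A.jp y (A.U g A.one) := by
    rw [tr_comm, ← V2_apply, V2_self hdiv, V_apply, jp_comm]
  have e2 : A.tr A.one g g = A.U g A.one + A.U g A.one := by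
    rw [tr_one_left, jp_def, P_self]; rfl
  have e3 : A.jp y (A.jp y (A.U g A.one)) = A.jp (A.U y A.one) (A.U g A.one) +
      A.U y (A.U g A.one) + A.U y (A.U g A.one) := by
    rw [← V_apply, ← V_apply, ← Module.End.mul_apply, V_sq hdiv]
    rw [LinearMap.add_apply, LinearMap.add_apply, V_apply]
  rw [tr_one_mid, tr_one_mid, tr_one_left, e1, e2, e3, map_add, jp_comm y g] at h
  have : A.jp g (A.U y g) = (A.jp g (A.U y g) + (A.jp (A.U y A.one) (A.U g A.one) +
      A.U y (A.U g A.one) + A.U y (A.U g A.one))) - (A.jp (A.U y A.one) (A.U g A.one) +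
      A.U y (A.U g A.one) + A.U y (A.U g A.one)) := by abel
  rw [this, h]; abel

/-- `g ∘ U_y g = y ∘ U_g y` -/
lemma jp_U_symm (hdiv : A.IsDivision) (g y : J) :
    A.jp g (A.U y g) = A.jp y (A.U g y) := by
  rw [jp_U_eq hdiv, jp_U_eq hdiv y g, tr_comm y _ g, jp_comm g y, jp_comm (A.U y A.one)]

/-- the difference `D = U (g∘y) - U g U y - U y U g` -/
private def D (A : QuadraticJordanAlgebra R J) (g y : J) : Module.End R J :=
  A.V g * A.U y * A.V g - A.P (A.U g y) y

private lemma U_jp' (g y : J) :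
    A.U (A.jp g y) = A.U g * A.U y + A.U y * A.U g + D A g y := by
  rw [U_jp, D]; abel

private lemma D_symm (g y : J) : D A g y = D A y g := by
  have h1 := U_jp' (A := A) g y
  have h2 := U_jp' (A := A) y g
  rw [jp_comm, h2, add_comm (A.U y * A.U g)] at h1
  exact (add_left_cancel h1).symm

private lemma key0 (hdiv : A.IsDivision) {g y : J} (hg : g ≠ 0) (hy : y ≠ 0) :
    A.U (A.inv g) * D A g y * A.U y + A.U y * D A g y * A.U (A.inv g) =
      A.P (A.jp (A.inv g) (A.U y g)) (A.U y A.one) := by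
  have hgi := inv_ne hdiv hg
  have hyi := inv_ne hdiv hy
  -- V part
  have v1 : A.U (A.inv g) * (A.V g * A.U y * A.V g) * A.U y =
      A.V (A.inv g) * A.P (A.U y g) (A.U y A.one) := by
    rw [P_U_U, V_inv hdiv hg, V_def]
    noncomm_ring
  have hVc : A.V g * A.U (A.inv g) = A.V (A.inv g) := by
    have h := V_mul_U (A := A) (A.inv g)
    have h2 := V_inv hdiv hgi
    rw [inv_inv' hdiv hg] at h2
    rw [h2, mul_assoc, h, ← mul_assoc, (U_inv_mul_cancel hdiv hg).2, one_mul]
  have v2 : A.U y * (A.V g * A.U y * A.V g) * A.U (A.inv g) =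
      A.P (A.U y g) (A.U y A.one) * A.V (A.inv g) := by
    rw [P_U_U, ← hVc, V_def]
    noncomm_ring
  have v3 := lieV hdiv (A.inv g) (A.U y g) (A.U y A.one)
  -- P part
  set w := A.U (A.inv g) y with hw
  have hgw : A.U g w = y := U_U_inv hdiv hg y
  have p1 : A.U (A.inv g) * A.P (A.U g y) y * A.U y = A.P y w * A.U g * A.U y := by
    have : A.P (A.U g y) y = A.U g * A.P y w * A.U g := by rw [← P_U_U, hgw]
    rw [this, ← mul_assoc, ← mul_assoc, (U_inv_mul_cancel hdiv hg).1, one_mul]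
  have p2 : A.U y * A.P (A.U g y) y * A.U (A.inv g) = A.U y * A.U g * A.P w y := by
    have : A.P (A.U g y) y = A.U g * A.P y w * A.U g := by rw [← P_U_U, hgw]
    rw [this, P_comm w y, mul_assoc, mul_assoc (A.U g * A.P y w), (U_inv_mul_cancel hdiv hg).2,
      mul_one, mul_assoc]
  have q := lieU hdiv (A.inv y) w g
  have q1 : A.U y * (A.V2 (A.inv y) w * A.U g) * A.U y = A.P y w * A.U g * A.U y := by
    rw [P_eq_mul_V2 hdiv hy]; noncomm_ring
  have q2 : A.U y * (A.U g * A.V2 w (A.inv y)) * A.U y = A.U y * A.U g * A.P w y := by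
    rw [P_eq_V2_mul hdiv hy]; noncomm_ring
  have q3 : A.U y * A.P (A.tr (A.inv y) w g) g * A.U y = A.P (A.jp (A.inv g) (A.U y A.one))
      (A.U y g) := by
    rw [← P_U_U, U_tr_inv hdiv hy]
    congr 1
    have h := tr_inv_U' hdiv hgi y y
    rw [inv_inv' hdiv hg] at h
    rw [hw, h, ← V2_apply, V2_self hdiv, V_apply, jp_comm]
  have q4 : A.P y w * A.U g * A.U y + A.U y * A.U g * A.P w y =
      A.P (A.U y g) (A.jp (A.inv g) (A.U y A.one)) := by
    rw [P_comm (A.U y g), ← q3, ← q, ← q1, ← q2]; noncomm_ring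
  have e1 : A.U (A.inv g) * D A g y * A.U y + A.U y * D A g y * A.U (A.inv g) =
      (A.U (A.inv g) * (A.V g * A.U y * A.V g) * A.U y +
      A.U y * (A.V g * A.U y * A.V g) * A.U (A.inv g)) -
      (A.U (A.inv g) * A.P (A.U g y) y * A.U y + A.U y * A.P (A.U g y) y * A.U (A.inv g)) := by
    rw [D]; noncomm_ring
  rw [e1, v1, v2, p1, p2, v3, q4]; abel

private lemma key1 (hdiv : A.IsDivision) {g y : J} (hg : g ≠ 0) (hy : y ≠ 0) :
    A.U g * A.U y * D A g y + D A g y * (A.U y * A.U g) =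
      A.P (A.jp g (A.U y g)) (A.U g (A.U y A.one)) := by
  have h := key0 hdiv hg hy
  have h2 : A.U g * _ * A.U g = A.U g * _ * A.U g := congrArg (fun X => A.U g * X * A.U g) h
  rw [← P_U_U, U_jp_inv hdiv hg] at h2
  rw [← h2]
  have e : A.U g * (A.U (A.inv g) * D A g y * A.U y + A.U y * D A g y * A.U (A.inv g)) * A.U g =
      (A.U g * A.U (A.inv g)) * D A g y * A.U y * A.U g +
      A.U g * A.U y * D A g y * (A.U (A.inv g) * A.U g) := by noncomm_ring
  rw [e, (U_inv_mul_cancel hdiv hg).1, (U_inv_mul_cancel hdiv hg).2, one_mul, mul_one]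
  noncomm_ring

private lemma key2 (hdiv : A.IsDivision) {g y : J} (hg : g ≠ 0) (hy : y ≠ 0) :
    A.U y * A.U g * D A g y + D A g y * (A.U g * A.U y) =
      A.P (A.jp g (A.U y g)) (A.U y (A.U g A.one)) := by
  rw [D_symm, key1 hdiv hy hg, jp_U_symm hdiv]

/-- `u² = t + a + b` -/
private lemma sq_u (hdiv : A.IsDivision) (g y : J) :
    A.U (A.jp g y) A.one = A.jp g (A.U y g) + (A.U g (A.U y A.one) + A.U y (A.U g A.one)) := by
  rw [U_jp', D, LinearMap.add_apply, LinearMap.add_apply, LinearMap.sub_apply,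
    Module.End.mul_apply, Module.End.mul_apply, Module.End.mul_apply, Module.End.mul_apply,
    V_apply, V_apply, jp_one, map_add, jp_add_right, ← jp_def, jp_comm (A.U g y) y,
    ← jp_U_symm hdiv]
  abel

/-- `T² = U (T 1)` for `T = U (g∘y) - 2 U g U y - 2 U y U g` -/
theorem commutator_sq' (hdiv : A.IsDivision) {g y : J} (hg : g ≠ 0) (hy : y ≠ 0) :
    (D A g y - A.U g * A.U y - A.U y * A.U g) * (D A g y - A.U g * A.U y - A.U y * A.U g) =
      A.U ((D A g y - A.U g * A.U y - A.U y * A.U g) A.one) := by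
  set t := A.jp g (A.U y g) with ht
  set c := A.U g (A.U y A.one) + A.U y (A.U g A.one) with hc
  have hs := sq_u hdiv g y
  rw [← ht, ← hc] at hs
  have hT : (D A g y - A.U g * A.U y - A.U y * A.U g) A.one = t - c := by
    have h1 := LinearMap.congr_fun (U_jp' (A := A) g y) A.one
    rw [hs] at h1
    simp only [LinearMap.add_apply, LinearMap.sub_apply, Module.End.mul_apply] at h1 ⊢
    have h3 : D A g y A.one = t := by
      have : D A g y A.one = (A.U g (A.U y A.one) + A.U y (A.U g A.one) + D A g y A.one) -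
        c := by rw [hc]; abel
      rw [this, ← h1]; abel
    rw [h3, hc]; abel
  have hk : A.P t c = (A.U g * A.U y * D A g y + D A g y * (A.U y * A.U g)) +
      (A.U y * A.U g * D A g y + D A g y * (A.U g * A.U y)) := by
    rw [key1 hdiv hg hy, key2 hdiv hg hy, hc, P_add_right]
  have hU : A.U (t + c) = (D A g y + A.U g * A.U y + A.U y * A.U g) *
      (D A g y + A.U g * A.U y + A.U y * A.U g) := by
    rw [← hs, U_sq, U_jp']; noncomm_ring
  have hU2 : A.U (t - c) = A.U (t + c) - A.P t c - A.P t c := by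
    rw [sub_eq_add_neg, U_add', U_add', U_neg, P_neg_right]; abel
  rw [hT, hU2, hU, hk]
  noncomm_ring

/-- BLOCK COMM (characteristic 3). `T = U (g∘y) - 2 U g U y - 2 U y U g = U (g∘y) + U g U y + U y U g`
satisfies `T² = U (T 1)`. -/
theorem commutator_sq (h3 : ∀ a : J, a + a + a = 0) (hdiv : A.IsDivision) {g y : J} (hg : g ≠ 0)
    (hy : y ≠ 0) :
    (A.U (A.jp g y) + A.U g * A.U y + A.U y * A.U g) *
      (A.U (A.jp g y) + A.U g * A.U y + A.U y * A.U g) =
      A.U ((A.U (A.jp g y) + A.U g * A.U y + A.U y * A.U g) A.one) := by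
  have e : A.U (A.jp g y) + A.U g * A.U y + A.U y * A.U g =
      D A g y - A.U g * A.U y - A.U y * A.U g := by
    rw [U_jp']
    refine LinearMap.ext fun x => ?_
    simp only [LinearMap.add_apply, LinearMap.sub_apply]
    have h1 := h3 ((A.U g * A.U y) x)
    have h2 := h3 ((A.U y * A.U g) x)
    have : (A.U g * A.U y) x + (A.U y * A.U g) x + (D A g y) x + (A.U g * A.U y) x +
      (A.U y * A.U g) x = ((A.U g * A.U y) x + (A.U g * A.U y) x + (A.U g * A.U y) x) +
      ((A.U y * A.U g) x + (A.U y * A.U g) x + (A.U y * A.U g) x) + ((D A g y) x -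
      (A.U g * A.U y) x - (A.U y * A.U g) x) := by abel
    rw [this, h1, h2]; abel
  rw [e]
  exact commutator_sq' hdiv hg hy

end Pool.Agent.Helper4.Jordan.QuadraticJordanAlgebra
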