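import Pool.Agent.Helper4.Jordan.Criterion2

/-! Jordan operators, isotopes, and systems `(G, E)` over a division Jordan algebra. -/

namespace Pool.Agent.Helper4.Jordan.QuadraticJordanAlgebra

open QuadraticMap

variable {R J : Type*} [CommRing R] [AddCommGroup J] [Module R J]

/-- The polarised `U`-operator `P a c = U(a+c) - U(a) - U(c)`, so `P a c b = {a b c}`. -/
def P (A : QuadraticJordanAlgebra R J) (a b : J) : Module.End R J := polar A.U a b

/-- the triple product `{a b c}` -/
def tr (A : QuadraticJordanAlgebra R J) (a b c : J) : J := A.P a c b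

/-- the Jordan product `a ∘ b = {a 1 b}` -/
def jp (A : QuadraticJordanAlgebra R J) (a b : J) : J := A.P a b A.one

/-- `V a c = a ∘ c` -/
def V (A : QuadraticJordanAlgebra R J) (a : J) : Module.End R J := A.P a A.one

/-- `V2 a b c = {a b c}` -/
def V2 (A : QuadraticJordanAlgebra R J) (a b : J) : Module.End R J where
  toFun c := A.P a c b
  map_add' c d := by
    show polar A.U a (c + d) b = polar A.U a c b + polar A.U a d b
    rw [QuadraticMap.polar_add_right]; rfl
  map_smul' r c := by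
    show polar A.U a (r • c) b = r • polar A.U a c b
    rw [QuadraticMap.polar_smul_right]; rfl

variable {A : QuadraticJordanAlgebra R J}

lemma P_def (a b : J) : A.P a b = A.U (a + b) - A.U a - A.U b := rfl
lemma tr_def (a b c : J) : A.tr a b c = A.P a c b := rfl
lemma jp_def (a b : J) : A.jp a b = A.P a b A.one := rfl
lemma V_def (a : J) : A.V a = A.P a A.one := rfl
lemma V2_apply (a b c : J) : A.V2 a b c = A.tr a b c := rfl
lemma P_apply (a b c : J) : A.P a c b = A.tr a b c := rfl

lemma P_comm (a b : J) : A.P a b = A.P b a := polar_comm _ _ _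
lemma P_add_left (a b c : J) : A.P (a + b) c = A.P a c + A.P b c := QuadraticMap.polar_add_left _ _ _ _
lemma P_add_right (a b c : J) : A.P a (b + c) = A.P a b + A.P a c := QuadraticMap.polar_add_right _ _ _ _
lemma P_neg_left (a b : J) : A.P (-a) b = -A.P a b := QuadraticMap.polar_neg_left _ _ _
lemma P_neg_right (a b : J) : A.P a (-b) = -A.P a b := QuadraticMap.polar_neg_right _ _ _
lemma P_zero_left (a : J) : A.P 0 a = 0 := QuadraticMap.polar_zero_left _ _
lemma P_zero_right (a : J) : A.P a 0 = 0 := QuadraticMap.polar_zero_right _ _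
lemma U_add' (a b : J) : A.U (a + b) = A.U a + A.U b + A.P a b := by rw [P_def]; abel
lemma P_self (a : J) : A.P a a = A.U a + A.U a := by
  show polar A.U a a = _
  rw [QuadraticMap.polar_self, two_smul]
lemma U_neg (a : J) : A.U (-a) = A.U a := QuadraticMap.map_neg _ _
lemma U_zero : A.U 0 = 0 := QuadraticMap.map_zero _

lemma tr_comm (a b c : J) : A.tr a b c = A.tr c b a := by rw [tr_def, tr_def, P_comm]
lemma tr_add_left (a a' b c : J) : A.tr (a + a') b c = A.tr a b c + A.tr a' b c := by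
  rw [tr_def, P_add_left]; rfl
lemma tr_add_mid (a b b' c : J) : A.tr a (b + b') c = A.tr a b c + A.tr a b' c := by
  rw [tr_def, map_add]; rfl
lemma tr_add_right (a b c c' : J) : A.tr a b (c + c') = A.tr a b c + A.tr a b c' := by
  rw [tr_def, P_add_right]; rfl

/-- polarisation of `U (U g x) = U g * U x * U g` -/
lemma P_U_U (g x z : J) : A.P (A.U g x) (A.U g z) = A.U g * A.P x z * A.U g := by
  rw [P_def, P_def, ← map_add, A.QJ3, A.QJ3, A.QJ3]
  noncomm_ring

lemma U_inv_mul_cancel {A : QuadraticJordanAlgebra R J} (hdiv : A.IsDivision) {b : J}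
    (hb : b ≠ 0) : A.U (A.inv b) * A.U b = 1 ∧ A.U b * A.U (A.inv b) = 1 := by
  have hu : A.U b (A.inv b) = b := U_inv hdiv hb
  have h3 : A.U b = A.U b * A.U (A.inv b) * A.U b := by
    conv_lhs => rw [← hu]
    exact A.QJ3 b _
  constructor
  · refine LinearMap.ext fun a => ?_
    apply (hdiv.2 b hb).1
    have := congrArg (fun g : Module.End R J => g a) h3
    simp only [Module.End.mul_apply] at this
    rw [Module.End.mul_apply, Module.End.one_apply]
    exact this.symm
  · refine LinearMap.ext fun a => ?_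
    obtain ⟨b', rfl⟩ := (hdiv.2 b hb).2 a
    have := congrArg (fun g : Module.End R J => g b') h3
    simp only [Module.End.mul_apply] at this
    rw [Module.End.mul_apply, Module.End.one_apply]
    exact this.symm

/-- The isotope of `A` in which `u ≠ 0` is the unit element: `U'(a) = U(a) U(u)⁻¹`. -/
noncomputable def isotope {A : QuadraticJordanAlgebra R J} (hdiv : A.IsDivision) {u : J}
    (hu : u ≠ 0) : QuadraticJordanAlgebra R J where
  one := u
  U := (LinearMap.mulRight R (A.U (A.inv u))).compQuadraticMap A.U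
  U_one := (U_inv_mul_cancel hdiv hu).2
  QJ2 := by
    intro a b c
    have h := A.QJ2 a (A.U (A.inv u) b) (A.U (A.inv u) c)
    simp only [triple] at h ⊢
    have e : ∀ x y : J, polar (⇑((LinearMap.mulRight R (A.U (A.inv u))).compQuadraticMap A.U)) x y
        = A.P x y * A.U (A.inv u) := by
      intro x y
      simp only [polar, LinearMap.compQuadraticMap_apply, LinearMap.mulRight_apply, P_def,
        sub_mul]
    have e2 : A.P (A.U (A.inv u) b) (A.U (A.inv u) c) a =
      A.U (A.inv u) (A.P b c (A.U (A.inv u) a)) := by rw [P_U_U]; rfl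
    simp only [e, LinearMap.compQuadraticMap_apply, LinearMap.mulRight_apply,
      Module.End.mul_apply]
    change A.P a (A.U a (A.U (A.inv u) c)) (A.U (A.inv u) b) = _ at h
    rw [h]
    change A.U a (A.P (A.U (A.inv u) b) (A.U (A.inv u) c) a) = _
    rw [e2]
  QJ2_lin := by
    intro a d b c
    have h := A.QJ2_lin a d (A.U (A.inv u) b) (A.U (A.inv u) c)
    simp only [triple] at h ⊢
    have e : ∀ x y : J, polar (⇑((LinearMap.mulRight R (A.U (A.inv u))).compQuadraticMap A.U)) x y
        = A.P x y * A.U (A.inv u) := by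
      intro x y
      simp only [polar, LinearMap.compQuadraticMap_apply, LinearMap.mulRight_apply, P_def,
        sub_mul]
    have e2 : ∀ x : J, A.P (A.U (A.inv u) b) (A.U (A.inv u) c) x =
      A.U (A.inv u) (A.P b c (A.U (A.inv u) x)) := by intro x; rw [P_U_U]; rfl
    simp only [e, LinearMap.compQuadraticMap_apply, LinearMap.mulRight_apply,
      Module.End.mul_apply]
    change A.P d (A.U a (A.U (A.inv u) c)) (A.U (A.inv u) b) +
      A.P a (A.P a d (A.U (A.inv u) c)) (A.U (A.inv u) b) =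
      A.P a d (A.P (A.U (A.inv u) b) (A.U (A.inv u) c) a) +
      A.U a (A.P (A.U (A.inv u) b) (A.U (A.inv u) c) d) at h
    rw [e2, e2] at h
    exact h
  QJ3 := by
    intro a b
    simp only [LinearMap.compQuadraticMap_apply, LinearMap.mulRight_apply, Module.End.mul_apply,
      A.QJ3, mul_assoc]
  QJ3_lin₁ := by
    intro a d b
    have h := A.QJ3_lin₁ a d (A.U (A.inv u) b)
    have e : ∀ x y : J, polar (⇑((LinearMap.mulRight R (A.U (A.inv u))).compQuadraticMap A.U)) x y
        = A.P x y * A.U (A.inv u) := by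
      intro x y
      simp only [polar, LinearMap.compQuadraticMap_apply, LinearMap.mulRight_apply, P_def,
        sub_mul]
    simp only [e, LinearMap.compQuadraticMap_apply, LinearMap.mulRight_apply,
      Module.End.mul_apply]
    change A.P (A.U a (A.U (A.inv u) b)) (A.P a d (A.U (A.inv u) b)) =
      A.P a d * A.U (A.U (A.inv u) b) * A.U a + A.U a * A.U (A.U (A.inv u) b) * A.P a d at h
    rw [h, A.QJ3]
    noncomm_ring
  QJ3_lin₂ := by
    intro a d b
    have h := A.QJ3_lin₂ a d (A.U (A.inv u) b)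
    have e : ∀ x y : J, polar (⇑((LinearMap.mulRight R (A.U (A.inv u))).compQuadraticMap A.U)) x y
        = A.P x y * A.U (A.inv u) := by
      intro x y
      simp only [polar, LinearMap.compQuadraticMap_apply, LinearMap.mulRight_apply, P_def,
        sub_mul]
    simp only [e, LinearMap.compQuadraticMap_apply, LinearMap.mulRight_apply,
      Module.End.mul_apply]
    change A.P (A.U a (A.U (A.inv u) b)) (A.U d (A.U (A.inv u) b)) +
      A.U (A.P a d (A.U (A.inv u) b)) =
      A.U a * A.U (A.U (A.inv u) b) * A.U d + A.U d * A.U (A.U (A.inv u) b) * A.U a +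
      A.P a d * A.U (A.U (A.inv u) b) * A.P a d at h
    rw [← add_mul, h, A.QJ3]
    noncomm_ring

section isotope
variable {A : QuadraticJordanAlgebra R J} (hdiv : A.IsDivision) {u : J} (hu : u ≠ 0)

lemma isotope_one : (isotope hdiv hu).one = u := rfl
lemma isotope_U (a : J) : (isotope hdiv hu).U a = A.U a * A.U (A.inv u) := rfl
lemma isotope_U_apply (a b : J) : (isotope hdiv hu).U a b = A.U a (A.U (A.inv u) b) := rfl
lemma isotope_P (a b : J) : (isotope hdiv hu).P a b = A.P a b * A.U (A.inv u) := by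
  rw [P_def, P_def, isotope_U, isotope_U, isotope_U, sub_mul, sub_mul]
lemma isotope_tr (a b c : J) :
    (isotope hdiv hu).tr a b c = A.tr a (A.U (A.inv u) b) c := by
  rw [tr_def, isotope_P]; rfl

include hdiv in
lemma inv_ne {b : J} (hb : b ≠ 0) : A.inv b ≠ 0 := by
  intro h
  have := U_inv hdiv hb
  rw [h, map_zero] at this
  exact hb this.symm

lemma isotope_jp (a b : J) : (isotope hdiv hu).jp a b = A.tr a (A.inv u) b := by
  rw [jp_def, isotope_P, isotope_one, Module.End.mul_apply]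
  have : A.U (A.inv u) u = A.inv u := by
    have h2 := (U_inv_mul_cancel hdiv hu).1
    have h3 := LinearMap.congr_fun h2 (A.inv u)
    rw [Module.End.mul_apply, Module.End.one_apply, U_inv hdiv hu] at h3
    exact h3
  rw [this]; rfl

include hdiv hu in
lemma isotope_isDivision : (isotope hdiv hu).IsDivision := by
  refine ⟨hu, fun b hb => ?_⟩
  show Function.Bijective fun a => A.U b (A.U (A.inv u) a)
  exact (hdiv.2 b hb).comp (hdiv.2 _ (inv_ne hdiv hu))

lemma isotope_inv {a : J} (ha : a ≠ 0) : (isotope hdiv hu).inv a = A.U u (A.inv a) := by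
  symm
  apply inv_unique (isotope_isDivision hdiv hu) ha
  rw [isotope_U_apply]
  have h2 := LinearMap.congr_fun (U_inv_mul_cancel hdiv hu).1 (A.inv a)
  rw [Module.End.mul_apply, Module.End.one_apply] at h2
  rw [h2, U_inv hdiv ha]

end isotope

/-- A set of elements whose (polarised) `U`-operators commute pairwise. -/
structure IsCom (A : QuadraticJordanAlgebra R J) (K : Set J) : Prop where
  UU : ∀ a ∈ K, ∀ b ∈ K, Commute (A.U a) (A.U b)
  UP : ∀ a ∈ K, ∀ b ∈ K, ∀ c ∈ K, Commute (A.U a) (A.P b c)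
  PP : ∀ a ∈ K, ∀ b ∈ K, ∀ c ∈ K, ∀ d ∈ K, Commute (A.P a b) (A.P c d)

/-- A commutative subfield `K ∋ 1`: an additive subgroup closed under inverses with commuting
`U`-operators. -/
structure IsCK (A : QuadraticJordanAlgebra R J) (K : Set J) : Prop where
  com : A.IsCom K
  one : A.one ∈ K
  add : ∀ a ∈ K, ∀ b ∈ K, a + b ∈ K
  neg : ∀ a ∈ K, -a ∈ K
  inv : ∀ a ∈ K, a ≠ 0 → A.inv a ∈ K

/-- three elements all of whose nonempty subset sums are nonzero -/
def Trip (f g h : J) : Prop :=
  f ≠ 0 ∧ g ≠ 0 ∧ h ≠ 0 ∧ f + g ≠ 0 ∧ f + h ≠ 0 ∧ g + h ≠ 0 ∧ f + g + h ≠ 0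

/-- `J` has more than `n` elements. -/
def Big (J : Type*) (n : ℕ) : Prop := ∀ s : Finset J, s.card ≤ n → ∃ x, x ∉ s

/-- A line: a subset which is a commutative subfield in each isotope whose unit lies on it, and
which contains a triple with nonzero subset sums. -/
structure IsLine {A : QuadraticJordanAlgebra R J} (hdiv : A.IsDivision) (l : Set J) : Prop where
  ck : ∀ u (hu : u ≠ 0), u ∈ l → (isotope hdiv hu).IsCK l
  trip : ∃ f ∈ l, ∃ g ∈ l, ∃ h ∈ l, Trip f g h

/-- A system over `A`: a group `G` of linear automorphisms of `J` containing all `U b`, acting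
on an extension `π : E → J`, trivially on `ker π`. -/
structure Sys (A : QuadraticJordanAlgebra R J) (E : Type*) [AddCommGroup E] where
  /-- the group -/
  G : Subgroup (J ≃ₗ[R] J)
  /-- the element `U b` -/
  w : J → G
  hw : ∀ b, b ≠ 0 → ∀ x, (w b : J ≃ₗ[R] J) x = A.U b x
  str : ∀ γ : G, ∃ γ' : J → J, ∀ z x,
    A.U ((γ : J ≃ₗ[R] J) z) x = (γ : J ≃ₗ[R] J) (A.U z (γ' x))
  /-- the action on `E` -/
  ρ : G →* AddMonoid.End E
  /-- the projection -/
  π : E →+ J
  surj : Function.Surjective π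
  equi : ∀ γ e, π (ρ γ e) = (γ : J ≃ₗ[R] J) (π e)
  triv : ∀ γ e, π e = 0 → ρ γ e = e

namespace Sys

variable {E : Type*} [AddCommGroup E] (S : Sys A E)

/-- the operator of `b` on `E` -/
def W (b : J) : AddMonoid.End E := S.ρ (S.w b)

/-- the operator of `U(a) U(b)⁻¹` on `E` -/
def WW (a b : J) : AddMonoid.End E := S.ρ (S.w a * (S.w b)⁻¹)

/-- A retraction of `E` onto `ker π` invariant under `U(a) U(b)⁻¹`, `a, b ∈ l`. -/
structure IsRet (l : Set J) (r : E →+ E) : Prop where
  ker : ∀ e, S.π (r e) = 0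
  id : ∀ e, S.π e = 0 → r e = e
  inv : ∀ a ∈ l, ∀ b ∈ l, a ≠ 0 → b ≠ 0 → ∀ e, r (S.WW a b e) = r e

/-- `U(g) U(y)` and `U(y) U(g)` agree on all `e` over `g⁻¹ ∘ y⁻¹`. -/
def SL : Prop := ∀ g y, g ≠ 0 → y ≠ 0 → ∀ e, S.π e = A.jp (A.inv g) (A.inv y) →
  S.W g (S.W y e) = S.W y (S.W g e)

lemma ρ_mul (γ δ : S.G) (e : E) : S.ρ (γ * δ) e = S.ρ γ (S.ρ δ e) := by
  rw [map_mul]; rfl

lemma ρ_one (e : E) : S.ρ 1 e = e := by
  rw [map_one]; rfl

lemma π_W {b : J} (hb : b ≠ 0) (e : E) : S.π (S.W b e) = A.U b (S.π e) := by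
  rw [W, S.equi, S.hw b hb]

lemma ρ_inv_apply (γ : S.G) (e : E) : S.ρ γ⁻¹ (S.ρ γ e) = e := by
  rw [← S.ρ_mul, inv_mul_cancel, S.ρ_one]

lemma ρ_apply_inv (γ : S.G) (e : E) : S.ρ γ (S.ρ γ⁻¹ e) = e := by
  rw [← S.ρ_mul, mul_inv_cancel, S.ρ_one]

lemma WW_apply (a b : J) (e : E) : S.WW a b (S.W b e) = S.W a e := by
  rw [WW, W, W, ← S.ρ_mul, inv_mul_cancel_right]

lemma w_inv_apply (hdiv : A.IsDivision) {u : J} (hu : u ≠ 0) (x : J) :
    (((S.w u)⁻¹ : S.G) : J ≃ₗ[R] J) x = A.U (A.inv u) x := by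
  have h2 : (S.w u : J ≃ₗ[R] J) (A.U (A.inv u) x) = x := by
    rw [S.hw u hu, ← Module.End.mul_apply, (U_inv_mul_cancel hdiv hu).2,
      Module.End.one_apply]
  rw [Subgroup.coe_inv]
  exact (LinearEquiv.symm_apply_eq _).2 h2.symm

lemma π_WW (hdiv : A.IsDivision) {a b : J} (ha : a ≠ 0) (hb : b ≠ 0) (e : E) :
    S.π (S.WW a b e) = A.U a (A.U (A.inv b) (S.π e)) := by
  rw [WW, S.ρ_mul, S.equi, S.equi, S.hw a ha, S.w_inv_apply hdiv hb]

/-- The system over the isotope. -/
noncomputable def isotope (hdiv : A.IsDivision) {u : J} (hu : u ≠ 0) :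
    Sys (QuadraticJordanAlgebra.isotope hdiv hu) E where
  G := S.G
  w b := S.w b * (S.w u)⁻¹
  hw := by
    intro b hb x
    show (S.w b : J ≃ₗ[R] J) ((((S.w u)⁻¹ : S.G) : J ≃ₗ[R] J) x) = A.U b (A.U (A.inv u) x)
    rw [S.hw b hb, S.w_inv_apply hdiv hu]
  str := by
    intro γ
    obtain ⟨γ', h⟩ := S.str γ
    refine ⟨fun x => A.U u (γ' (A.U (A.inv u) x)), fun z x => ?_⟩
    rw [isotope_U_apply, isotope_U_apply, h]
    congr 2
    rw [← Module.End.mul_apply, (U_inv_mul_cancel hdiv hu).1, Module.End.one_apply]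
  ρ := S.ρ
  π := S.π
  surj := S.surj
  equi := S.equi
  triv := S.triv

lemma isotope_WW (hdiv : A.IsDivision) {u : J} (hu : u ≠ 0) (a b : J) :
    (S.isotope hdiv hu).WW a b = S.WW a b := by
  show S.ρ (S.w a * (S.w u)⁻¹ * (S.w b * (S.w u)⁻¹)⁻¹) = S.ρ (S.w a * (S.w b)⁻¹)
  congr 1
  group

lemma isotope_π (hdiv : A.IsDivision) {u : J} (hu : u ≠ 0) : (S.isotope hdiv hu).π = S.π := rfl

lemma isotope_isRet (hdiv : A.IsDivision) {u : J} (hu : u ≠ 0) (l : Set J) (r : E →+ E) :
    (S.isotope hdiv hu).IsRet l r ↔ S.IsRet l r := by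
  constructor
  · rintro ⟨h1, h2, h3⟩
    exact ⟨h1, h2, fun a ha b hb ha0 hb0 e => by
      rw [← S.isotope_WW hdiv hu]; exact h3 a ha b hb ha0 hb0 e⟩
  · rintro ⟨h1, h2, h3⟩
    exact ⟨h1, h2, fun a ha b hb ha0 hb0 e => by
      rw [S.isotope_WW hdiv hu]; exact h3 a ha b hb ha0 hb0 e⟩

end Sys

end Pool.Agent.Helper4.Jordan.QuadraticJordanAlgebra
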