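import Pool.Agent.Helper36.St.Inv

/-! Invariant alternating forms vanish: finite differences. -/

namespace Pool.Agent.Helper4.Jordan.QuadraticJordanAlgebra

open QuadraticMap

variable {R J : Type*} [CommRing R] [AddCommGroup J] [Module R J]
  {A : QuadraticJordanAlgebra R J}

/-- `FD n F`: all `n`-fold finite differences of `F` vanish. -/
def FD {X C : Type*} [AddCommGroup X] [AddCommGroup C] : ℕ → (X → C) → Prop
  | 0, F => ∀ x, F x = 0
  | n + 1, F => ∀ h, FD n (fun x => F (x + h) - F x)

section FD

variable {X C D E : Type*} [AddCommGroup X] [AddCommGroup C] [AddCommGroup D] [AddCommGroup E]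

lemma FD.zero_fun (n : ℕ) : FD n (fun _ : X => (0 : C)) := by
  induction n with
  | zero => intro x; rfl
  | succ n ih =>
    intro h
    simpa using ih

lemma FD.of_zero {n : ℕ} {F : X → C} (h : ∀ x, F x = 0) : FD n F := by
  have : F = fun _ => 0 := funext h
  rw [this]; exact FD.zero_fun n

lemma FD.add {n : ℕ} : ∀ {F G : X → C}, FD n F → FD n G → FD n (fun x => F x + G x) := by
  induction n with
  | zero => intro F G hF hG x; simp [hF x, hG x]
  | succ n ih =>
    intro F G hF hG h
    have := ih (hF h) (hG h)
    have e : (fun x => F (x + h) + G (x + h) - (F x + G x)) =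
        fun x => (F (x + h) - F x) + (G (x + h) - G x) := by
      funext x; abel
    show FD n (fun x => F (x + h) + G (x + h) - (F x + G x))
    rw [e]; exact this

lemma FD.succ {n : ℕ} : ∀ {F : X → C}, FD n F → FD (n + 1) F := by
  induction n with
  | zero =>
    intro F hF h x
    simp [hF (x + h), hF x]
  | succ n ih =>
    intro F hF h
    exact ih (hF h)

lemma FD.const (n : ℕ) (c : C) : FD (n + 1) (fun _ : X => c) := by
  intro h
  apply FD.of_zero
  intro x
  simp

lemma FD.sub_const {n : ℕ} {F : X → C} (hF : FD (n + 1) F) (c : C) :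
    FD (n + 1) (fun x => F x - c) := by
  have := hF.add (FD.const (X := X) n (-c))
  simpa [sub_eq_add_neg] using this

lemma FD.bilin (B : C →+ D →+ E) (k : ℕ) : ∀ (m n : ℕ), m + n ≤ k →
    ∀ {p : X → C} {q : X → D}, FD (m + 1) p → FD (n + 1) q →
      FD (m + n + 1) (fun x => B (p x) (q x)) := by
  induction k with
  | zero =>
    intro m n hk p q hp hq
    obtain rfl : m = 0 := by omega
    obtain rfl : n = 0 := by omega
    intro h x
    have h1 := hp h x
    have h2 := hq h x
    have h1' : p (x + h) = p x := sub_eq_zero.1 h1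
    have h2' : q (x + h) = q x := sub_eq_zero.1 h2
    show B (p (x + h)) (q (x + h)) - B (p x) (q x) = 0
    rw [h1', h2', sub_self]
  | succ k ih =>
    intro m n hk p q hp hq h
    have e : (fun x => B (p (x + h)) (q (x + h)) - B (p x) (q x)) =
        fun x => (B (p (x + h) - p x) (q x) + B (p x) (q (x + h) - q x)) +
          B (p (x + h) - p x) (q (x + h) - q x) := by
      funext x
      simp only [map_sub, AddMonoidHom.sub_apply]
      abel
    show FD (m + n) (fun x => B (p (x + h)) (q (x + h)) - B (p x) (q x))
    rw [e]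
    refine (FD.add (FD.add ?_ ?_) ?_)
    · cases m with
      | zero =>
        apply FD.of_zero
        intro x
        have h1 := hp h x
        simp only at h1
        rw [h1]; simp
      | succ m =>
        have := ih m n (by omega) (hp h) hq
        have e2 : m + 1 + n = m + n + 1 := by omega
        rw [e2]; exact this
    · cases n with
      | zero =>
        apply FD.of_zero
        intro x
        have h1 := hq h x
        simp only at h1
        rw [h1]; simp
      | succ n =>
        exact ih m n (by omega) hp (hq h)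
    · cases m with
      | zero =>
        apply FD.of_zero
        intro x
        have h1 := hp h x
        simp only at h1
        rw [h1]; simp
      | succ m =>
        cases n with
        | zero =>
          apply FD.of_zero
          intro x
          have h1 := hq h x
          simp only at h1
          rw [h1]; simp
        | succ n =>
          have := ih m n (by omega) (hp h) (hq h)
          have e2 : m + 1 + (n + 1) = m + n + 1 + 1 := by omega
          rw [e2]; exact this.succ

lemma FD.eq_zero {n : ℕ} : ∀ {F : X → C}, FD n F → ∀ (b : Fin n → X) (x : X),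
    (∀ s : Finset (Fin n), s.Nonempty → F (x + ∑ i ∈ s, b i) = 0) → F x = 0 := by
  induction n with
  | zero => intro F hF b x _; exact hF x
  | succ n ih =>
    intro F hF b x hs
    have h1 : F (x + b 0) - F x = 0 := by
      apply ih (hF (b 0)) (fun i => b i.succ) x
      intro s hs'
      have h2 : F (x + ∑ i ∈ s, b i.succ) = 0 := by
        have := hs (s.map (Fin.succEmb n)) (by simpa using hs')
        rwa [Finset.sum_map] at this
      have h3 : F (x + ∑ i ∈ s, b i.succ + b 0) = 0 := by
        have := hs (insert 0 (s.map (Fin.succEmb n))) ⟨0, Finset.mem_insert_self _ _⟩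
        rw [Finset.sum_insert (by simp [Fin.succ_ne_zero]), Finset.sum_map] at this
        rwa [add_assoc, add_comm (∑ i ∈ s, b i.succ)]
      show F (x + ∑ i ∈ s, b i.succ + b 0) - F (x + ∑ i ∈ s, b i.succ) = 0
      rw [h2, h3, sub_zero]
    have h4 : F (x + b 0) = 0 := by
      have := hs {0} ⟨0, Finset.mem_singleton_self _⟩
      simpa using this
    rw [h4, zero_sub, neg_eq_zero] at h1
    exact h1

end FD

lemma FD_U (a : J) : FD 3 (fun b => A.U b a) := by
  intro h k l x
  show (A.U (x + l + k + h) a - A.U (x + l + k) a - (A.U (x + l + h) a - A.U (x + l) a)) -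
    (A.U (x + k + h) a - A.U (x + k) a - (A.U (x + h) a - A.U x a)) = 0
  simp only [U_add', P_add_left, LinearMap.add_apply]
  abel

theorem form_vanish_of_quint {C : Type*} [AddCommGroup C] {f : J →+ J →+ C} (hf : InvForm A f)
    {b : Fin 5 → J} (hb : ∀ s : Finset (Fin 5), s.Nonempty → ∑ i ∈ s, b i ≠ 0) (a c : J) :
    f a c = 0 := by
  have h1 : FD 5 (fun x => f (A.U x a) (A.U x c)) :=
    FD.bilin f 4 2 2 (by norm_num) (FD_U a) (FD_U c)
  have h2 := (h1.sub_const (f a c)).eq_zero b 0 (by
    intro s hs
    have h3 := hf.inv _ (hb s hs) a c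
    simp only [zero_add, h3, sub_self])
  simp only [LinearMap.zero_apply, map_zero, zero_sub, neg_eq_zero] at h2
  exact h2

omit [Module R J] [CommRing R] in
/-- `n` elements with nonzero subset sums, if there are more than `2 ^ (n - 1)` elements. -/
lemma exists_subsetSums (n : ℕ) (hbig : ∀ m < n, Big J (2 ^ m)) :
    ∃ b : Fin n → J, ∀ s : Finset (Fin n), s.Nonempty → ∑ i ∈ s, b i ≠ 0 := by
  classical
  induction n with
  | zero =>
    refine ⟨fun _ => 0, ?_⟩
    intro s hs
    obtain ⟨i, _⟩ := hs
    exact i.elim0
  | succ n ih =>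
    obtain ⟨b, hb⟩ := ih (fun m hm => hbig m (by omega))
    obtain ⟨z, hz⟩ := hbig n (Nat.lt_succ_self n) ((Finset.univ : Finset (Finset (Fin n))).image
      (fun s => -∑ i ∈ s, b i)) (Finset.card_image_le.trans (by simp))
    refine ⟨Fin.cons z b, ?_⟩
    intro s hs
    have hsucc : ∀ t : Finset (Fin n),
        ∑ i ∈ t.map (Fin.succEmb n), (Fin.cons z b : Fin (n + 1) → J) i =
          ∑ i ∈ t, b i := by
      intro t
      rw [Finset.sum_map]
      rfl
    let t : Finset (Fin n) := Finset.univ.filter (fun i => i.succ ∈ s)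
    by_cases h0 : (0 : Fin (n + 1)) ∈ s
    · have hst : s = insert 0 (t.map (Fin.succEmb n)) := by
        ext i
        refine Fin.cases ?_ (fun j => ?_) i
        · simp [h0]
        · simp [t, Fin.succ_ne_zero]
      have hnm : (0 : Fin (n + 1)) ∉ t.map (Fin.succEmb n) := by
        simp [Fin.succ_ne_zero]
      rw [hst, Finset.sum_insert hnm, hsucc]
      intro h
      apply hz
      rw [Finset.mem_image]
      refine ⟨t, Finset.mem_univ _, ?_⟩
      exact (eq_neg_of_add_eq_zero_left h).symm
    · have hst : s = t.map (Fin.succEmb n) := by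
        ext i
        refine Fin.cases ?_ (fun j => ?_) i
        · simp [h0, Fin.succ_ne_zero]
        · simp [t]
      rw [hst, hsucc]
      apply hb
      rw [hst] at hs
      simpa using hs

lemma form_vanish_of_tr (htr : ∀ a b c : J, A.tr a b c = 0)
    (hbig : Big J 4) {C : Type*} [AddCommGroup C] {f : J →+ J →+ C}
    (hf : InvForm A f) (a c : J) : f a c = 0 := by
  have hU : ∀ a : J, FD 2 (fun b => A.U b a) := by
    intro a h k x
    show (A.U (x + k + h) a - A.U (x + k) a) - (A.U (x + h) a - A.U x a) = 0
    simp only [U_add', P_add_left, LinearMap.add_apply, P_apply, htr]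
    abel
  have h1 : FD 3 (fun x => f (A.U x a) (A.U x c)) :=
    FD.bilin f 2 1 1 (by norm_num) (hU a) (hU c)
  obtain ⟨b, hb⟩ := exists_subsetSums (J := J) 3 (fun m hm =>
    hbig.mono (by interval_cases m <;> norm_num))
  have h3 := (h1.sub_const (f a c)).eq_zero b 0 (by
    intro s hs
    have h3 := hf.inv _ (hb s hs) a c
    simp only [zero_add, h3, sub_self])
  simp only [LinearMap.zero_apply, map_zero, zero_sub, neg_eq_zero] at h3
  exact h3

omit [Module R J] [CommRing R] in
/-- BLOCK FORMS (iii): five `F_2`-independent elements. -/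
theorem exists_quint2 (h2 : ∀ a : J, a + a = 0) (hbig : Big J 31) :
    ∃ b : Fin 5 → J, ∀ s : Finset (Fin 5), s.Nonempty → ∑ i ∈ s, b i ≠ 0 := by
  have _ := h2
  exact exists_subsetSums 5 (fun m hm => hbig.mono (by interval_cases m <;> norm_num))

omit [Module R J] [CommRing R] in
/-- BLOCK FORMS (iv): `(x, x, y, y, z)` with `x, y, z` independent over `F_3`. -/
theorem exists_quint3 (h3 : ∀ a : J, a + a + a = 0) (hbig : Big J 9) :
    ∃ b : Fin 5 → J, ∀ s : Finset (Fin 5), s.Nonempty → ∑ i ∈ s, b i ≠ 0 := by
  classical
  obtain ⟨x, hx⟩ := hbig {0} (by simp)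
  obtain ⟨y, hy⟩ := hbig {0, x, x + x} (Finset.card_le_three.trans (by norm_num))
  obtain ⟨z, hz⟩ := hbig ((Finset.range 3 ×ˢ Finset.range 3).image
    (fun p => -(p.1 • y + p.2 • x))) (Finset.card_image_le.trans (by simp))
  simp only [Finset.mem_singleton, Finset.mem_insert, not_or] at hx hy
  have hmain : ∀ k j i : ℕ, k ≤ 1 → j ≤ 2 → i ≤ 2 → 0 < k + j + i →
      k • z + (j • y + i • x) ≠ 0 := by
    intro k j i hk hj hi hpos h
    have hk' : k = 0 ∨ k = 1 := by omega
    rcases hk' with rfl | rfl
    · rw [zero_smul, zero_add] at h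
      have h3x := h3 x
      have h3y := h3 y
      have hj' : j = 0 ∨ j = 1 ∨ j = 2 := by omega
      have hi' : i = 0 ∨ i = 1 ∨ i = 2 := by omega
      rcases hj' with rfl | rfl | rfl <;> rcases hi' with rfl | rfl | rfl
      · omega
      · simp at h; exact hx h
      · simp only [zero_smul, zero_add, two_smul] at h
        rw [h, zero_add] at h3x; exact hx h3x
      · simp at h; exact hy.1 h
      · simp only [one_smul] at h
        apply hy.2.2
        have : y = (y + x) - (x + x + x) + (x + x) := by abel
        rw [this, h, h3x, sub_zero, zero_add]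
      · simp only [one_smul, two_smul] at h
        apply hy.2.1
        have : y = (y + (x + x)) - (x + x + x) + x := by abel
        rw [this, h, h3x, sub_zero, zero_add]
      · simp only [zero_smul, add_zero, two_smul] at h
        rw [h, zero_add] at h3y; exact hy.1 h3y
      · simp only [one_smul, two_smul] at h
        apply hy.2.1
        have : y = (y + y + y) - (y + y + x) + x := by abel
        rw [this, h, h3y, sub_zero, zero_add]
      · simp only [two_smul] at h
        apply hy.2.2
        have : y = (y + y + y) - (y + y + (x + x)) + (x + x) := by abel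
        rw [this, h, h3y, sub_zero, zero_add]
    · rw [one_smul] at h
      apply hz
      rw [Finset.mem_image]
      exact ⟨(j, i), by simp; omega, (eq_neg_of_add_eq_zero_left h).symm⟩
  refine ⟨![z, y, y, x, x], ?_⟩
  intro s hs
  have h1 : ∑ i ∈ s, (![z, y, y, x, x] : Fin 5 → J) i =
      (if (0 : Fin 5) ∈ s then 1 else 0) • z +
        (((if (1 : Fin 5) ∈ s then 1 else 0) + (if (2 : Fin 5) ∈ s then 1 else 0)) • y +
          ((if (3 : Fin 5) ∈ s then 1 else 0) + (if (4 : Fin 5) ∈ s then 1 else 0)) • x) := by
    have h2 : ∑ i ∈ s, (![z, y, y, x, x] : Fin 5 → J) i =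
        ∑ i, if i ∈ s then (![z, y, y, x, x] : Fin 5 → J) i else 0 := by
      rw [Finset.sum_ite_mem, Finset.univ_inter]
    rw [h2, Fin.sum_univ_five]
    have e0 : (![z, y, y, x, x] : Fin 5 → J) 0 = z := rfl
    have e1 : (![z, y, y, x, x] : Fin 5 → J) 1 = y := rfl
    have e2 : (![z, y, y, x, x] : Fin 5 → J) 2 = y := rfl
    have e3 : (![z, y, y, x, x] : Fin 5 → J) 3 = x := rfl
    have e4 : (![z, y, y, x, x] : Fin 5 → J) 4 = x := rfl
    rw [e0, e1, e2, e3, e4]
    simp only [add_smul, ite_smul, one_smul, zero_smul]
    abel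
  rw [h1]
  refine hmain _ _ _ ?_ ?_ ?_ ?_
  · split_ifs <;> omega
  · split_ifs <;> omega
  · split_ifs <;> omega
  · obtain ⟨i, hi⟩ := hs
    fin_cases i
    · have hi' : (0 : Fin 5) ∈ s := hi
      rw [if_pos hi']; omega
    · have hi' : (1 : Fin 5) ∈ s := hi
      rw [if_pos hi']; omega
    · have hi' : (2 : Fin 5) ∈ s := hi
      rw [if_pos hi']; omega
    · have hi' : (3 : Fin 5) ∈ s := hi
      rw [if_pos hi']; omega
    · have hi' : (4 : Fin 5) ∈ s := hi
      rw [if_pos hi']; omega

end Pool.Agent.Helper4.Jordan.QuadraticJordanAlgebra
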