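import Pool.Agent.Helper36.St.Hua
import Pool.Agent.Helper36.St.FormsA

/-! Invariant alternating forms vanish. (`form_vanish_of_quint`, `exists_quint2`, `exists_quint3`
are in `FormsA.lean`, same names, same namespace.) -/

namespace Pool.Agent.Helper4.Jordan.QuadraticJordanAlgebra

open QuadraticMap

variable {R J : Type*} [CommRing R] [AddCommGroup J] [Module R J]
  {A : QuadraticJordanAlgebra R J}

/-- BLOCK FORMS (ii). -/
theorem form_vanish_of_comm2 (h2 : ∀ a : J, a + a = 0) (hdiv : A.IsDivision)
    (hK : A.IsCK Set.univ) (hbig : Big J 4) {C : Type*} [AddCommGroup C] {f : J →+ J →+ C}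
    (hf : InvForm A f) (a c : J) : f a c = 0 :=
  form_vanish_of_tr (fun a b c => hK.tr_eq_zero h2 hdiv (Set.mem_univ a) (Set.mem_univ b)
    (Set.mem_univ c)) hbig hf a c

end Pool.Agent.Helper4.Jordan.QuadraticJordanAlgebra
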