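import Pool.Agent.Helper36.St.Inv

/-! The additive cocycle lemma modulo triple products. -/

namespace Pool.Agent.Helper4.Jordan.QuadraticJordanAlgebra

open QuadraticMap

variable {R J : Type*} [CommRing R] [AddCommGroup J] [Module R J]
  {A : QuadraticJordanAlgebra R J}

section slopes

variable {C : Type*} [AddCommGroup C]

/-- two non-zero additive maps are simultaneously non-zero somewhere -/
lemma exists_both_ne {D D' : Type*} [AddCommGroup D] [AddCommGroup D'] (f : J →+ D) (g : J →+ D')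
    (hf : ∃ a, f a ≠ 0) (hg : ∃ b, g b ≠ 0) : ∃ w, f w ≠ 0 ∧ g w ≠ 0 := by
  obtain ⟨a, ha⟩ := hf
  obtain ⟨b, hb⟩ := hg
  by_cases h1 : g a = 0
  · by_cases h2 : f b = 0
    · exact ⟨a + b, by rwa [map_add, h2, add_zero], by rwa [map_add, h1, zero_add]⟩
    · exact ⟨b, h2, hb⟩
  · exact ⟨a, ha, h1⟩

/-- `f` kills all triple products. -/
def Kills (A : QuadraticJordanAlgebra R J) (f : J →+ C) : Prop := ∀ a b c, f (A.tr a b c) = 0

/-- `f ∘ U a` -/
def cU (A : QuadraticJordanAlgebra R J) (f : J →+ C) (a : J) : J →+ C :=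
  f.comp (A.U a).toAddMonoidHom

lemma cU_apply (f : J →+ C) (a c : J) : cU A f a c = f (A.U a c) := rfl

lemma U_tr_eq (hdiv : A.IsDivision) {a : J} (ha : a ≠ 0) (b c d : J) :
    A.U a (A.tr b c d) = A.tr (A.U a b) (A.U (A.inv a) c) (A.U a d) := by
  rw [tr_def, tr_def, P_U_U, Module.End.mul_apply, Module.End.mul_apply, U_U_inv hdiv ha]

lemma Kills.cU (hdiv : A.IsDivision) {f : J →+ C} (hf : Kills A f) (a : J) :
    Kills A (cU A f a) := by
  intro b c d
  rw [cU_apply]
  by_cases ha : a = 0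
  · rw [ha, U_zero, LinearMap.zero_apply, map_zero]
  · rw [U_tr_eq hdiv ha]
    exact hf _ _ _

lemma Kills.U_add {f : J →+ C} (hf : Kills A f) (x y c : J) :
    f (A.U (x + y) c) = f (A.U x c) + f (A.U y c) := by
  rw [U_add', LinearMap.add_apply, LinearMap.add_apply, map_add, map_add, P_apply, hf, add_zero]

lemma Kills.split (hdiv : A.IsDivision) {f : J →+ C} (hf : Kills A f) {x y : J}
    (hs : x + y ≠ 0) (c : J) :
    f c = f (A.U (A.inv (x + y)) (A.U x c)) + f (A.U (A.inv (x + y)) (A.U y c)) := by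
  have h := (hf.cU hdiv (A.inv (x + y))).U_add x y c
  rw [cU_apply, cU_apply, cU_apply, U_inv_U hdiv hs] at h
  exact h

lemma Kills.split3 (hdiv : A.IsDivision) {f : J →+ C} (hf : Kills A f) {x y w : J}
    (hs : x + y + w ≠ 0) (c : J) :
    f c = f (A.U (A.inv (x + y + w)) (A.U x c)) + f (A.U (A.inv (x + y + w)) (A.U y c)) +
      f (A.U (A.inv (x + y + w)) (A.U w c)) := by
  have h := hf.split hdiv hs c
  have h2 := (hf.cU hdiv (A.inv (x + y + w))).U_add x y c
  rw [cU_apply, cU_apply, cU_apply] at h2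
  rw [h2] at h
  exact h

lemma Kills.U_U_U {f : J →+ C} (hf : Kills A f) (x y b c : J) :
    f (A.U x (A.U b (A.U y c))) + f (A.U y (A.U b (A.U x c))) = f (A.U (A.tr x b y) c) := by
  have h := LinearMap.congr_fun (QJ3₂ (A := A) x y b) c
  simp only [LinearMap.add_apply, Module.End.mul_apply] at h
  have h2 := congrArg f h
  rw [map_add, map_add, map_add] at h2
  have e1 : f (A.P (A.U x b) (A.U y b) c) = 0 := hf _ _ _
  have e2 : f (A.P x y (A.U b (A.P x y c))) = 0 := hf _ _ _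
  rw [e1, e2, zero_add, add_zero] at h2
  exact h2.symm

lemma tr_inv_eq_zero_iff (hdiv : A.IsDivision) {u a b : J} (hu : u ≠ 0) (ha : a ≠ 0)
    (hb : b ≠ 0) : A.tr a (A.inv u) b = 0 ↔ A.tr (A.inv a) u (A.inv b) = 0 := by
  have h := jp_inv_inv_eq_zero (isotope_isDivision hdiv hu) ha hb
  rw [isotope_jp, isotope_jp, isotope_inv hdiv hu ha, isotope_inv hdiv hu hb] at h
  rw [← h]
  have e : A.tr (A.U u (A.inv a)) (A.inv u) (A.U u (A.inv b)) =
      A.U u (A.tr (A.inv a) u (A.inv b)) := by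
    rw [U_tr_eq hdiv hu, U_inv_self hdiv hu]
  rw [e]
  constructor
  · intro h0
    by_contra h1
    exact U_ne hdiv hu h1 h0
  · intro h0
    rw [h0, map_zero]

end slopes

theorem exists_slope (h2 : ∀ a : J, a + a = 0) (hdiv : A.IsDivision) {C : Type*} [AddCommGroup C]
    (lam : J → J →+ C)
    (hT : ∀ x, x ≠ 0 → ∀ a b c, lam x (A.tr a b c) = 0)
    (hrel : ∀ x y, x ≠ 0 → y ≠ 0 → x + y ≠ 0 → ∀ c,
      lam x (A.U (A.inv (x + y)) (A.U y c)) - lam (x + y) (A.U (A.inv (x + y)) (A.U y c)) +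
        lam y c =
      lam y (A.U (A.inv (x + y)) (A.U x c)) - lam (x + y) (A.U (A.inv (x + y)) (A.U x c)) +
        lam x c)
    (hN : ∀ x, x ≠ 0 → ∃ y, A.P x y ≠ 0) :
    ∃ α : J →+ C, ∀ x y, x ≠ 0 → y ≠ 0 → ∀ c, lam x c - lam y c = α (A.U x c) - α (A.U y c) := by
  have htwo : ∀ (f : J →+ C) (c : J), f c + f c = 0 := by
    intro f c
    rw [← map_add, h2, map_zero]
  have hneg : ∀ a : J, -a = a := fun a => neg_eq_of_add_eq_zero_left (h2 a)
  let σ : J → J → (J →+ C) := fun x y =>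
    cU A (lam x) (A.inv (x + y)) + cU A (lam y) (A.inv (x + y))
  have hσ : ∀ x y c, σ x y c = lam x (A.U (A.inv (x + y)) c) + lam y (A.U (A.inv (x + y)) c) :=
    fun x y c => rfl
  have hσc : ∀ x y, σ x y = σ y x := by
    intro x y
    ext c
    rw [hσ, hσ, add_comm x y, add_comm]
  have hKl : ∀ x, x ≠ 0 → Kills A (lam x) := fun x hx => hT x hx
  have hKσ : ∀ x y, x ≠ 0 → y ≠ 0 → Kills A (σ x y) := by
    intro x y hx hy a b c
    have e1 := (hKl x hx).cU hdiv (A.inv (x + y)) a b c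
    have e2 := (hKl y hy).cU hdiv (A.inv (x + y)) a b c
    rw [cU_apply] at e1 e2
    rw [hσ, e1, e2, add_zero]
  -- (E0)
  have E0 : ∀ x y, x ≠ 0 → y ≠ 0 → x + y ≠ 0 → ∀ c,
      lam x c + lam y c = σ x y (A.U x c) + σ x y (A.U y c) := by
    intro x y hx hy hxy c
    rw [← (hKσ x y hx hy).U_add, hσ, U_inv_U hdiv hxy]
  -- (E1)
  have E1 : ∀ x y, x ≠ 0 → y ≠ 0 → x + y ≠ 0 → ∀ c,
      lam (x + y) c = lam y c + σ x y (A.U x c) := by
    intro x y hx hy hxy c
    have hr := hrel x y hx hy hxy c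
    have bx := (hKl x hx).split hdiv hxy c
    have bs := (hKl (x + y) hxy).split hdiv hxy c
    rw [hσ, bs]
    rw [bx] at hr
    have t1 := htwo (lam (x + y)) (A.U (A.inv (x + y)) (A.U y c))
    have t2 := htwo (lam y) c
    generalize lam x (A.U (A.inv (x + y)) (A.U x c)) = lxx at *
    generalize lam x (A.U (A.inv (x + y)) (A.U y c)) = lxy at *
    generalize lam y (A.U (A.inv (x + y)) (A.U x c)) = lyx at *
    generalize lam (x + y) (A.U (A.inv (x + y)) (A.U x c)) = lsx at *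
    generalize lam (x + y) (A.U (A.inv (x + y)) (A.U y c)) = lsy at *
    generalize lam y c = ly0 at *
    have e : lsx + lsy - (ly0 + (lxx + lyx)) = (lxy - lsy + ly0) -
      (lyx - lsx + (lxx + lxy)) + (lsy + lsy) - (ly0 + ly0) := by abel
    rw [hr, t1, t2] at e
    rw [← sub_eq_zero, e]
    abel
  have E1' : ∀ x y, x ≠ 0 → y ≠ 0 → x + y ≠ 0 → ∀ c,
      lam (x + y) c = lam x c + σ x y (A.U y c) := by
    intro x y hx hy hxy c
    have := E1 y x hy hx (by rwa [add_comm]) c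
    rw [add_comm y x, hσc y x] at this
    exact this
  -- (E2)
  have E2 : ∀ x y w, x ≠ 0 → y ≠ 0 → w ≠ 0 → x + y ≠ 0 → y + w ≠ 0 → x + y + w ≠ 0 → ∀ c,
      σ x y (A.U x (A.U (A.inv (x + y + w)) (A.U y c))) +
        σ x y (A.U y (A.U (A.inv (x + y + w)) (A.U x c))) +
        (σ y w (A.U y (A.U (A.inv (x + y + w)) (A.U w c))) +
        σ y w (A.U w (A.U (A.inv (x + y + w)) (A.U y c)))) = 0 := by
    intro x y w hx hy hw hxy hyw hs c
    have hs' : x + (y + w) ≠ 0 := by rwa [← add_assoc]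
    have a1 := E1' (x + y) w hxy hw hs c
    rw [hσ] at a1
    have a2 := E1 x y hx hy hxy c
    have a3 := E1 x y hx hy hxy (A.U (A.inv (x + y + w)) (A.U w c))
    have a4 := E0 y w hy hw hyw (A.U (A.inv (x + y + w)) (A.U w c))
    have b1 := E1 x (y + w) hx hyw hs' c
    rw [hσ, ← add_assoc] at b1
    have b2 := E1' y w hy hw hyw c
    have b3 := E1' y w hy hw hyw (A.U (A.inv (x + y + w)) (A.U x c))
    have b4 := E0 x y hx hy hxy (A.U (A.inv (x + y + w)) (A.U x c))
    have c1 := ((hKσ x y hx hy).cU hdiv x).split3 hdiv hs c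
    have c2 := ((hKσ y w hy hw).cU hdiv w).split3 hdiv hs c
    simp only [cU_apply] at c1 c2
    have t1 := htwo (σ x y) (A.U x (A.U (A.inv (x + y + w)) (A.U w c)))
    have t2 := htwo (σ y w) (A.U w (A.U (A.inv (x + y + w)) (A.U x c)))
    have t3 := htwo (σ x y) (A.U x (A.U (A.inv (x + y + w)) (A.U y c)))
    have t4 := htwo (σ y w) (A.U y (A.U (A.inv (x + y + w)) (A.U w c)))
    rw [a2, a3, c1] at a1
    rw [b2, b3, c2] at b1
    rw [b1] at a1
    have a1' := sub_eq_zero.mpr a1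
    have a4' := sub_eq_zero.mpr a4
    have b4' := sub_eq_zero.mpr b4
    generalize σ x y (A.U x (A.U (A.inv (x + y + w)) (A.U y c))) = v1 at *
    generalize σ x y (A.U y (A.U (A.inv (x + y + w)) (A.U x c))) = v2 at *
    generalize σ x y (A.U x (A.U (A.inv (x + y + w)) (A.U w c))) = v3 at *
    generalize σ x y (A.U x (A.U (A.inv (x + y + w)) (A.U x c))) = v4 at *
    generalize σ y w (A.U y (A.U (A.inv (x + y + w)) (A.U w c))) = v5 at *
    generalize σ y w (A.U w (A.U (A.inv (x + y + w)) (A.U y c))) = v6 at *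
    generalize σ y w (A.U w (A.U (A.inv (x + y + w)) (A.U w c))) = v7 at *
    generalize σ y w (A.U w (A.U (A.inv (x + y + w)) (A.U x c))) = v8 at *
    generalize lam y (A.U (A.inv (x + y + w)) (A.U w c)) = l1 at *
    generalize lam w (A.U (A.inv (x + y + w)) (A.U w c)) = l2 at *
    generalize lam x (A.U (A.inv (x + y + w)) (A.U x c)) = l3 at *
    generalize lam y (A.U (A.inv (x + y + w)) (A.U x c)) = l4 at *
    generalize lam y c = l5 at *
    have e : v1 + v2 + (v5 + v6) =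
        (l5 + (v8 + v6 + v7) + (l3 + (l4 + v8)) - (l5 + (v4 + v1 + v3) + (l1 + v3 + l2))) -
        (l3 + l4 - (v4 + v2)) + (l1 + l2 - (v5 + v7)) - (v8 + v8) + (v3 + v3) + (v1 + v1) +
        (v5 + v5) := by abel
    rw [e, a4', b4', t1, t2, t3, t4, a1']
    abel
  -- facts on `s`
  have hP0 : ∀ x y, A.P x y ≠ 0 → x ≠ 0 ∧ y ≠ 0 ∧ x + y ≠ 0 := by
    intro x y hP
    refine ⟨?_, ?_, ?_⟩
    · rintro rfl; exact hP (P_zero_left _)
    · rintro rfl; exact hP (P_zero_right _)
    · intro h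
      apply hP
      have hxy : x = y := by
        rw [← hneg y]; exact eq_neg_of_add_eq_zero_left h
      rw [hxy, P_self]
      ext c
      rw [LinearMap.add_apply, h2]; rfl
  -- the key step
  have hkey : ∀ x y w, A.P x y ≠ 0 → A.tr x (A.inv y) w ≠ 0 → σ x y = σ y w := by
    intro x y w hP hw'
    obtain ⟨hx, hy, hxy⟩ := hP0 x y hP
    have hw : w ≠ 0 := by
      rintro rfl; exact hw' (tr_zero_right _ _)
    have hyw : y + w ≠ 0 := by
      intro h
      apply hw'
      have hwy : w = y := by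
        rw [← hneg y]; exact eq_neg_of_add_eq_zero_right h
      rw [hwy, tr_comm, tr_inv_self hdiv hy, h2]
    have hs : x + y + w ≠ 0 := by
      intro h
      apply hw'
      have hwy : w = x + y := by
        rw [← hneg (x + y)]; exact eq_neg_of_add_eq_zero_right h
      rw [hwy, tr_add_right, tr_self, h2, zero_add, tr_comm, tr_inv_self hdiv hy, h2]
    set b : J := A.inv (x + y + w) with hb
    have z1 : A.tr x b y = A.tr y b w := by
      have h := tr_inv_self hdiv hs y
      rw [h2, tr_comm, tr_add_right, tr_add_right, tr_self, h2, add_zero] at h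
      rw [tr_comm x b y]
      have h3 := eq_neg_of_add_eq_zero_left h
      rw [hneg] at h3
      exact h3
    have z2 : A.tr y b w = A.tr x b w := by
      have h := tr_inv_self hdiv hs w
      rw [h2, tr_comm, tr_add_right, tr_add_right, tr_self, h2, add_zero] at h
      rw [tr_comm y b w, tr_comm x b w]
      have h3 := eq_neg_of_add_eq_zero_right h
      rw [hneg] at h3
      exact h3
    have hz : A.tr x b y ≠ 0 := by
      intro h0
      rw [z1, z2, hb, tr_inv_eq_zero_iff hdiv hs hx hw] at h0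
      rw [tr_add_mid, tr_add_mid] at h0
      have e1 : A.tr (A.inv x) x (A.inv w) = 0 := by
        have := tr_inv_self hdiv (inv_ne hdiv hx) (A.inv w)
        rw [inv_inv' hdiv hx, h2] at this
        exact this
      have e2 : A.tr (A.inv x) w (A.inv w) = 0 := by
        have := tr_inv_self hdiv (inv_ne hdiv hw) (A.inv x)
        rw [inv_inv' hdiv hw, h2, tr_comm] at this
        exact this
      rw [e1, e2, zero_add, add_zero, ← tr_inv_eq_zero_iff hdiv hy hx hw] at h0
      exact hw' h0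
    ext c'
    obtain ⟨c, hc⟩ := (hdiv.2 _ hz).2 c'
    have hE := E2 x y w hx hy hw hxy hyw hs c
    rw [(hKσ x y hx hy).U_U_U, (hKσ y w hy hw).U_U_U, ← hb, ← z1] at hE
    change A.U (A.tr x b y) c = c' at hc
    rw [hc] at hE
    have t := htwo (σ y w) c'
    exact add_right_cancel (hE.trans t.symm)
  have htr : ∀ x y, A.P x y ≠ 0 → ∃ w, A.V2 x (A.inv y) w ≠ 0 := by
    intro x y hP
    obtain ⟨hx, hy, hxy⟩ := hP0 x y hP
    by_contra! hall
    apply hP
    rw [P_eq_V2_mul hdiv hy]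
    have : A.V2 x (A.inv y) = 0 := LinearMap.ext hall
    rw [this, zero_mul]
  have hstep : ∀ x x' y, A.P x y ≠ 0 → A.P x' y ≠ 0 → σ x y = σ x' y := by
    intro x x' y h1 h3
    obtain ⟨w, hw1, hw2⟩ := exists_both_ne (A.V2 x (A.inv y)).toAddMonoidHom
      (A.V2 x' (A.inv y)).toAddMonoidHom (htr x y h1) (htr x' y h3)
    rw [hkey x y w h1 hw1, hkey x' y w h3 hw2]
  have hmid : ∀ x y, x ≠ 0 → y ≠ 0 → ∃ w, A.P x w ≠ 0 ∧ A.P y w ≠ 0 := by
    intro x y hx hy
    let f : J → (J →+ Module.End R J) := fun x =>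
      { toFun := fun w => A.P x w
        map_zero' := P_zero_right x
        map_add' := fun a b => P_add_right x a b }
    exact exists_both_ne (f x) (f y) (hN x hx) (hN y hy)
  obtain ⟨y0, hy0⟩ := hN A.one hdiv.1
  have hall : ∀ x y, A.P x y ≠ 0 → σ x y = σ A.one y0 := by
    intro x y hP
    obtain ⟨hx, hy, hxy⟩ := hP0 x y hP
    obtain ⟨-, hy0', -⟩ := hP0 _ _ hy0
    obtain ⟨w, hw1, hw2⟩ := hmid y y0 hy hy0'
    have hw1' : A.P w y ≠ 0 := by rwa [P_comm]
    have hw2' : A.P w y0 ≠ 0 := by rwa [P_comm]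
    rw [hstep x w y hP hw1', hσc w y, hstep y y0 w hw1 hw2, hσc y0 w, hstep w A.one y0 hw2' hy0]
  refine ⟨σ A.one y0, ?_⟩
  intro x y hx hy c
  obtain ⟨w, hw1, hw2⟩ := hmid x y hx hy
  obtain ⟨-, hw, hxw⟩ := hP0 _ _ hw1
  obtain ⟨-, -, hyw⟩ := hP0 _ _ hw2
  have e1 := E0 x w hx hw hxw c
  have e2 := E0 y w hy hw hyw c
  rw [hall x w hw1] at e1
  rw [hall y w hw2] at e2
  have e3 : lam x c - lam y c = (lam x c + lam w c) - (lam y c + lam w c) := by abel
  rw [e3, e1, e2]
  abel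

end Pool.Agent.Helper4.Jordan.QuadraticJordanAlgebra
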