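import Pool.Agent.Helper36.St.Inv

/-! Characteristic 2, vanishing Jordan product. -/

namespace Pool.Agent.Helper4.Jordan.QuadraticJordanAlgebra

open QuadraticMap

variable {R J : Type*} [CommRing R] [AddCommGroup J] [Module R J]
  {A : QuadraticJordanAlgebra R J}

/-- BLOCK VZERO. Proof: `V_mul_V`: `V2 a b = P a b` (signs irrelevant), so `τ(a,b,c) = {a,b,c}` is
symmetric. `QJ2' a d b 1`: `{d,b,a²} = 0`. `U_jp`: `U a U d + U d U a = P (U a d) d`, so applied to
`b²` it is `{U a d, b², d} = 0`. `t = {a,b,d}`: `QJ3₂ a d b` applied to 1: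
`t² = U_a U_b d² + U_d U_b a²`, and by symmetry also `= U_a U_d b² + U_b U_d a² = U_b U_a d² + U_d U_a b²`;
the sum of the three is `t² = 0`, so `t = 0`. Hence `P = 0`, all `U` commute. -/
theorem isCK_univ_of_V_zero (h2 : ∀ a : J, a + a = 0) (hdiv : A.IsDivision)
    (hV : ∀ a, A.V a = 0) : A.IsCK Set.univ := by
  have hneg : ∀ a : J, -a = a := fun a => neg_eq_of_add_eq_zero_left (h2 a)
  have hneg' : ∀ T : Module.End R J, -T = T := fun T =>
    LinearMap.ext fun x => by rw [LinearMap.neg_apply, hneg]
  have hjp : ∀ a b : J, A.jp a b = 0 := fun a b => by rw [← V_apply, hV]; rfl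
  have hsym : ∀ a b c : J, A.tr a b c = A.tr a c b := by
    intro a b c
    have h := V_mul_V hdiv a b
    rw [hV, zero_mul] at h
    have h1 : A.V2 a b = A.P a b := by
      rw [eq_neg_of_add_eq_zero_left h.symm, hneg']
    have h3 := LinearMap.congr_fun h1 c
    rwa [V2_apply, P_apply] at h3
  have hsq : ∀ a b d : J, A.tr d b (A.U a A.one) = 0 := by
    intro a b d
    have h := QJ2' (A := A) a d b A.one
    rw [tr_one_mid, tr_one_right, tr_one_right, hjp, hjp, hjp, tr_zero_right, tr_zero_mid, map_zero, add_zero,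
      add_zero] at h
    exact h
  have hUU : ∀ g y : J, A.U g * A.U y + A.U y * A.U g = A.P (A.U g y) y := by
    intro g y
    have h := U_jp (A := A) g y
    rw [hjp, U_zero, hV, mul_zero, add_zero] at h
    exact sub_eq_zero.1 h.symm
  have hcom : ∀ g y b : J, A.U g (A.U y (A.U b A.one)) = A.U y (A.U g (A.U b A.one)) := by
    intro g y b
    have h := LinearMap.congr_fun (hUU g y) (A.U b A.one)
    rw [P_apply, hsym, hsq, LinearMap.add_apply, Module.End.mul_apply, Module.End.mul_apply] at h
    rw [eq_neg_of_add_eq_zero_left h, hneg]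
  have hT : ∀ a b d : J, A.U (A.tr a b d) A.one =
      A.U a (A.U b (A.U d A.one)) + A.U d (A.U b (A.U a A.one)) := by
    intro a b d
    have h := LinearMap.congr_fun (QJ3₂ (A := A) a d b) A.one
    simp only [LinearMap.add_apply, Module.End.mul_apply, P_apply, tr_one_mid, hjp, map_zero,
      add_zero, zero_add] at h
    exact h
  have htr : ∀ a b d : J, A.tr a b d = 0 := by
    intro a b d
    apply eq_zero_of_U hdiv hdiv.1
    have e1 := hT a b d
    have e2 := hT b a d
    have e3 := hT a d b
    have s2 : A.tr b a d = A.tr a b d := by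
      rw [tr_comm b a d, hsym d a b, tr_comm d b a]
    rw [s2] at e2
    rw [← hsym] at e3
    have e4 : A.U (A.tr a b d) A.one = A.U (A.tr a b d) A.one + A.U (A.tr a b d) A.one +
        A.U (A.tr a b d) A.one := by rw [h2, zero_add]
    rw [e4]
    nth_rewrite 1 [e1]
    nth_rewrite 1 [e2]
    rw [e3, hcom b a d, hcom d b a, hcom d a b]
    have : ∀ x y z : J, x + y + (x + z) + (z + y) = 0 := by
      intro x y z
      have : x + y + (x + z) + (z + y) = (x + x) + (y + y) + (z + z) := by abel
      rw [this, h2 x, h2 y, h2 z, add_zero, add_zero]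
    exact this _ _ _
  have hP : ∀ a b : J, A.P a b = 0 := fun a b => LinearMap.ext fun c => by
    rw [P_apply, htr]; rfl
  refine ⟨⟨fun a _ b _ => ?_, fun a _ b _ c _ => ?_, fun a _ b _ c _ d _ => ?_⟩, Set.mem_univ _,
    fun _ _ _ _ => Set.mem_univ _, fun _ _ => Set.mem_univ _, fun _ _ _ => Set.mem_univ _⟩
  · have h := hUU a b
    rw [hP] at h
    show A.U a * A.U b = A.U b * A.U a
    rw [eq_neg_of_add_eq_zero_left h, hneg']
  · rw [hP]; exact Commute.zero_right _
  · rw [hP]; exact Commute.zero_left _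

end Pool.Agent.Helper4.Jordan.QuadraticJordanAlgebra
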