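import Pool.Agent.Helper36.St.P2b
import Pool.Agent.Helper36.St.Slopes
import Pool.Agent.Helper36.St.VZero

/-! Characteristic 2: the invariant retraction. -/

namespace Pool.Agent.Helper4.Jordan.QuadraticJordanAlgebra

open QuadraticMap

variable {R J : Type*} [CommRing R] [AddCommGroup J] [Module R J]
  {A : QuadraticJordanAlgebra R J}

namespace P2c

variable {E : Type*} [AddCommGroup E] (S : Sys A E)

/-- the difference `r ∘ W x - r` as a map to the kernel -/
def pre {l : Set J} {r : E →+ E} (hr : S.IsRet l r) (x : J) : E →+ S.π.ker :=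
  AddMonoidHom.mk' (fun e => ⟨r (S.W x e) - r e, by
    rw [AddMonoidHom.mem_ker, map_sub, hr.ker, hr.ker, sub_zero]⟩)
    (fun a b => by
      apply Subtype.ext
      show r (S.W x (a + b)) - r (a + b) = (r (S.W x a) - r a) + (r (S.W x b) - r b)
      rw [map_add, map_add, map_add]; abel)

/-- the cocycle -/
noncomputable def lam {l : Set J} {r : E →+ E} (hr : S.IsRet l r) (x : J) : J →+ S.π.ker :=
  S.π.liftOfSurjective S.surj ⟨pre S hr x, by
    intro e he
    rw [AddMonoidHom.mem_ker] at he ⊢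
    apply Subtype.ext
    show r (S.W x e) - r e = 0
    rw [Sys.W, S.triv _ _ he, sub_self]⟩

lemma lam_π {l : Set J} {r : E →+ E} (hr : S.IsRet l r) (x : J) (e : E) :
    (lam S hr x (S.π e) : E) = r (S.W x e) - r e := by
  have h := AddMonoidHom.liftOfRightInverse_comp_apply S.π (Function.surjInv S.surj)
    (Function.rightInverse_surjInv S.surj) ⟨pre S hr x, by
    intro e he
    rw [AddMonoidHom.mem_ker] at he ⊢
    apply Subtype.ext
    show r (S.W x e) - r e = 0
    rw [Sys.W, S.triv _ _ he, sub_self]⟩ e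
  exact congrArg Subtype.val h

end P2c

/-- BLOCK P2C. Proof: if `P x · = 0` for some `x ≠ 0`, then in the isotope at `x` `V = 0`, so
`isCK_univ_of_V_zero` and `isLine_of_isCK`, `exists_isRet` with `l = univ` (`Trip` from
`exists_line2`). Otherwise take a line `K ∋ one` with retraction `r`;
`lam x c = r (W x e) - r e`, `e` over `c`. `P2b` (for `K` and its images `IsLine.image`, `isRet_map`)
gives `lam x {a,b,c} = 0`. `hrel`: `U_x U_{x+y}⁻¹ U_y = U_y U_{x+y}⁻¹ U_x` (`U_add_eq` both ways) in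
`S.G`. With `α` from `exists_slope` (at `y = one`, `lam one = 0`): `lam x c = α (U x c) - α c`, and
`r - α ∘ π` is the wanted retraction (`α` takes values in `E`; make them lie in `ker π`: take
`C = S.π.ker`). -/
theorem exists_ret2 (h2 : ∀ a : J, a + a = 0) (hdiv : A.IsDivision) (hbig : Big J 4)
    {E : Type*} [AddCommGroup E] (S : Sys A E) : ∃ r, S.IsRet Set.univ r := by
  obtain ⟨K, hK, h1, -⟩ := exists_line2 h2 hdiv hbig hdiv.1 A.one
  by_cases hN : ∀ x : J, x ≠ 0 → ∃ y, A.P x y ≠ 0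
  swap
  · push Not at hN
    obtain ⟨x, hx, hP⟩ := hN
    have hV : ∀ a, (isotope hdiv hx).V a = 0 := by
      intro a
      rw [V_def, isotope_P, isotope_one, P_comm, hP, zero_mul]
    have hck := isCK_univ_of_V_zero (A := isotope hdiv hx) h2 (isotope_isDivision hdiv hx) hV
    obtain ⟨f, -, g, -, h, -, ht⟩ := hK.trip
    have hl : IsLine hdiv Set.univ := isLine_of_isCK hdiv hx hck
      ⟨f, Set.mem_univ _, g, Set.mem_univ _, h, Set.mem_univ _, ht⟩
    exact S.exists_isRet hdiv hl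
  obtain ⟨r, hr⟩ := S.exists_isRet hdiv hK
  have hπW : ∀ x, x ≠ 0 → ∀ e, S.π (S.W x e) = A.U x (S.π e) := fun x hx e => S.π_W hx e
  have hT : ∀ x, x ≠ 0 → ∀ a b c, P2c.lam S hr x (A.tr a b c) = 0 := by
    intro x hx a b c
    obtain ⟨e, he⟩ := S.surj (A.tr a b c)
    rw [← he]
    apply Subtype.ext
    rw [P2c.lam_π]
    have h3 := S.isRet_map hdiv hr (S.w x)⁻¹
    have h4 := hK.image hdiv S (S.w x)⁻¹
    have h5 := P2b S h2 hdiv hbig h4 hK h3 hr he
    rw [inv_inv] at h5
    have h6 : r (S.W x e) = r e := h5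
    rw [h6, sub_self]; rfl
  have hrel : ∀ x y, x ≠ 0 → y ≠ 0 → x + y ≠ 0 → ∀ c,
      P2c.lam S hr x (A.U (A.inv (x + y)) (A.U y c)) -
        P2c.lam S hr (x + y) (A.U (A.inv (x + y)) (A.U y c)) + P2c.lam S hr y c =
      P2c.lam S hr y (A.U (A.inv (x + y)) (A.U x c)) -
        P2c.lam S hr (x + y) (A.U (A.inv (x + y)) (A.U x c)) + P2c.lam S hr x c := by
    intro x y hx hy hxy c
    obtain ⟨e, rfl⟩ := S.surj c
    have hp : ∀ z, z ≠ 0 → S.π (S.ρ (S.w (x + y))⁻¹ (S.W z e)) =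
        A.U (A.inv (x + y)) (A.U z (S.π e)) := by
      intro z hz
      rw [S.equi, S.w_inv_apply hdiv hxy, hπW z hz]
    have hs : ∀ e, S.W (x + y) (S.ρ (S.w (x + y))⁻¹ e) = e := fun e => S.ρ_apply_inv _ e
    have hG : S.w x * (S.w (x + y))⁻¹ * S.w y = S.w y * (S.w (x + y))⁻¹ * S.w x := by
      apply S.ext_G
      intro z
      simp only [S.mul_apply, S.w_inv_apply hdiv hxy, S.hw x hx, S.hw y hy]
      have key : ∀ {x y : J}, x ≠ 0 → y ≠ 0 → x + y ≠ 0 → ∀ z,
          A.U x (A.U (A.inv (x + y)) (A.U y z)) =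
            A.U (A.inv (A.inv y + A.inv x)) z := by
        intro x y hx hy hxy z
        have hyx : y + x ≠ 0 := by rwa [add_comm]
        have hne := inv_add_inv_ne hdiv hy hx hyx
        apply U_inj hdiv hne
        rw [U_U_inv hdiv hne]
        apply U_inj hdiv hy
        have h3 : ∀ w, A.U y (A.U (A.inv y + A.inv x) (A.U x w)) = A.U (y + x) w := by
          intro w
          rw [U_add_eq hdiv hy hx]; rfl
        rw [h3, add_comm y x, U_U_inv hdiv hxy]
      have hyx : y + x ≠ 0 := by rwa [add_comm]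
      rw [key hx hy hxy, add_comm x y, key hy hx hyx, add_comm (A.inv y)]
    have hGe : S.W x (S.ρ (S.w (x + y))⁻¹ (S.W y e)) =
        S.W y (S.ρ (S.w (x + y))⁻¹ (S.W x e)) := by
      simp only [Sys.W, ← S.ρ_mul, ← mul_assoc]
      rw [hG]
    apply Subtype.ext
    simp only [AddSubgroup.coe_add, AddSubgroup.coe_sub]
    rw [← hp y hy, ← hp x hx]
    simp only [P2c.lam_π, hs]
    rw [hGe]
    abel
  obtain ⟨α, hα⟩ := exists_slope h2 hdiv (P2c.lam S hr) hT hrel hN
  have hlam : ∀ x, x ≠ 0 → ∀ e, r (S.W x e) - r e = α (A.U x (S.π e)) - α (S.π e) := by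
    intro x hx e
    have h3 := congrArg Subtype.val (hα x A.one hx hdiv.1 (S.π e))
    simp only [AddSubgroup.coe_sub] at h3
    rw [P2c.lam_π, P2c.lam_π, S.W_one hdiv, sub_self, sub_zero, U_one'] at h3
    exact h3
  set r' : E →+ E := r - (S.π.ker.subtype.comp (α.comp S.π)) with hr'
  have hr'a : ∀ e, r' e = r e - α (S.π e) := fun e => rfl
  have hW : ∀ x, x ≠ 0 → ∀ e, r' (S.W x e) = r' e := by
    intro x hx e
    rw [hr'a, hr'a, hπW x hx]
    have h3 := hlam x hx e
    rw [sub_eq_sub_iff_sub_eq_sub]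
    exact h3
  refine ⟨r', ⟨fun e => ?_, fun e he => ?_, fun a _ b _ ha hb e => ?_⟩⟩
  · rw [hr'a, map_sub, hr.ker, zero_sub, neg_eq_zero]
    exact (α (S.π e)).2
  · rw [hr'a, he, map_zero, hr.id e he]
    simp
  · have h3 : S.WW a b e = S.W a (S.ρ (S.w b)⁻¹ e) := by
      rw [Sys.WW, S.ρ_mul]; rfl
    rw [h3, hW a ha, ← hW b hb (S.ρ (S.w b)⁻¹ e)]
    have h4 : S.W b (S.ρ (S.w b)⁻¹ e) = e := S.ρ_apply_inv _ e
    rw [h4]

end Pool.Agent.Helper4.Jordan.QuadraticJordanAlgebra
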