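import Pool.Agent.Helper36.St.Act

/-! Perfectness of the Steinberg group. -/

namespace Pool.Agent.Helper4.Jordan.QuadraticJordanAlgebra

open QuadraticMap

variable {R J : Type*} [CommRing R] [AddCommGroup J] [Module R J]
  {A : QuadraticJordanAlgebra R J}

open scoped commutatorElement in
/-- BLOCK PERF. Proof: let `c : St → St/[St,St]` be the abelianisation. `h_b = w_b w_1⁻¹` conjugates
`x_+(a)` to `x_+(U_b a)`, so `c (x_+ (U_b a)) = c (x_+ a)` for `b ≠ 0`. `a ↦ c (x_+ a)` is additive and
`U_{f+g+h} - U_{f+g} - U_{f+h} - U_{g+h} + U_f + U_g + U_h = 0`, so `c (x_+ a) = 1`; `x_-(a)` is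
conjugate to `x_+(a)` by `w_1` (`rel`, `U_one`). `closure_x`. -/
theorem perfect_of_trip (hdiv : A.IsDivision) {f g h : J} (ht : Trip f g h) :
    commutator A.St = ⊤ := by
  obtain ⟨t1, t2, t3, t4, t5, t6, t7⟩ := ht
  let c : A.St →* Abelianization A.St := Abelianization.of
  have hc : ∀ {b : J}, b ≠ 0 → ∀ a, c (A.x true (A.U b a)) = c (A.x false a) := by
    intro b hb a
    rw [← rel hb a, map_mul, map_mul, map_inv, mul_comm (c (A.w b)), mul_inv_cancel_right]
  have hone : ∀ a, c (A.x true a) = c (A.x false a) := by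
    intro a
    have := hc hdiv.1 a
    rwa [A.U_one, Module.End.one_apply] at this
  have hU : ∀ {b : J}, b ≠ 0 → ∀ a, c (A.x true (A.U b a)) = c (A.x true a) := by
    intro b hb a
    rw [hc hb, hone]
  have hx : ∀ a, c (A.x true a) = 1 := by
    intro a
    have e : A.U (f + g + h) a + A.U f a + A.U g a + A.U h a =
        A.U (f + g) a + A.U (f + h) a + A.U (g + h) a := by
      simp only [U_add', P_add_left, LinearMap.add_apply]
      abel
    have e2 := congrArg (fun z => c (A.x true z)) e
    simp only [x_add, map_mul] at e2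
    rw [hU t7, hU t1, hU t2, hU t3, hU t4, hU t5, hU t6] at e2
    have e3 : c (A.x true a) * (c (A.x true a) * c (A.x true a) * c (A.x true a)) =
        1 * (c (A.x true a) * c (A.x true a) * c (A.x true a)) := by
      rw [one_mul, ← mul_assoc, ← mul_assoc]
      exact e2
    exact mul_right_cancel e3
  have hgen : ∀ (σ : Bool) (a : J), c (A.x σ a) = 1 := by
    intro σ a
    cases σ
    · rw [← hone, hx]
    · exact hx a
  have hker : c.ker = ⊤ := by
    rw [eq_top_iff, ← closure_x (A := A), Subgroup.closure_le]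
    rintro _ ⟨p, rfl⟩
    exact hgen p.1 p.2
  rw [← hker]
  exact (Abelianization.ker_of _).symm

end Pool.Agent.Helper4.Jordan.QuadraticJordanAlgebra
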