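import Pool.Agent.Helper36.St.P3
import Pool.Agent.Helper36.St.P2c
import Pool.Agent.Helper36.St.Card
import Pool.Agent.Helper36.St.Forms
import Pool.Agent.Helper36.St.Perf
import Pool.Agent.Helper36.St.Bridge
import Pool.Agent.Helper36.St.Small
import Pool.Agent.Helper4.Jordan.Scalar

/-! Steinberg groups of division Jordan algebras are centrally closed. -/

namespace Pool.Agent.Helper4.Jordan.QuadraticJordanAlgebra

open QuadraticMap

variable {R J : Type*} [CommRing R] [AddCommGroup J] [Module R J]
  {A : QuadraticJordanAlgebra R J}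

universe v w

lemma exists_trip2 (h2 : ∀ a : J, a + a = 0) (hbig : Big J 4) :
    ∃ f g h : J, Trip f g h := by
  classical
  obtain ⟨f, hf⟩ := hbig {0} (by simp)
  obtain ⟨g, hg⟩ := hbig {0, f} (Finset.card_le_two.trans (by norm_num))
  obtain ⟨h, hh⟩ := hbig {0, f, g, f + g} (Finset.card_le_four)
  simp only [Finset.mem_insert, Finset.mem_singleton, not_or] at hf hg hh
  have e : ∀ {a b : J}, a + b = 0 → b = a := by
    intro a b h
    rw [← add_right_inj a, h, h2]
  refine ⟨f, g, h, hf, hg.1, hh.1, fun h' => hg.2 (e h'), fun h' => hh.2.1 (e h'),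
    fun h' => hh.2.2.1 (e h'), fun h' => hh.2.2.2 (e h')⟩

lemma exists_trip3 (h3 : ∀ a : J, a + a + a = 0) (hbig : Big J 3) :
    ∃ f g h : J, Trip f g h := by
  classical
  obtain ⟨f, hf⟩ := hbig {0} (by simp)
  obtain ⟨x, hx⟩ := hbig {0, f, -f} (Finset.card_le_three)
  simp only [Finset.mem_insert, Finset.mem_singleton, not_or] at hf hx
  exact ⟨f, f, x, trip3 h3 hf hx.1 hx.2.1 hx.2.2⟩

/-- if `n • one = 0` for `n = 2, 3` then `n • a = 0` -/
lemma two_torsion (hdiv : A.IsDivision) (h : A.one + A.one = 0) (a : J) : a + a = 0 := by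
  have h1 : ∀ b : J, b + b + b + b = 0 := by
    intro b
    have h2 : A.U (A.one + A.one) b = 0 := by rw [h, U_zero]; rfl
    rw [U_add', P_self, U_one'] at h2
    simp only [LinearMap.add_apply, Module.End.one_apply] at h2
    rw [← h2]; abel
  by_contra ha
  apply ha
  apply eq_zero_of_U hdiv hdiv.1
  rw [U_add', P_self]
  simp only [LinearMap.add_apply]
  rw [← h1 (A.U a A.one)]; abel

lemma three_torsion (hdiv : A.IsDivision) (h : A.one + A.one + A.one = 0) (a : J) :
    a + a + a = 0 := by
  have h1 : ∀ b : J, (9 : ℕ) • b = 0 := by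
    intro b
    have h2 : A.U (A.one + A.one + A.one) b = 0 := by rw [h, U_zero]; rfl
    rw [U_add', U_add', P_add_left, P_self, U_one'] at h2
    simp only [LinearMap.add_apply, Module.End.one_apply] at h2
    rw [← h2]; abel
  apply eq_zero_of_U hdiv hdiv.1
  rw [U_add', U_add', P_add_left, P_self]
  simp only [LinearMap.add_apply]
  rw [← h1 (A.U a A.one)]; abel

/-- BLOCK FINAL. -/
theorem centrallyClosed_all {R : Type*} {J : Type w} [CommRing R] [AddCommGroup J] [Module R J]
    (A : QuadraticJordanAlgebra R J) (hdiv : A.IsDivision)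
    (hJ : ∀ q ∈ ({2, 3, 4, 9} : Set ℕ), ¬ A.IsoFq q) : IsCentrallyClosed.{w, v} A.St := by
  by_cases hR : 4 ≤ (Set.range fun r : R => r • A.one).encard
  · exact centrallyClosed A hdiv hR (hJ 4 (by simp)) (hJ 9 (by simp))
  -- two of `0, 1, 2, 3` times `one` coincide
  have hn : A.one + A.one = 0 ∨ A.one + A.one + A.one = 0 := by
    by_contra hcon
    push Not at hcon
    apply hR
    have hinj : Function.Injective (fun i : Fin 4 => (i : ℕ) • A.one) := by
      have d1 : (1 : ℕ) • A.one ≠ 0 := by rw [one_nsmul]; exact hdiv.1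
      have d2 : (2 : ℕ) • A.one ≠ 0 := by rw [two_nsmul]; exact hcon.1
      have d3 : (3 : ℕ) • A.one ≠ 0 := by
        rw [show (3 : ℕ) = 2 + 1 from rfl, add_nsmul, two_nsmul, one_nsmul]; exact hcon.2
      have key : ∀ m n : ℕ, m < n → n < 4 → m • A.one ≠ n • A.one := by
        intro m n hmn hn h
        have h' : (n - m) • A.one = 0 := by
          have : n = (n - m) + m := by omega
          rw [this, add_nsmul] at h
          simpa using h.symm
        have : n - m = 1 ∨ n - m = 2 ∨ n - m = 3 := by omega
        rcases this with h1 | h1 | h1 <;> rw [h1] at h'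
        · exact d1 h'
        · exact d2 h'
        · exact d3 h'
      intro i j hij
      rcases lt_trichotomy (i : ℕ) (j : ℕ) with h | h | h
      · exact absurd hij (key _ _ h j.2)
      · exact Fin.ext h
      · exact absurd hij.symm (key _ _ h i.2)
    have h4 : (Set.range (fun i : Fin 4 => (i : ℕ) • A.one)).encard = 4 := by
      rw [← Set.image_univ, hinj.encard_image, Set.encard_univ]
      simp
    rw [← h4]
    apply Set.encard_le_encard
    rintro _ ⟨i, rfl⟩
    exact ⟨((i : ℕ) : R), Nat.cast_smul_eq_nsmul R _ _⟩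
  rcases hn with hn | hn
  · have h2 := two_torsion hdiv hn
    have hbig : Big J 4 := by
      by_contra hb
      rcases small2 h2 hdiv hb with h | h
      · exact hJ 2 (by simp) h
      · exact hJ 4 (by simp) h
    obtain ⟨f, g, h, ht⟩ := exists_trip2 h2 hbig
    refine centrallyClosed_of_ret hdiv (perfect_of_trip hdiv ht) ?_
      fun E _ S => exists_ret2 h2 hdiv hbig S
    intro C _ f hf a b
    rcases card2 h2 hdiv hbig with hK | hb
    · exact form_vanish_of_comm2 h2 hdiv hK hbig hf a b
    · obtain ⟨q, hq⟩ := exists_quint2 h2 hb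
      exact form_vanish_of_quint hf hq a b
  · have h3 := three_torsion hdiv hn
    have hbig : Big J 9 := by
      by_contra hb
      rcases small3 h3 hdiv hb with h | h
      · exact hJ 3 (by simp) h
      · exact hJ 9 (by simp) h
    obtain ⟨f, g, h, ht⟩ := exists_trip3 h3 (hbig.mono (by norm_num))
    refine centrallyClosed_of_ret hdiv (perfect_of_trip hdiv ht) ?_ ?_
    · intro C _ f hf a b
      obtain ⟨q, hq⟩ := exists_quint3 h3 hbig
      exact form_vanish_of_quint hf hq a b
    · intro E _ S
      rcases card3 h3 hdiv hbig with hK | hb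
      · have hl : IsLine hdiv (Set.univ : Set J) := isLine_of_isCK_one hdiv hK
          ⟨f, Set.mem_univ _, g, Set.mem_univ _, h, Set.mem_univ _, ht⟩
        exact S.exists_isRet hdiv hl
      · exact exists_ret3 h3 hdiv hb S

end Pool.Agent.Helper4.Jordan.QuadraticJordanAlgebra
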