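import Pool.Agent.Helper36.St.Max

/-! Triple products in a commutative subfield of characteristic 2; the Hua lemma. -/

namespace Pool.Agent.Helper4.Jordan.QuadraticJordanAlgebra

open QuadraticMap

variable {R J : Type*} [CommRing R] [AddCommGroup J] [Module R J]
  {A : QuadraticJordanAlgebra R J}

/-- the case of the Jordan product. -/
theorem IsCK.jp_eq_zero (h2 : ∀ a : J, a + a = 0) (hdiv : A.IsDivision) {K : Set J}
    (hK : A.IsCK K) {a b : J} (ha : a ∈ K) (hb : b ∈ K) : A.jp a b = 0 := by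
  by_contra ht
  have hend : ∀ T : Module.End R J, T + T = 0 := fun T => LinearMap.ext fun x => h2 _
  set t := A.jp a b with htd
  have htK : t ∈ K := by
    have := hK.tr_mem hdiv ha hK.one hb
    rwa [tr_one_mid] at this
  have hVV : A.V a * A.V b = A.V b * A.V a :=
    hK.com.PP a ha A.one hK.one b hb A.one hK.one
  have hV2 : A.V2 a b = A.V2 b a := by
    have h1 := V_mul_V hdiv a b
    have h2' := V_mul_V hdiv b a
    rw [hVV, h2', P_comm b a] at h1
    exact (add_right_cancel h1).symm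
  have hVt : A.V t = 0 := by
    rw [htd, ← V2_add_V2 hdiv a b, ← hV2]
    exact hend _
  -- `t² = {a,t,b}`
  have h3 := QJ3₂ (A := A) a b A.one
  rw [U_one', mul_one, mul_one, mul_one, tr_one_mid] at h3
  have hUU : A.U a * A.U b + A.U b * A.U a = 0 := by
    rw [(hK.com.UU a ha b hb).eq]; exact hend _
  rw [hUU, zero_add] at h3
  have h4 := LinearMap.congr_fun h3 A.one
  rw [LinearMap.add_apply, Module.End.mul_apply] at h4
  have h5 : A.P (A.U a A.one) (A.U b A.one) A.one = 0 := by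
    have e1 : A.P (A.U a A.one) (A.U b A.one) A.one = A.V (A.U a A.one) (A.U b A.one) := by
      rw [V_apply]; rfl
    have e2 : Commute (A.U b) (A.V (A.U a A.one)) :=
      hK.com.UP b hb (A.U a A.one) (hK.U_mem hdiv ha hK.one) A.one hK.one
    rw [e1, ← Module.End.mul_apply, ← e2.eq, Module.End.mul_apply, V_apply, jp_one, map_add]
    exact h2 _
  rw [h5, zero_add] at h4
  have h6 : A.P a b A.one = t := rfl
  rw [h6, ← htd] at h4
  have h4' : A.U t A.one = A.tr a t b := h4
  -- `{a,b,t} = t²`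
  have h7 : A.V2 a b t = A.U t A.one := by
    have e1 := LinearMap.congr_fun (V_mul_V hdiv a b) t
    rw [Module.End.mul_apply, LinearMap.add_apply] at e1
    have e2 : A.V b t = 0 := by
      rw [V_apply, jp_comm, ← V_apply, hVt]; rfl
    rw [e2, map_zero, P_apply, ← h4'] at e1
    have e3 := h2 (A.U t A.one)
    exact add_right_cancel (e1.symm.trans e3.symm)
  have hcomU : ∀ x ∈ K, Commute (A.V2 a b) (A.U x) := by
    intro x hx
    have e1 : A.V2 a b = A.V a * A.V b - A.P a b := by rw [V_mul_V hdiv a b]; abel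
    rw [e1]
    refine Commute.sub_left (Commute.mul_left ?_ ?_) ?_
    · exact (hK.com.UP x hx a ha A.one hK.one).symm
    · exact (hK.com.UP x hx b hb A.one hK.one).symm
    · exact (hK.com.UP x hx a ha b hb).symm
  have hcomP : ∀ x ∈ K, ∀ y ∈ K, Commute (A.V2 a b) (A.P x y) := by
    intro x hx y hy
    have e1 : A.V2 a b = A.V a * A.V b - A.P a b := by rw [V_mul_V hdiv a b]; abel
    rw [e1]
    refine Commute.sub_left (Commute.mul_left ?_ ?_) ?_
    · exact hK.com.PP a ha A.one hK.one x hx y hy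
    · exact hK.com.PP b hb A.one hK.one x hx y hy
    · exact hK.com.PP a ha b hb x hx y hy
  have h8 : A.V2 a b (A.inv t) = A.one := by
    apply U_inj hdiv ht
    rw [← h7, ← Module.End.mul_apply, ← (hcomU t htK).eq, Module.End.mul_apply, U_inv hdiv ht]
  have htiK : A.inv t ∈ K := hK.inv t htK ht
  have h9 := lie hdiv a b (A.inv t) a
  have h10 : A.V2 a b * A.P (A.inv t) a + A.P (A.inv t) a * A.V2 b a = 0 := by
    rw [← hV2, (hcomP _ htiK a ha).eq]
    exact hend _
  have h11 : A.tr a b (A.inv t) = A.one := h8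
  have h12 : A.tr a b a = 0 := by rw [tr_self]; exact h2 _
  rw [h10, h11, h12, P_zero_right, add_zero] at h9
  apply ht
  have h13 : A.V a = 0 := by rw [V_def, P_comm]; exact h9.symm
  rw [htd, ← V_apply, h13]; rfl

/-- BLOCK HUA (i). Proof that `a ∘ b = 0` for `a, b ∈ K`: let `t = a ∘ b ≠ 0`, `t ∈ K`. `V a, V b`
commute, so `V2 a b = V a V b - P a b = V2 b a`, hence `V t = V2 a b + V2 b a = 0`. `QJ3₂ a b 1`:
`P a² b² + U t = 2 U a U b + (P a b)²`; applied to 1: `a²∘b² + t² = {a,t,b}` and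
`a²∘b² = V(a²) U b 1 = U b V(a²) 1 = 2 .. = 0`. `{a,b,t} = V a V b t - P a b t = {a,t,b}` (as
`b ∘ t = V t b = 0`). So `{a,b,t} = t²` and since `V2 a b` commutes with `U t`, `{a,b,t⁻¹} = 1`.
`lie a b c d` (c,d ∈ K): `0 = 2 V2 a b P c d = P {a,b,c} d + P c {a,b,d}`. With `c = t⁻¹, d = a`:
`{a,b,a} = 2 U a b = 0`, so `P 1 a = V a = 0`, `t = V a b = 0`. Contradiction.
In the isotope at `u⁻¹`, `u ∈ K` this gives `{a, u, b} = 0` (`isotope_jp`). -/
theorem IsCK.tr_eq_zero (h2 : ∀ a : J, a + a = 0) (hdiv : A.IsDivision) {K : Set J}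
    (hK : A.IsCK K) {a b c : J} (ha : a ∈ K) (hb : b ∈ K) (hc : c ∈ K) : A.tr a b c = 0 := by
  rcases eq_or_ne b 0 with rfl | hb0
  · exact tr_zero_mid _ _
  have hv : A.inv b ≠ 0 := inv_ne hdiv hb0
  have h1 := hK.isotope hdiv hv (hK.inv b hb hb0)
  have h3 := h1.jp_eq_zero h2 (isotope_isDivision hdiv hv) ha hc
  rw [isotope_jp, inv_inv' hdiv hb0] at h3
  exact h3

/-- BLOCK HUA (ii). Proof. For `g, h ∈ K` nonzero, `h⁻¹ ≠ g`, `hua` and the hypothesis give
`e (U g h) = e g - e h`. Characteristic 3: given `g ≠ 0` in `K` take `h ∈ K`, `h⁻¹ ∉ {0, g, -g}`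
(exists by `ht`); `U (-g) h = U g h`, so `e g = e (-g)`, `2 e g = 0 = 3 e g`. Characteristic 2: given
`h ≠ 0` in `K`, take `g, g' ∈ K` with `h⁻¹, g, g'` independent over `F_2` (exist by `ht`);
`U (g+g') h = U g h + U g' h` by (i), so `e(g+g') + e h = e g + e h + e g' + e h`, `e h = 0`
(all values of `e` are killed by 2). -/
theorem hua_vanish (hp : (∀ a : J, a + a = 0) ∨ (∀ a : J, a + a + a = 0)) (hdiv : A.IsDivision)
    {K : Set J} (hK : A.IsCK K) (ht : ∃ f ∈ K, ∃ g ∈ K, ∃ h ∈ K, Trip f g h)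
    {C : Type*} [AddCommGroup C] (e : J →+ C) (he : ∀ x ∈ K, x ≠ 0 → e (A.inv x) = e x) :
    ∀ x ∈ K, e x = 0 := by
  have key : ∀ g ∈ K, ∀ h ∈ K, g ≠ 0 → h ≠ 0 → A.inv h - g ≠ 0 → e (A.U g h) = e g - e h := by
    intro g hg h hh hg0 hh0 hne
    have h1 := hua hdiv hg0 hh0 hne
    have h2 : A.inv g + A.inv (A.inv h - g) ≠ 0 := by
      apply inv_add_inv_ne hdiv hg0 hne
      have : g + (A.inv h - g) = A.inv h := by abel
      rw [this]; exact inv_ne hdiv hh0
    have hm : A.inv h - g ∈ K := by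
      rw [sub_eq_add_neg]
      exact hK.add _ (hK.inv h hh hh0) _ (hK.neg g hg)
    have h3 : A.inv g + A.inv (A.inv h - g) ∈ K :=
      hK.add _ (hK.inv g hg hg0) _ (hK.inv _ hm hne)
    have h4 := congrArg e h1
    rw [he _ h3 h2, map_add, he g hg hg0, he _ hm hne, map_sub, map_sub, he h hh hh0] at h4
    have h5 : e g + (e h - e g) = e h := by abel
    rw [h5] at h4
    rw [h4]; abel
  obtain ⟨f, hf, g0, hg0, h0, hh0, f1, f2, f3, f4, f5, f6, f7⟩ := ht
  rcases hp with h2 | h3
  · intro h hh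
    rcases eq_or_ne h 0 with rfl | hne
    · exact map_zero e
    set k := A.inv h with hk
    have neq : ∀ x y : J, x + y ≠ 0 → x ≠ y := by
      rintro x y hxy rfl
      exact hxy (h2 x)
    have fin : ∀ g ∈ K, ∀ g' ∈ K, g ≠ 0 → g' ≠ 0 → g + g' ≠ 0 → k ≠ g → k ≠ g' → k ≠ g + g' →
        e h = 0 := by
      intro g hg g' hg' n1 n2 n3 n4 n5 n6
      have k1 := key g hg h hh n1 hne (sub_ne_zero.mpr n4)
      have k2 := key g' hg' h hh n2 hne (sub_ne_zero.mpr n5)
      have k3 := key (g + g') (hK.add g hg g' hg') h hh n3 hne (sub_ne_zero.mpr n6)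
      have k4 : A.U (g + g') h = A.U g h + A.U g' h := by
        have := hK.tr_eq_zero h2 hdiv hg hh hg'
        rw [U_add', LinearMap.add_apply, LinearMap.add_apply, P_apply, this, add_zero]
      rw [k4, map_add, k1, k2, map_add] at k3
      have : e h = (e g + e g' - e h) - (e g - e h + (e g' - e h)) := by abel
      rw [this, k3]; abel
    have c1 : ∀ x y : J, x = y → x + y = 0 := by
      rintro x y rfl; exact h2 x
    by_cases q1 : k = f
    · rw [q1] at fin
      refine fin g0 hg0 h0 hh0 f2 f3 f6 (neq _ _ f4) (neq _ _ f5) (neq _ _ ?_)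
      rw [← add_assoc]; exact f7
    by_cases q2 : k = g0
    · rw [q2] at fin
      refine fin f hf h0 hh0 f1 f3 f5 (neq _ _ ?_) (neq _ _ f6) (neq _ _ ?_)
      · rw [add_comm]; exact f4
      · have : g0 + (f + h0) = f + g0 + h0 := by abel
        rw [this]; exact f7
    by_cases q3 : k = f + g0
    · rw [q3] at fin
      refine fin f hf h0 hh0 f1 f3 f5 ?_ (neq _ _ f7) ?_
      · intro hc
        exact f2 (left_eq_add.mp hc.symm)
      · intro hc
        exact neq _ _ f6 (add_left_cancel hc)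
    exact fin f hf g0 hg0 f1 f2 f4 q1 q2 q3
  · intro g hg
    rcases eq_or_ne g 0 with rfl | hne
    · exact map_zero e
    have hex : ∃ k ∈ K, k ≠ 0 ∧ k ≠ g ∧ k ≠ -g := by
      by_contra hc
      push Not at hc
      have d : ∀ x ∈ K, x ≠ 0 → x = g ∨ x = -g := by
        intro x hx hx0
        by_cases h : x = g
        · exact Or.inl h
        · exact Or.inr (hc x hx hx0 h)
      have hgg : g + g + g = 0 := h3 g
      have hmm : -g + -g + -g = 0 := h3 (-g)
      rcases d f hf f1 with r1 | r1 <;> rcases d g0 hg0 f2 with r2 | r2 <;>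
        rcases d h0 hh0 f3 with r3 | r3
      · exact f7 (by rw [r1, r2, r3]; exact hgg)
      · exact f5 (by rw [r1, r3]; abel)
      · exact f4 (by rw [r1, r2]; abel)
      · exact f4 (by rw [r1, r2]; abel)
      · exact f4 (by rw [r1, r2]; abel)
      · exact f4 (by rw [r1, r2]; abel)
      · exact f5 (by rw [r1, r3]; abel)
      · exact f7 (by rw [r1, r2, r3]; exact hmm)
    obtain ⟨k, hk, k0, kg, kg'⟩ := hex
    have hik : A.inv k ∈ K := hK.inv k hk k0
    have hik0 : A.inv k ≠ 0 := inv_ne hdiv k0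
    have e1 := key g hg _ hik hne hik0 (by rw [inv_inv' hdiv k0]; exact sub_ne_zero.mpr kg)
    have e2 := key (-g) (hK.neg g hg) _ hik (neg_ne_zero.mpr hne) hik0
      (by rw [inv_inv' hdiv k0]; exact sub_ne_zero.mpr kg')
    rw [U_neg, e1, map_neg] at e2
    have e3 : e g = -e g := by
      have := sub_left_inj.mp e2
      exact this
    have e4 : e g + e g + e g = 0 := by rw [← map_add, ← map_add, h3, map_zero]
    have e5 : e g + e g = 0 := by
      nth_rewrite 2 [e3]; exact add_neg_cancel _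
    rw [e5, zero_add] at e4
    exact e4

end Pool.Agent.Helper4.Jordan.QuadraticJordanAlgebra
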