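import Pool.Agent.Helper36.St.Defs

/-! Jordan identities. -/

namespace Pool.Agent.Helper4.Jordan.QuadraticJordanAlgebra

open QuadraticMap

variable {R J : Type*} [CommRing R] [AddCommGroup J] [Module R J]
  {A : QuadraticJordanAlgebra R J}

lemma U_one' : A.U A.one = 1 := A.U_one

lemma tr_self (a b : J) : A.tr a b a = A.U a b + A.U a b := by
  rw [tr_def, P_self]; rfl

/-- QJ2 -/
lemma U_tr (a b c : J) : A.U a (A.tr b a c) = A.tr a b (A.U a c) := (A.QJ2 a b c).symm

lemma V2_mul_U (a b : J) : A.V2 a b * A.U a = A.U a * A.V2 b a :=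
  LinearMap.ext fun c => (U_tr a b c).symm

lemma tr_one_mid (a b : J) : A.tr a A.one b = A.jp a b := rfl

lemma tr_one_left (a b : J) : A.tr A.one a b = A.jp a b := by
  have h := U_tr (A := A) A.one a b
  rw [U_one'] at h
  exact h.symm

lemma jp_comm (a b : J) : A.jp a b = A.jp b a := by rw [jp_def, P_comm]; rfl

lemma tr_one_right (a b : J) : A.tr a b A.one = A.jp a b := by
  rw [tr_comm, tr_one_left, jp_comm]

lemma V_apply (a b : J) : A.V a b = A.jp a b := tr_one_right a b

lemma V2_one_right (a : J) : A.V2 a A.one = A.V a :=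
  LinearMap.ext fun b => (V_apply a b).symm

lemma V2_one_left (a : J) : A.V2 A.one a = A.V a :=
  LinearMap.ext fun b => by rw [V_apply, V2_apply, tr_one_left]

lemma jp_one (a : J) : A.jp a A.one = a + a := by
  rw [← tr_one_mid, tr_one_right, ← tr_one_left, tr_one_left, jp_comm, ← tr_one_right, tr_self,
    U_one']; rfl

lemma V_one : A.V A.one = 2 := by
  rw [V_def, P_self, U_one']; norm_num

lemma V_mul_U (a : J) : A.V a * A.U a = A.U a * A.V a := by
  have h := V2_mul_U (A := A) a A.one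
  rwa [V2_one_right, V2_one_left] at h

lemma U_sq (a : J) : A.U (A.U a A.one) = A.U a * A.U a := by
  rw [A.QJ3, U_one', mul_one]

lemma V2_add_left (a a' b : J) : A.V2 (a + a') b = A.V2 a b + A.V2 a' b :=
  LinearMap.ext fun _ => tr_add_left _ _ _ _

lemma V2_add_right (a b b' : J) : A.V2 a (b + b') = A.V2 a b + A.V2 a b' :=
  LinearMap.ext fun _ => tr_add_mid _ _ _ _

lemma V_add (a b : J) : A.V (a + b) = A.V a + A.V b := P_add_left _ _ _

lemma jp_add_left (a a' b : J) : A.jp (a + a') b = A.jp a b + A.jp a' b := by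
  rw [← tr_one_mid, tr_add_left]; rfl

lemma jp_add_right (a b b' : J) : A.jp a (b + b') = A.jp a b + A.jp a b' := by
  rw [← tr_one_mid, tr_add_right]; rfl

lemma tr_zero_left (b c : J) : A.tr 0 b c = 0 := by rw [tr_def, P_zero_left]; rfl
lemma tr_zero_mid (a c : J) : A.tr a 0 c = 0 := by rw [tr_def, map_zero]
lemma tr_zero_right (a b : J) : A.tr a b 0 = 0 := by rw [tr_def, P_zero_right]; rfl
lemma tr_neg_left (a b c : J) : A.tr (-a) b c = -A.tr a b c := by rw [tr_def, P_neg_left]; rfl
lemma tr_neg_mid (a b c : J) : A.tr a (-b) c = -A.tr a b c := by rw [tr_def, map_neg]; rfl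
lemma tr_neg_right (a b c : J) : A.tr a b (-c) = -A.tr a b c := by rw [tr_def, P_neg_right]; rfl

/-- linearised QJ2 -/
lemma QJ2' (a d b c : J) : A.tr d b (A.U a c) + A.tr a b (A.tr a c d) =
    A.tr a (A.tr b a c) d + A.U a (A.tr b d c) := A.QJ2_lin a d b c

/-- (R3') -/
lemma R3 (b c : J) : A.V b * A.V c + A.V2 c b = A.V (A.jp b c) + A.P b c := by
  refine LinearMap.ext fun x => ?_
  have h := QJ2' (A := A) A.one b x c
  rw [U_one', Module.End.one_apply, Module.End.one_apply, tr_one_left, tr_one_left,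
    tr_one_left, tr_one_mid] at h
  simp only [LinearMap.add_apply, Module.End.mul_apply, V_apply, V2_apply]
  rw [P_apply, jp_comm b (A.jp c x), jp_comm c x, tr_comm c b x, ← h, jp_comm b c,
    jp_comm (A.jp c b) x, add_comm]

/-- `V2 a b * U x + U x * V2 b a = P {a b x} x` -/
lemma lieU (hdiv : A.IsDivision) (a b x : J) :
    A.V2 a b * A.U x + A.U x * A.V2 b a = A.P (A.tr a b x) x := by
  rcases eq_or_ne b 0 with rfl | hb
  · have h1 : A.V2 a (0 : J) = 0 := LinearMap.ext fun z => tr_zero_mid _ _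
    have h2 : A.V2 (0 : J) a = 0 := LinearMap.ext fun z => tr_zero_left _ _
    rw [h1, h2, zero_mul, mul_zero, add_zero, tr_zero_mid, P_zero_left]
  have h := A.QJ3_lin₁ b (A.U b a) x
  change A.P (A.U b x) (A.tr b x (A.U b a)) = A.P b (A.U b a) * A.U x * A.U b +
    A.U b * A.U x * A.P b (A.U b a) at h
  have e1 : A.P b (A.U b a) = A.U b * A.V2 a b := by
    refine LinearMap.ext fun z => ?_
    rw [P_apply, ← U_tr, tr_comm]; rfl
  have e2 : A.P b (A.U b a) = A.V2 b a * A.U b := by rw [e1, V2_mul_U]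
  rw [← U_tr, P_U_U] at h
  have h2 : A.U b * (A.V2 a b * A.U x + A.U x * A.V2 b a) * A.U b =
      A.U b * A.P (A.tr a b x) x * A.U b := by
    have h3 : A.P b (A.U b a) * A.U x * A.U b = A.U b * (A.V2 a b * A.U x) * A.U b := by
      rw [e1]; noncomm_ring
    have h4 : A.U b * A.U x * A.P b (A.U b a) = A.U b * (A.U x * A.V2 b a) * A.U b := by
      rw [e2]; noncomm_ring
    rw [tr_comm a b x, P_comm, h, h3, h4]
    noncomm_ring
  have hc := (U_inv_mul_cancel hdiv hb)
  calc _ = A.U (A.inv b) * (A.U b * (A.V2 a b * A.U x + A.U x * A.V2 b a) * A.U b) *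
      A.U (A.inv b) := by
        rw [← mul_assoc, ← mul_assoc, hc.1, mul_assoc, hc.2, one_mul, mul_one]
    _ = A.U (A.inv b) * (A.U b * A.P (A.tr a b x) x * A.U b) * A.U (A.inv b) := by rw [h2]
    _ = _ := by rw [← mul_assoc, ← mul_assoc, hc.1, mul_assoc, hc.2, one_mul, mul_one]

/-- `V2 a b * P x z + P x z * V2 b a = P {a b x} z + P x {a b z}` -/
lemma lie (hdiv : A.IsDivision) (a b x z : J) :
    A.V2 a b * A.P x z + A.P x z * A.V2 b a = A.P (A.tr a b x) z + A.P x (A.tr a b z) := by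
  have h := lieU hdiv a b (x + z)
  have hx := lieU hdiv a b x
  have hz := lieU hdiv a b z
  rw [U_add', tr_add_right, P_add_left, P_add_right, P_add_right, ← hx, ← hz] at h
  rw [P_comm x (A.tr a b z)]
  have e : A.V2 a b * A.P x z + A.P x z * A.V2 b a = (A.V2 a b * (A.U x + A.U z + A.P x z) +
    (A.U x + A.U z + A.P x z) * A.V2 b a) - (A.V2 a b * A.U x + A.U x * A.V2 b a) -
    (A.V2 a b * A.U z + A.U z * A.V2 b a) := by noncomm_ring
  rw [e, h]; abel

lemma lieV (hdiv : A.IsDivision) (a x z : J) :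
    A.V a * A.P x z + A.P x z * A.V a = A.P (A.jp a x) z + A.P x (A.jp a z) := by
  have h := lie hdiv a A.one x z
  rwa [V2_one_right, V2_one_left] at h

lemma lieVU (hdiv : A.IsDivision) (a x : J) :
    A.V a * A.U x + A.U x * A.V a = A.P (A.jp a x) x := by
  have h := lieU hdiv a A.one x
  rwa [V2_one_right, V2_one_left] at h

lemma V2_add_V2 (hdiv : A.IsDivision) (a b : J) : A.V2 a b + A.V2 b a = A.V (A.jp a b) := by
  have h := lieU hdiv a b A.one
  rwa [U_one', mul_one, one_mul, tr_one_right] at h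

lemma V_mul_V (hdiv : A.IsDivision) (a b : J) : A.V a * A.V b = A.V2 a b + A.P a b := by
  have h := R3 (A := A) a b
  rw [← V2_add_V2 hdiv a b] at h
  have := eq_sub_of_add_eq h
  rw [this]; abel

lemma V_sq (hdiv : A.IsDivision) (a : J) :
    A.V a * A.V a = A.V (A.U a A.one) + A.U a + A.U a := by
  have h := V2_add_V2 hdiv a a
  have h1 := V_mul_V hdiv a a
  have h2 : A.V2 a a = A.V (A.U a A.one) := by
    refine LinearMap.ext fun x => ?_
    have h3 := QJ2' (A := A) a x A.one A.one
    have h4 := LinearMap.congr_fun h1 x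
    rw [Module.End.mul_apply, V_apply, V_apply, LinearMap.add_apply, V2_apply, P_self,
      LinearMap.add_apply] at h4
    rw [V2_apply, V_apply]
    have h5 : ∀ y, A.tr A.one y A.one = y + y := fun y => by rw [tr_one_left, jp_one]
    rw [tr_one_mid, tr_one_mid, tr_one_mid, h4, h5, h5, tr_add_mid, map_add] at h3
    rw [jp_comm]
    have : A.jp x (A.U a A.one) = A.tr a a x + A.tr a a x + (A.U a x + A.U a x) -
      (A.tr a a x + (A.U a x + A.U a x)) := by rw [← h3]; abel
    rw [this]; abel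
  rw [h1, h2, P_self]; abel

/-- `U (g ∘ y)` -/
lemma U_jp (g y : J) : A.U (A.jp g y) = A.U g * A.U y + A.U y * A.U g +
    A.V g * A.U y * A.V g - A.P (A.U g y) y := by
  have h := A.QJ3_lin₂ g A.one y
  change A.P (A.U g y) (A.U A.one y) + A.U (A.tr g y A.one) = A.U g * A.U y * A.U A.one +
    A.U A.one * A.U y * A.U g + A.V g * A.U y * A.V g at h
  rw [U_one', tr_one_right, Module.End.one_apply, mul_one, one_mul] at h
  rw [← h]; abel

/-- the squaring of the polarised operator -/
lemma QJ3₂ (a c b : J) : A.P (A.U a b) (A.U c b) + A.U (A.tr a b c) =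
    A.U a * A.U b * A.U c + A.U c * A.U b * A.U a + A.P a c * A.U b * A.P a c := A.QJ3_lin₂ a c b

lemma QJ3₁ (a c b : J) : A.P (A.U a b) (A.tr a b c) =
    A.P a c * A.U b * A.U a + A.U a * A.U b * A.P a c := A.QJ3_lin₁ a c b

end Pool.Agent.Helper4.Jordan.QuadraticJordanAlgebra
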