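import Pool.Agent.Helper36.St.Id

/-! Inverses in division Jordan algebras, isotopes of isotopes. -/

namespace Pool.Agent.Helper4.Jordan.QuadraticJordanAlgebra

open QuadraticMap

variable {R J : Type*} [CommRing R] [AddCommGroup J] [Module R J]
  {A : QuadraticJordanAlgebra R J} (hdiv : A.IsDivision)

include hdiv

lemma one_ne : A.one ≠ 0 := hdiv.1

lemma U_inj {a : J} (ha : a ≠ 0) {x y : J} (h : A.U a x = A.U a y) : x = y := (hdiv.2 a ha).1 h

lemma U_ne {a b : J} (ha : a ≠ 0) (hb : b ≠ 0) : A.U a b ≠ 0 := by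
  intro h
  exact hb (U_inj hdiv ha (by rw [h, map_zero]))

lemma eq_zero_of_U {a b : J} (hb : b ≠ 0) (h : A.U a b = 0) : a = 0 := by
  by_contra ha
  exact U_ne hdiv ha hb h

lemma U_U_inv {a : J} (ha : a ≠ 0) (x : J) : A.U a (A.U (A.inv a) x) = x := by
  rw [← Module.End.mul_apply, (U_inv_mul_cancel hdiv ha).2, Module.End.one_apply]

lemma U_inv_U {a : J} (ha : a ≠ 0) (x : J) : A.U (A.inv a) (A.U a x) = x := by
  rw [← Module.End.mul_apply, (U_inv_mul_cancel hdiv ha).1, Module.End.one_apply]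

lemma U_inv_self {a : J} (ha : a ≠ 0) : A.U (A.inv a) a = A.inv a := by
  have h := U_inv_U hdiv ha (A.inv a)
  rwa [U_inv hdiv ha] at h

lemma inv_inv' {a : J} (ha : a ≠ 0) : A.inv (A.inv a) = a :=
  (inv_unique hdiv (inv_ne hdiv ha) (U_inv_self hdiv ha)).symm

lemma inv_one' : A.inv A.one = A.one :=
  (inv_unique hdiv hdiv.1 (by rw [U_one']; rfl)).symm

lemma inv_U {a b : J} (ha : a ≠ 0) (hb : b ≠ 0) :
    A.inv (A.U a b) = A.U (A.inv a) (A.inv b) := by
  symm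
  apply inv_unique hdiv (U_ne hdiv ha hb)
  rw [A.QJ3, Module.End.mul_apply, Module.End.mul_apply, U_U_inv hdiv ha, U_inv hdiv hb]

lemma inv_injective {a b : J} (ha : a ≠ 0) (hb : b ≠ 0) (h : A.inv a = A.inv b) : a = b := by
  rw [← inv_inv' hdiv ha, h, inv_inv' hdiv hb]

/-- `{g⁻¹, U_g x, y} = {x, g, y}` -/
lemma tr_inv_U {g : J} (hg : g ≠ 0) (x y : J) : A.tr (A.inv g) (A.U g x) y = A.tr x g y := by
  have h1 : A.P (A.inv g) y = A.U (A.inv g) * A.P g (A.U g y) * A.U (A.inv g) := by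
    rw [← P_U_U, U_inv_self hdiv hg, U_inv_U hdiv hg]
  rw [tr_def, h1, Module.End.mul_apply, Module.End.mul_apply, U_inv_U hdiv hg, P_apply, ← U_tr,
    U_inv_U hdiv hg]

/-- `{a, b⁻¹, U_b z} = {a, z, b}` -/
lemma tr_inv_U' {b : J} (hb : b ≠ 0) (a z : J) : A.tr a (A.inv b) (A.U b z) = A.tr a z b := by
  have h1 : A.P a (A.U b z) = A.U b * A.P (A.U (A.inv b) a) z * A.U b := by
    rw [← P_U_U, U_U_inv hdiv hb]
  rw [tr_def, h1, Module.End.mul_apply, Module.End.mul_apply, U_inv hdiv hb, P_apply, tr_comm,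
    U_tr, U_U_inv hdiv hb, tr_comm]

/-- `U_x {x⁻¹, b, c} = {x, c, b}` -/
lemma U_tr_inv {x : J} (hx : x ≠ 0) (b c : J) : A.U x (A.tr (A.inv x) b c) = A.tr x c b := by
  have h1 : A.tr (A.inv x) b c = A.tr (A.U (A.inv x) b) x c := by
    rw [← tr_inv_U hdiv hx, U_U_inv hdiv hx]
  rw [h1, tr_comm, U_tr, U_U_inv hdiv hx]

lemma P_eq_V2_mul {x y : J} (hy : y ≠ 0) : A.P x y = A.V2 x (A.inv y) * A.U y :=
  LinearMap.ext fun z => (tr_inv_U' hdiv hy x z).symm

lemma P_eq_mul_V2 {x y : J} (hx : x ≠ 0) : A.P x y = A.U x * A.V2 (A.inv x) y := by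
  refine LinearMap.ext fun z => ?_
  rw [Module.End.mul_apply, V2_apply, U_tr_inv hdiv hx, P_apply]

lemma U_jp_inv {g : J} (hg : g ≠ 0) (y : J) : A.U g (A.jp (A.inv g) y) = A.jp g y := by
  rw [← tr_one_mid, U_tr_inv hdiv hg, tr_one_right]

lemma U_inv_jp {g : J} (hg : g ≠ 0) (y : J) : A.U (A.inv g) (A.jp g y) = A.jp (A.inv g) y := by
  rw [← U_jp_inv hdiv hg, U_inv_U hdiv hg]

lemma V_inv {a : J} (ha : a ≠ 0) : A.V (A.inv a) = A.U (A.inv a) * A.V a :=
  LinearMap.ext fun z => by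
    rw [Module.End.mul_apply, V_apply, V_apply, U_inv_jp hdiv ha]

lemma tr_inv_self {a : J} (ha : a ≠ 0) (b : J) : A.tr a (A.inv a) b = b + b := by
  have h := tr_inv_U hdiv (inv_ne hdiv ha) a b
  rw [inv_inv' hdiv ha, U_inv_self hdiv ha] at h
  have h2 := tr_inv_U' hdiv ha b (A.U (A.inv a) b)
  have h3 := tr_inv_U' hdiv ha a (A.U (A.inv a) b)
  rw [U_U_inv hdiv ha] at h3
  rw [h3, tr_self, U_U_inv hdiv ha]

lemma U_P_inv_U {x y : J} (hx : x ≠ 0) (hy : y ≠ 0) :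
    A.U x * A.P (A.inv x) (A.inv y) * A.U y = A.P x y := by
  refine LinearMap.ext fun z => ?_
  rw [Module.End.mul_apply, Module.End.mul_apply, P_apply, U_tr_inv hdiv hx, tr_inv_U' hdiv hy,
    P_apply]

/-- `U_{x+y} = U_x U_{x⁻¹+y⁻¹} U_y` -/
lemma U_add_eq {x y : J} (hx : x ≠ 0) (hy : y ≠ 0) :
    A.U (x + y) = A.U x * A.U (A.inv x + A.inv y) * A.U y := by
  rw [U_add', U_add', mul_add, mul_add, add_mul, add_mul, U_P_inv_U hdiv hx hy,
    (U_inv_mul_cancel hdiv hx).2, one_mul, mul_assoc _ _ (A.U y), (U_inv_mul_cancel hdiv hy).1,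
    mul_one, add_comm (A.U x)]

lemma inv_add_inv_ne {x y : J} (hx : x ≠ 0) (hy : y ≠ 0) (hxy : x + y ≠ 0) :
    A.inv x + A.inv y ≠ 0 := by
  intro h
  apply hxy
  have h1 : A.inv x = A.inv (-y) := by rw [inv_neg' hdiv hy]; exact eq_neg_of_add_eq_zero_left h
  rw [inv_injective hdiv hx (neg_ne_zero.2 hy) h1, neg_add_cancel]

/-- `(x⁻¹+y⁻¹)⁻¹ = x - U_x (x+y)⁻¹` -/
lemma inv_add_inv {x y : J} (hx : x ≠ 0) (hy : y ≠ 0) (hxy : x + y ≠ 0) :
    A.inv (A.inv x + A.inv y) = x - A.U x (A.inv (x + y)) := by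
  symm
  apply inv_unique hdiv (inv_add_inv_ne hdiv hx hy hxy)
  have h1 : A.U (A.inv x + A.inv y) = A.U (A.inv y) * A.U (x + y) * A.U (A.inv x) := by
    rw [add_comm x y, U_add_eq hdiv hy hx, add_comm (A.inv y), mul_assoc, mul_assoc (A.U y * _),
      (U_inv_mul_cancel hdiv hx).2, mul_one, ← mul_assoc, (U_inv_mul_cancel hdiv hy).1, one_mul]
  have h2 : A.U (x + y) (A.inv x) = x + A.U y (A.inv x) + (y + y) := by
    rw [U_add', LinearMap.add_apply, LinearMap.add_apply, U_inv hdiv hx, P_apply,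
      tr_inv_self hdiv hx]
  rw [h1, map_sub, Module.End.mul_apply, Module.End.mul_apply, Module.End.mul_apply,
    Module.End.mul_apply, U_inv_U hdiv hx, U_inv_self hdiv hx, U_inv hdiv hxy, ← map_sub, h2]
  have h3 : x + A.U y (A.inv x) + (y + y) - (x + y) = A.U y (A.inv x) + y := by abel
  rw [h3, map_add, U_inv_U hdiv hy, U_inv_self hdiv hy]

/-- Hua's identity -/
lemma hua {a b : J} (ha : a ≠ 0) (hb : b ≠ 0) (hab : A.inv b - a ≠ 0) :
    A.inv (A.inv a + A.inv (A.inv b - a)) = a - A.U a b := by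
  have h : a + (A.inv b - a) = A.inv b := by abel
  rw [inv_add_inv hdiv ha hab (by rw [h]; exact inv_ne hdiv hb), h, inv_inv' hdiv hb]

/-- `(g ∘ y = 0) ↔ (g⁻¹ ∘ y⁻¹ = 0)` -/
lemma jp_inv_inv_eq_zero {g y : J} (hg : g ≠ 0) (hy : y ≠ 0) :
    A.jp (A.inv g) (A.inv y) = 0 ↔ A.jp g y = 0 := by
  constructor
  · intro h
    have h1 := U_jp_inv hdiv hg (A.inv y)
    rw [h, map_zero] at h1
    have h2 := U_jp_inv hdiv hy g
    rw [jp_comm, ← h1, map_zero] at h2
    rw [jp_comm, ← h2]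
  · intro h
    have h1 := U_inv_jp hdiv hg y
    rw [h, map_zero] at h1
    have h2 := U_inv_jp hdiv hy (A.inv g)
    rw [jp_comm, ← h1, map_zero] at h2
    rw [jp_comm, ← h2]

/-- `U_g U_y (g⁻¹ ∘ y⁻¹) = g ∘ y` -/
lemma U_U_jp_inv {g y : J} (hg : g ≠ 0) (hy : y ≠ 0) :
    A.U g (A.U y (A.jp (A.inv g) (A.inv y))) = A.jp g y := by
  rw [jp_comm, U_jp_inv hdiv hy, jp_comm, U_jp_inv hdiv hg]

omit hdiv

@[ext] lemma ext' {A B : QuadraticJordanAlgebra R J} (h1 : A.one = B.one) (h2 : A.U = B.U) :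
    A = B := by
  cases A; cases B; simp_all

lemma isotope_isotope {A : QuadraticJordanAlgebra R J} (hdiv : A.IsDivision) {u v : J}
    (hu : u ≠ 0) (hv : v ≠ 0) :
    isotope (isotope_isDivision hdiv hu) hv = isotope hdiv hv := by
  refine ext' (by rfl) ?_
  ext a b
  rw [isotope_U, isotope_U, isotope_U, isotope_U, isotope_inv hdiv hu hv, A.QJ3]
  have h := (U_inv_mul_cancel hdiv hu)
  have e : A.U a * A.U (A.inv u) * (A.U u * A.U (A.inv v) * A.U u * A.U (A.inv u)) =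
    A.U a * A.U (A.inv v) := by
    rw [mul_assoc (A.U u * A.U (A.inv v)), h.2, mul_one, mul_assoc, ← mul_assoc (A.U (A.inv u)),
      h.1, one_mul]
  rw [e]

lemma isotope_one_eq {A : QuadraticJordanAlgebra R J} (hdiv : A.IsDivision) :
    isotope hdiv hdiv.1 = A := by
  refine ext' (by rfl) ?_
  ext a b
  rw [isotope_U_apply, inv_one' hdiv, U_one']; rfl

omit [AddCommGroup J] [Module R J] [CommRing R] in
lemma Big.exists_notMem {n : ℕ} (h : Big J n) {s : Set J} (hs : s.Finite) (hc : s.ncard ≤ n) :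
    ∃ x, x ∉ s := by
  obtain ⟨x, hx⟩ := h hs.toFinset (by rwa [← Set.ncard_eq_toFinset_card s hs])
  exact ⟨x, by simpa using hx⟩

omit [AddCommGroup J] [Module R J] [CommRing R] in
lemma Big.mono {m n : ℕ} (h : Big J n) (hmn : m ≤ n) : Big J m := fun s hs => h s (hs.trans hmn)

omit [AddCommGroup J] [Module R J] [CommRing R] in
lemma not_big_iff {n : ℕ} : ¬ Big J n ↔ Finite J ∧ Nat.card J ≤ n := by
  constructor
  · intro h
    unfold Big at h
    push Not at h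
    obtain ⟨s, hs, h⟩ := h
    have hf : Finite J := Finite.of_finite_univ (s.finite_toSet.subset fun x _ => h x)
    refine ⟨hf, ?_⟩
    rw [← Set.ncard_univ]
    calc (Set.univ : Set J).ncard ≤ (s : Set J).ncard :=
          Set.ncard_le_ncard (fun x _ => h x) s.finite_toSet
      _ = s.card := Set.ncard_coe_finset s
      _ ≤ n := hs
  · rintro ⟨hf, hc⟩ h
    obtain ⟨x, hx⟩ := h.exists_notMem Set.finite_univ (by rwa [Set.ncard_univ])
    exact hx (Set.mem_univ x)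

end Pool.Agent.Helper4.Jordan.QuadraticJordanAlgebra
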