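import Pool.Agent.Helper36.St.Act

/-! Maximal commuting sets; closure properties of commutative subfields and lines. -/

namespace Pool.Agent.Helper4.Jordan.QuadraticJordanAlgebra

open QuadraticMap

variable {R J : Type*} [CommRing R] [AddCommGroup J] [Module R J]
  {A : QuadraticJordanAlgebra R J}

/-- the operators of a set -/
def ops (A : QuadraticJordanAlgebra R J) (K : Set J) : Set (Module.End R J) :=
  {T | (∃ a ∈ K, T = A.U a) ∨ ∃ a ∈ K, ∃ b ∈ K, T = A.P a b}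

lemma isCom_iff {K : Set J} : A.IsCom K ↔ ∀ S ∈ A.ops K, ∀ T ∈ A.ops K, S * T = T * S := by
  constructor
  · intro h
    rintro S (⟨a, ha, rfl⟩ | ⟨a, ha, b, hb, rfl⟩) T (⟨c, hc, rfl⟩ | ⟨c, hc, d, hd, rfl⟩)
    · exact (h.UU a ha c hc).eq
    · exact (h.UP a ha c hc d hd).eq
    · exact (h.UP c hc a ha b hb).eq.symm
    · exact (h.PP a ha b hb c hc d hd).eq
  · intro h
    refine ⟨fun a ha b hb => h _ (Or.inl ⟨a, ha, rfl⟩) _ (Or.inl ⟨b, hb, rfl⟩),
      fun a ha b hb c hc => h _ (Or.inl ⟨a, ha, rfl⟩) _ (Or.inr ⟨b, hb, c, hc, rfl⟩),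
      fun a ha b hb c hc d hd => h _ (Or.inr ⟨a, ha, b, hb, rfl⟩) _ (Or.inr ⟨c, hc, d, hd, rfl⟩)⟩

/-- the double centraliser of the operators of `K` -/
def cc (A : QuadraticJordanAlgebra R J) (K : Set J) : Subring (Module.End R J) :=
  Subring.centralizer (Subring.centralizer (A.ops K) : Set (Module.End R J))

lemma ops_le_cc {K : Set J} {T : Module.End R J} (hT : T ∈ A.ops K) : T ∈ A.cc K := by
  rw [cc, Subring.mem_centralizer_iff]
  intro g hg
  rw [SetLike.mem_coe, Subring.mem_centralizer_iff] at hg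
  exact (hg T hT).symm

lemma cc_comm {K : Set J} (hK : A.IsCom K) {S T : Module.End R J} (hS : S ∈ A.cc K)
    (hT : T ∈ A.cc K) : S * T = T * S := by
  rw [cc, Subring.mem_centralizer_iff] at hS
  refine (hS T ?_).symm
  rw [SetLike.mem_coe, Subring.mem_centralizer_iff]
  intro g hg
  rw [cc, Subring.mem_centralizer_iff] at hT
  refine hT g ?_
  rw [SetLike.mem_coe, Subring.mem_centralizer_iff]
  intro g' hg'
  exact isCom_iff.1 hK g' hg' g hg

lemma cc_inv {K : Set J} {S T : Module.End R J} (hS : S ∈ A.cc K) (h1 : S * T = 1)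
    (h2 : T * S = 1) : T ∈ A.cc K := by
  rw [cc, Subring.mem_centralizer_iff] at hS ⊢
  intro g hg
  calc g * T = T * S * g * T := by rw [h2, one_mul]
    _ = T * (S * g) * T := by rw [← mul_assoc]
    _ = T * g * (S * T) := by rw [← hS g hg]; simp only [mul_assoc]
    _ = T * g := by rw [h1, mul_one]

lemma isCom_insert {K : Set J} (hK : A.IsCom K) {x : J} (hU : A.U x ∈ A.cc K)
    (hP : ∀ k ∈ K, A.P x k ∈ A.cc K) : A.IsCom (insert x K) := by
  rw [isCom_iff]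
  have key : ∀ T ∈ A.ops (insert x K), T ∈ A.cc K := by
    rintro T (⟨a, ha, rfl⟩ | ⟨a, ha, b, hb, rfl⟩)
    · rcases ha with rfl | ha
      · exact hU
      · exact ops_le_cc (Or.inl ⟨a, ha, rfl⟩)
    · rcases ha with rfl | ha
      · rcases hb with rfl | hb
        · rw [P_self]; exact add_mem hU hU
        · exact hP b hb
      · rcases hb with rfl | hb
        · rw [P_comm]; exact hP a ha
        · exact ops_le_cc (Or.inr ⟨a, ha, b, hb, rfl⟩)
  intro S hS T hT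
  exact cc_comm hK (key S hS) (key T hT)

/-- BLOCK MAX. -/
theorem exists_isCK (hdiv : A.IsDivision) {S0 : Set J} (h1 : A.one ∈ S0) (hS : A.IsCom S0) :
    ∃ K, A.IsCK K ∧ S0 ⊆ K ∧ ∀ x, A.IsCom (insert x K) → x ∈ K := by
  obtain ⟨K, hSK, hmax⟩ := zorn_subset_nonempty {K : Set J | A.IsCom K} (by
    intro c hc hchain hne
    refine ⟨⋃₀ c, ?_, fun s hs => Set.subset_sUnion_of_mem hs⟩
    have hdir : DirectedOn (fun i j : Set J => id i ⊆ id j) c := hchain.directedOn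
    have fin : ∀ s : Finset J, (s : Set J) ⊆ ⋃₀ c → ∃ K ∈ c, (s : Set J) ⊆ K := by
      intro s hs
      rw [Set.sUnion_eq_biUnion] at hs
      exact hdir.exists_mem_subset_of_finset_subset_biUnion hne hs
    classical
    refine ⟨fun a ha b hb => ?_, fun a ha b hb d hd => ?_, fun a ha b hb d hd e he => ?_⟩
    · obtain ⟨K, hK, h⟩ := fin {a, b} (by
        intro x hx; simp only [Finset.coe_insert, Finset.coe_singleton, Set.mem_insert_iff,
          Set.mem_singleton_iff] at hx; rcases hx with rfl | rfl <;> assumption)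
      exact (hc hK).UU a (h (by simp)) b (h (by simp))
    · obtain ⟨K, hK, h⟩ := fin {a, b, d} (by
        intro x hx; simp only [Finset.coe_insert, Finset.coe_singleton, Set.mem_insert_iff,
          Set.mem_singleton_iff] at hx; rcases hx with rfl | rfl | rfl <;> assumption)
      exact (hc hK).UP a (h (by simp)) b (h (by simp)) d (h (by simp))
    · obtain ⟨K, hK, h⟩ := fin {a, b, d, e} (by
        intro x hx; simp only [Finset.coe_insert, Finset.coe_singleton, Set.mem_insert_iff,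
          Set.mem_singleton_iff] at hx; rcases hx with rfl | rfl | rfl | rfl <;> assumption)
      exact (hc hK).PP a (h (by simp)) b (h (by simp)) d (h (by simp)) e (h (by simp))) S0 hS
  have hK : A.IsCom K := hmax.prop
  have hmem : ∀ x, A.IsCom (insert x K) → x ∈ K := by
    intro x hx
    exact hmax.le_of_ge hx (Set.subset_insert x K) (Set.mem_insert x K)
  have h1K : A.one ∈ K := hSK h1
  have hU : ∀ a ∈ K, A.U a ∈ A.cc K := fun a ha => ops_le_cc (Or.inl ⟨a, ha, rfl⟩)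
  have hP : ∀ a ∈ K, ∀ b ∈ K, A.P a b ∈ A.cc K :=
    fun a ha b hb => ops_le_cc (Or.inr ⟨a, ha, b, hb, rfl⟩)
  refine ⟨K, ⟨hK, h1K, ?_, ?_, ?_⟩, hSK, hmem⟩
  · intro a ha b hb
    apply hmem
    apply isCom_insert hK
    · rw [U_add']; exact add_mem (add_mem (hU a ha) (hU b hb)) (hP a ha b hb)
    · intro k hk
      rw [P_add_left]; exact add_mem (hP a ha k hk) (hP b hb k hk)
  · intro a ha
    apply hmem
    apply isCom_insert hK
    · rw [U_neg]; exact hU a ha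
    · intro k hk
      rw [P_neg_left]; exact neg_mem (hP a ha k hk)
  · intro a ha ha0
    apply hmem
    have hinv : A.U (A.inv a) ∈ A.cc K :=
      cc_inv (hU a ha) (U_inv_mul_cancel hdiv ha0).2 (U_inv_mul_cancel hdiv ha0).1
    apply isCom_insert hK hinv
    intro k hk
    rw [P_comm, P_eq_V2_mul hdiv (inv_ne hdiv ha0), inv_inv' hdiv ha0]
    have h2 : A.V2 k a = A.V k * A.V a - A.P k a := by rw [V_mul_V hdiv]; abel
    rw [h2]
    exact mul_mem (sub_mem (mul_mem (hP k hk _ h1K) (hP a ha _ h1K)) (hP k hk a ha)) hinv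

theorem IsCK.zero_mem {K : Set J} (hK : A.IsCK K) : (0 : J) ∈ K := by
  have := hK.add _ hK.one _ (hK.neg _ hK.one)
  rwa [add_neg_cancel] at this

theorem IsCK.sub_mem {K : Set J} (hK : A.IsCK K) {a b : J} (ha : a ∈ K) (hb : b ∈ K) :
    a - b ∈ K := by
  rw [sub_eq_add_neg]; exact hK.add _ ha _ (hK.neg _ hb)

/-- Hua: `U a b = a - (a⁻¹ + (b⁻¹ - a)⁻¹)⁻¹`. -/
theorem IsCK.U_mem (hdiv : A.IsDivision) {K : Set J} (hK : A.IsCK K) {a b : J} (ha : a ∈ K)
    (hb : b ∈ K) : A.U a b ∈ K := by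
  rcases eq_or_ne a 0 with rfl | ha0
  · rw [U_zero]; exact hK.zero_mem
  rcases eq_or_ne b 0 with rfl | hb0
  · rw [map_zero]; exact hK.zero_mem
  rcases eq_or_ne (A.inv b - a) 0 with h0 | h0
  · have : A.inv b = a := sub_eq_zero.1 h0
    have h1 : b = A.inv a := by rw [← this, inv_inv' hdiv hb0]
    rw [h1, U_inv hdiv ha0]; exact ha
  · have h1 := hua hdiv ha0 hb0 h0
    have h2 : A.U a b = a - A.inv (A.inv a + A.inv (A.inv b - a)) := by rw [h1]; abel
    have h3 : A.inv b - a ∈ K := hK.sub_mem (hK.inv _ hb hb0) ha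
    have h4 : A.inv a + A.inv (A.inv b - a) ∈ K :=
      hK.add _ (hK.inv _ ha ha0) _ (hK.inv _ h3 h0)
    have h5 : A.inv a + A.inv (A.inv b - a) ≠ 0 :=
      inv_add_inv_ne hdiv ha0 h0 (by
        rw [add_sub_cancel]; exact inv_ne hdiv hb0)
    rw [h2]
    exact hK.sub_mem ha (hK.inv _ h4 h5)

theorem IsCK.tr_mem (hdiv : A.IsDivision) {K : Set J} (hK : A.IsCK K) {a b c : J} (ha : a ∈ K)
    (hb : b ∈ K) (hc : c ∈ K) : A.tr a b c ∈ K := by
  have : A.tr a b c = A.U (a + c) b - A.U a b - A.U c b := by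
    rw [tr_def, P_def]; rfl
  rw [this]
  exact hK.sub_mem (hK.sub_mem (hK.U_mem hdiv (hK.add _ ha _ hc) hb) (hK.U_mem hdiv ha hb))
    (hK.U_mem hdiv hc hb)

/-- the isotope of a commuting set -/
lemma IsCom.isotope (hdiv : A.IsDivision) {K : Set J} (hK : A.IsCom K) {u : J} (hu : u ≠ 0)
    (huK : u ∈ K) : (QuadraticJordanAlgebra.isotope hdiv hu).IsCom K := by
  have hinv : A.U (A.inv u) ∈ A.cc K :=
    cc_inv (ops_le_cc (Or.inl ⟨u, huK, rfl⟩)) (U_inv_mul_cancel hdiv hu).2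
      (U_inv_mul_cancel hdiv hu).1
  rw [isCom_iff]
  have key : ∀ T ∈ (QuadraticJordanAlgebra.isotope hdiv hu).ops K, T ∈ A.cc K := by
    rintro T (⟨a, ha, rfl⟩ | ⟨a, ha, b, hb, rfl⟩)
    · rw [isotope_U]
      exact mul_mem (ops_le_cc (Or.inl ⟨a, ha, rfl⟩)) hinv
    · rw [isotope_P]
      exact mul_mem (ops_le_cc (Or.inr ⟨a, ha, b, hb, rfl⟩)) hinv
  intro S hS T hT
  exact cc_comm hK (key S hS) (key T hT)

theorem IsCK.isotope (hdiv : A.IsDivision) {K : Set J} (hK : A.IsCK K) {u : J} (hu : u ≠ 0)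
    (huK : u ∈ K) : (QuadraticJordanAlgebra.isotope hdiv hu).IsCK K where
  com := hK.com.isotope hdiv hu huK
  one := huK
  add := hK.add
  neg := hK.neg
  inv a ha ha0 := by
    rw [isotope_inv hdiv hu ha0]
    exact hK.U_mem hdiv huK (hK.inv a ha ha0)

theorem isLine_of_isCK (hdiv : A.IsDivision) {l : Set J} {u : J} (hu : u ≠ 0)
    (hK : (QuadraticJordanAlgebra.isotope hdiv hu).IsCK l)
    (ht : ∃ f ∈ l, ∃ g ∈ l, ∃ h ∈ l, Trip f g h) : IsLine hdiv l where
  ck v hv hvl := by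
    rw [← isotope_isotope hdiv hu hv]
    exact hK.isotope (isotope_isDivision hdiv hu) hv hvl
  trip := ht

theorem isLine_of_isCK_one (hdiv : A.IsDivision) {l : Set J} (hK : A.IsCK l)
    (ht : ∃ f ∈ l, ∃ g ∈ l, ∃ h ∈ l, Trip f g h) : IsLine hdiv l := by
  apply isLine_of_isCK hdiv hdiv.1 _ ht
  rwa [isotope_one_eq]

theorem IsLine.isCK (hdiv : A.IsDivision) {l : Set J} (hl : IsLine hdiv l) (h1 : A.one ∈ l) :
    A.IsCK l := by
  have := hl.ck A.one hdiv.1 h1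
  rwa [isotope_one_eq] at this

theorem IsLine.isotope (hdiv : A.IsDivision) {l : Set J} (hl : IsLine hdiv l) {u : J}
    (hu : u ≠ 0) : IsLine (isotope_isDivision hdiv hu) l where
  ck v hv hvl := by
    rw [isotope_isotope hdiv hu hv]
    exact hl.ck v hv hvl
  trip := hl.trip

/-- a line contains `U a b⁻¹` for `a, b` in it -/
theorem IsLine.U_inv_mem (hdiv : A.IsDivision) {l : Set J} (hl : IsLine hdiv l) {a b : J}
    (ha : a ∈ l) (hb : b ∈ l) (hb0 : b ≠ 0) : A.U a (A.inv b) ∈ l := by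
  have h := (hl.ck b hb0 hb).U_mem (isotope_isDivision hdiv hb0) ha hb
  rw [isotope_U_apply, U_inv_self hdiv hb0] at h
  exact h

theorem IsLine.add_mem (hdiv : A.IsDivision) {l : Set J} (hl : IsLine hdiv l) {a b : J}
    (ha : a ∈ l) (hb : b ∈ l) : a + b ∈ l := by
  rcases eq_or_ne a 0 with rfl | ha0
  · rwa [zero_add]
  · exact (hl.ck a ha0 ha).add _ ha _ hb

theorem IsLine.neg_mem (hdiv : A.IsDivision) {l : Set J} (hl : IsLine hdiv l) {a : J}
    (ha : a ∈ l) : -a ∈ l := by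
  rcases eq_or_ne a 0 with rfl | ha0
  · rwa [neg_zero]
  · exact (hl.ck a ha0 ha).neg _ ha

theorem IsLine.zero_mem (hdiv : A.IsDivision) {l : Set J} (hl : IsLine hdiv l) : (0 : J) ∈ l := by
  obtain ⟨f, hf, _, _, _, _, ht⟩ := hl.trip
  exact (hl.ck f ht.1 hf).zero_mem

/-- `γ(l)` is a line. -/
theorem IsLine.image (hdiv : A.IsDivision) {E : Type*} [AddCommGroup E] (S : Sys A E)
    {l : Set J} (hl : IsLine hdiv l) (γ : S.G) :
    IsLine hdiv ((fun x => (γ : J ≃ₗ[R] J) x) '' l) := by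
  obtain ⟨f, hf, g, hg, h, hh, ht⟩ := hl.trip
  have hc := hl.ck f ht.1 hf
  have hne : ∀ a, a ≠ 0 → (γ : J ≃ₗ[R] J) a ≠ 0 := fun a ha => S.γ_ne γ ha
  have hne' : ∀ a, (γ : J ≃ₗ[R] J) a ≠ 0 → a ≠ 0 := by
    rintro a ha rfl; exact ha (map_zero _)
  have htrip : ∃ f ∈ (fun x => (γ : J ≃ₗ[R] J) x) '' l, ∃ g ∈ (fun x => (γ : J ≃ₗ[R] J) x) '' l,
      ∃ h ∈ (fun x => (γ : J ≃ₗ[R] J) x) '' l, Trip f g h := by
    refine ⟨_, ⟨f, hf, rfl⟩, _, ⟨g, hg, rfl⟩, _, ⟨h, hh, rfl⟩, ?_⟩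
    obtain ⟨t1, t2, t3, t4, t5, t6, t7⟩ := ht
    simp only [Trip, ← map_add]
    exact ⟨hne _ t1, hne _ t2, hne _ t3, hne _ t4, hne _ t5, hne _ t6, hne _ t7⟩
  refine isLine_of_isCK hdiv (hne f ht.1) ⟨?_, ⟨f, hf, rfl⟩, ?_, ?_, ?_⟩ htrip
  · -- the operators are conjugate
    have eU : ∀ a, (QuadraticJordanAlgebra.isotope hdiv (hne f ht.1)).U ((γ : J ≃ₗ[R] J) a) =
        (γ : J ≃ₗ[R] J).conj ((QuadraticJordanAlgebra.isotope hdiv ht.1).U a) := by
      intro a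
      rcases eq_or_ne a 0 with rfl | ha
      · rw [map_zero, U_zero, U_zero, map_zero]
      refine LinearMap.ext fun x => ?_
      rw [LinearEquiv.conj_apply_apply, isotope_U_apply, isotope_U_apply]
      show _ = (γ : J ≃ₗ[R] J) _
      rw [S.γ_U hdiv γ ha ht.1, LinearEquiv.apply_symm_apply]
    have eP : ∀ a b, (QuadraticJordanAlgebra.isotope hdiv (hne f ht.1)).P ((γ : J ≃ₗ[R] J) a)
        ((γ : J ≃ₗ[R] J) b) =
        (γ : J ≃ₗ[R] J).conj ((QuadraticJordanAlgebra.isotope hdiv ht.1).P a b) := by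
      intro a b
      rw [P_def, P_def, ← map_add, eU, eU, eU, map_sub, map_sub]
    have comm : ∀ S T : Module.End R J, Commute S T →
        Commute ((γ : J ≃ₗ[R] J).conj S) ((γ : J ≃ₗ[R] J).conj T) := by
      intro S T h
      show _ * _ = _ * _
      rw [Module.End.mul_eq_comp, Module.End.mul_eq_comp, ← LinearEquiv.conj_comp,
        ← LinearEquiv.conj_comp, ← Module.End.mul_eq_comp, ← Module.End.mul_eq_comp, h.eq]
    refine ⟨?_, ?_, ?_⟩
    · rintro _ ⟨a, ha, rfl⟩ _ ⟨b, hb, rfl⟩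
      simp only [eU]
      exact comm _ _ (hc.com.UU a ha b hb)
    · rintro _ ⟨a, ha, rfl⟩ _ ⟨b, hb, rfl⟩ _ ⟨c, hc', rfl⟩
      simp only [eU, eP]
      exact comm _ _ (hc.com.UP a ha b hb c hc')
    · rintro _ ⟨a, ha, rfl⟩ _ ⟨b, hb, rfl⟩ _ ⟨c, hc', rfl⟩ _ ⟨d, hd, rfl⟩
      simp only [eP]
      exact comm _ _ (hc.com.PP a ha b hb c hc' d hd)
  · rintro _ ⟨a, ha, rfl⟩ _ ⟨b, hb, rfl⟩
    exact ⟨a + b, hc.add a ha b hb, map_add _ _ _⟩
  · rintro _ ⟨a, ha, rfl⟩
    exact ⟨-a, hc.neg a ha, map_neg _ _⟩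
  · rintro _ ⟨a, ha, rfl⟩ ha0
    have ha1 := hne' a ha0
    refine ⟨_, hc.inv a ha ha1, ?_⟩
    simp only
    rw [isotope_inv hdiv ht.1 ha1, isotope_inv hdiv (hne f ht.1) (hne a ha1)]
    exact S.γ_inv hdiv γ ht.1 ha1

end Pool.Agent.Helper4.Jordan.QuadraticJordanAlgebra
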