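import Pool.Agent.Helper36.St.Act

/-! The stabiliser lemma, characteristic 2. -/

namespace Pool.Agent.Helper4.Jordan.QuadraticJordanAlgebra

open QuadraticMap

variable {R J : Type*} [CommRing R] [AddCommGroup J] [Module R J]
  {A : QuadraticJordanAlgebra R J}

namespace SL2aux

lemma U_add_one (a b : J) :
    A.U (a + b) A.one = A.U a A.one + A.U b A.one + A.jp a b := by
  rw [U_add']; rfl

lemma sq_sq (a : J) : A.U (A.U a A.one) A.one = A.U a (A.U a A.one) := by
  rw [A.QJ3, Module.End.mul_apply, Module.End.mul_apply, U_one', Module.End.one_apply]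

lemma eq_of_add (h2 : ∀ a : J, a + a = 0) {a b : J} (h : a + b = 0) : a = b := by
  rw [eq_neg_of_add_eq_zero_left h, eq_comm, eq_neg_iff_add_eq_zero, h2]

lemma eq_one_of_inv (h2 : ∀ a : J, a + a = 0) (hdiv : A.IsDivision) {ω : J} (hω : ω ≠ 0)
    (h : A.inv ω = ω) : ω = A.one := by
  have hs : A.U ω (A.U ω A.one) = A.one := by
    have := U_U_inv hdiv hω A.one
    rwa [h] at this
  have h1 : A.U ω A.one = A.one := by
    apply eq_of_add h2
    apply eq_zero_of_U hdiv hdiv.1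
    rw [U_add_one, sq_sq, hs, U_one', Module.End.one_apply, jp_one, h2, h2, add_zero]
  apply eq_of_add h2
  apply eq_zero_of_U hdiv hdiv.1
  rw [U_add_one, h1, U_one', Module.End.one_apply, jp_one, h2, h2, add_zero]

lemma sq_of_inv (h2 : ∀ a : J, a + a = 0) (hdiv : A.IsDivision) {ω : J} (hω : ω ≠ 0)
    (h : A.inv ω = ω + A.one) : A.U ω A.one = ω + A.one := by
  set s := A.U ω A.one with hs
  have e1 : A.U (ω + A.one) A.one = s + A.one := by
    rw [U_add_one, U_one', Module.End.one_apply, jp_one, h2, add_zero]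
  have e2 : A.U ω s + s = A.one := by
    have := U_U_inv hdiv hω A.one
    rwa [h, e1, map_add, ← hs] at this
  have e3 : A.jp s ω = 0 := by
    rw [jp_comm, ← V_apply, hs, ← Module.End.mul_apply, V_mul_U, Module.End.mul_apply, V_apply,
      jp_one, h2, map_zero]
  apply eq_of_add h2
  apply eq_zero_of_U hdiv hdiv.1
  rw [U_add_one, e1, hs, sq_sq, ← hs, jp_add_right, e3, jp_one, h2, add_zero, add_zero,
    ← add_assoc, e2, h2]

variable {E : Type*} [AddCommGroup E] (S : Sys A E)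

lemma w_inv_eq (hdiv : A.IsDivision) {b : J} (hb : b ≠ 0) : S.w (A.inv b) = (S.w b)⁻¹ := by
  apply S.ext_G
  intro x
  rw [S.hw _ (inv_ne hdiv hb), S.w_inv_apply hdiv hb]

lemma w_sq (hdiv : A.IsDivision) {b : J} (hb : b ≠ 0) :
    S.w (A.U b A.one) = S.w b * S.w b := by
  apply S.ext_G
  intro x
  rw [S.hw _ (U_ne hdiv hb hdiv.1), S.mul_apply, S.hw b hb, S.hw b hb, U_sq]
  rfl

/-- a stabiliser of `u` moves `e` over `u` by an element of order at most two -/
lemma two_torsion (h2 : ∀ a : J, a + a = 0) (δ : S.G) {e : E}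
    (he : (δ : J ≃ₗ[R] J) (S.π e) = S.π e) :
    ∃ c, S.ρ δ e = e + c ∧ S.π c = 0 ∧ c + c = 0 := by
  refine ⟨S.ρ δ e - e, by abel, by rw [map_sub, S.equi, he, sub_self], ?_⟩
  have h1 : S.π (e + e) = 0 := by rw [map_add, h2]
  have h3 := S.triv δ _ h1
  rw [map_add] at h3
  have : S.ρ δ e - e + (S.ρ δ e - e) = (S.ρ δ e + S.ρ δ e) - (e + e) := by abel
  rw [this, h3, sub_self]

end SL2aux

open SL2aux in
/-- BLOCK SL2. The stabiliser lemma in characteristic 2. -/
theorem SL2 (h2 : ∀ a : J, a + a = 0) (hdiv : A.IsDivision) {E : Type*} [AddCommGroup E]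
    (S : Sys A E) : S.SL := by
  intro g y hg hy e he
  by_cases hv : A.jp (A.inv g) (A.inv y) = 0
  · have h0 : S.π e = 0 := he.trans hv
    rw [Sys.W, Sys.W, S.triv _ e h0, S.triv _ e h0, S.triv _ e h0]
  set v := A.jp (A.inv g) (A.inv y) with hvdef
  set u := A.jp g y with hudef
  have hu : u ≠ 0 := fun h => hv ((jp_inv_inv_eq_zero hdiv hg hy).2 h)
  have hgy : A.U g (A.U y v) = u := U_U_jp_inv hdiv hg hy
  have hyg : A.U y (A.U g v) = u := by
    have := U_U_jp_inv hdiv hy hg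
    rwa [jp_comm (A.inv y), jp_comm y g] at this
  set w := A.inv v with hwdef
  have hw0 : w ≠ 0 := inv_ne hdiv hv
  have hw1 : A.U g (A.U y (A.inv u)) = w := by
    rw [← hyg, inv_U hdiv hy (U_ne hdiv hg hv), inv_U hdiv hg hv, U_U_inv hdiv hy,
      U_U_inv hdiv hg]
  have hw2 : A.U y (A.U g (A.inv u)) = w := by
    rw [← hgy, inv_U hdiv hg (U_ne hdiv hy hv), inv_U hdiv hy hv, U_U_inv hdiv hg,
      U_U_inv hdiv hy]
  -- group elements
  set a' : S.G := S.w g * S.w y * (S.w u)⁻¹ with ha'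
  set b' : S.G := S.w y * S.w g * (S.w u)⁻¹ with hb'
  set c' : S.G := S.w w * (S.w u)⁻¹ with hc'
  set h : S.G := S.w g * S.w y * (S.w y * S.w g)⁻¹ with hh
  have hab : a' * b' = c' := by
    rw [ha', hb', hc', ← mul_assoc]
    congr 1
    apply S.ext_G
    intro x
    simp only [S.mul_apply, S.hw g hg, S.hw y hy, S.hw w hw0, S.w_inv_apply hdiv hu]
    rw [← hw1, A.QJ3, A.QJ3]
    simp only [Module.End.mul_apply]
  have hba : b' * a' = c' := by
    rw [ha', hb', hc', ← mul_assoc]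
    congr 1
    apply S.ext_G
    intro x
    simp only [S.mul_apply, S.hw g hg, S.hw y hy, S.hw w hw0, S.w_inv_apply hdiv hu]
    rw [← hw2, A.QJ3, A.QJ3]
    simp only [Module.End.mul_apply]
  have hhab : h = a' * b'⁻¹ := by rw [hh, ha', hb']; group
  have ha'u : (a' : J ≃ₗ[R] J) u = w := by
    rw [ha', S.mul_apply, S.mul_apply, S.w_inv_apply hdiv hu, U_inv_self hdiv hu, S.hw y hy,
      S.hw g hg, hw1]
  have hb'u : (b' : J ≃ₗ[R] J) u = w := by
    rw [hb', S.mul_apply, S.mul_apply, S.w_inv_apply hdiv hu, U_inv_self hdiv hu, S.hw y hy,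
      S.hw g hg, hw2]
  have hb'w : ((b'⁻¹ : S.G) : J ≃ₗ[R] J) w = u := by
    rw [← hb'u, S.inv_apply_apply]
  have hhw : (h : J ≃ₗ[R] J) w = w := by
    rw [hhab, S.mul_apply, hb'w, ha'u]
  have hhu : (h : J ≃ₗ[R] J) u = u := by
    have h1 : (((S.w y * S.w g)⁻¹ : S.G) : J ≃ₗ[R] J) u = v := by
      have h3 : ((S.w y * S.w g : S.G) : J ≃ₗ[R] J) v = u := by
        rw [S.mul_apply, S.hw g hg, S.hw y hy, hyg]
      rw [← h3, S.inv_apply_apply]
    rw [hh, S.mul_apply, h1, S.mul_apply, S.hw y hy, S.hw g hg, hgy]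
  -- the element over `u`
  set e1 := S.W y (S.W g e) with he1
  have hπe1 : S.π e1 = u := by
    rw [he1, S.π_W hy, S.π_W hg, he, hyg]
  suffices hmain : S.ρ h e1 = e1 by
    have h1 : S.ρ h e1 = S.W g (S.W y e) := by
      rw [he1, Sys.W, Sys.W, ← S.ρ_mul, ← S.ρ_mul, hh, ← S.ρ_mul]
      congr 2
      group
    rw [← h1, hmain]
  have hhe : (h : J ≃ₗ[R] J) (S.π e1) = S.π e1 := by rw [hπe1, hhu]
  -- the element `t`
  set t := A.U u (A.inv w) with ht
  have ht0 : t ≠ 0 := U_ne hdiv hu (inv_ne hdiv hw0)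
  have hht : (h : J ≃ₗ[R] J) t = t := by
    rw [ht, S.γ_inv hdiv h hu hw0, hhu, hhw]
  -- the case `w = u`
  have case1 : w = u → S.ρ h e1 = e1 := by
    intro hwu
    have hc1 : c' = 1 := by rw [hc', hwu, mul_inv_cancel]
    have hh2 : h = a' * a' := by
      rw [hhab]
      congr 1
      rw [inv_eq_iff_eq_inv, eq_comm, inv_eq_iff_mul_eq_one, hab, hc1]
    obtain ⟨c, hc, hcπ, hcc⟩ := two_torsion S h2 a' (e := e1) (by rw [hπe1, ha'u, hwu])
    rw [hh2, S.ρ_mul, hc, map_add, hc, S.triv a' c hcπ, add_assoc, hcc, add_zero]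
  by_cases htrip : Trip u w t
  · exact S.fix_of_trip hdiv h htrip hhu hhw hht hhe
  -- the remaining cases
  have hsplit : w = u ∨ u + w + t = 0 := by
    by_contra hcon
    rw [not_or] at hcon
    apply htrip
    refine ⟨hu, hw0, ht0, fun h0 => hcon.1 (eq_of_add h2 h0).symm, fun h0 => ?_, fun h0 => ?_,
      hcon.2⟩
    · -- `u = t`
      apply hcon.1
      have h1 := eq_of_add h2 h0
      have h3 : A.inv w = A.inv u := by
        apply U_inj hdiv hu
        rw [U_inv hdiv hu]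
        exact h1.symm
      exact inv_injective hdiv hw0 hu h3
    · apply hcon.1
      have h1 : w = t := eq_of_add h2 h0
      have := eq_one_of_inv (A := isotope hdiv hu) h2 (isotope_isDivision hdiv hu) hw0
        (by rw [isotope_inv hdiv hu hw0]; exact h1.symm)
      exact this
  rcases hsplit with hwu | hsum
  · exact case1 hwu
  -- `u + w + t = 0`
  have htt : t = w + u := by
    have := eq_of_add h2 hsum
    rw [← this, add_comm]
  have hinv' : (isotope hdiv hu).inv w = w + (isotope hdiv hu).one := by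
    rw [isotope_inv hdiv hu hw0]; exact htt
  have hsq := sq_of_inv (A := isotope hdiv hu) h2 (isotope_isDivision hdiv hu) hw0 hinv'
  -- `c' ^ 3 = 1`
  have hc3 : c' * c' * c' = 1 := by
    have i1 := w_inv_eq (S.isotope hdiv hu) (isotope_isDivision hdiv hu) hw0
    have i2 := w_sq (S.isotope hdiv hu) (isotope_isDivision hdiv hu) hw0
    rw [hinv', ← hsq, i2] at i1
    change c' * c' = c'⁻¹ at i1
    rw [i1, inv_mul_cancel]
  -- `a' w = w + u`
  have ha'w : (a' : J ≃ₗ[R] J) w = w + u := by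
    rw [← hb'u, ← S.mul_apply, hab, hc', S.mul_apply, S.w_inv_apply hdiv hu, S.hw w hw0, hb'u]
    exact hsq
  have ha'wu : (a' : J ≃ₗ[R] J) (w + u) = u := by
    rw [map_add, ha'w, ha'u, add_assoc, add_comm u w, ← add_assoc, h2, zero_add]
  have ha3 : S.ρ a' (S.ρ a' (S.ρ a' e1)) = e1 := by
    have h1 : S.π (e1 + S.ρ a' e1 + S.ρ a' (S.ρ a' e1)) = 0 := by
      rw [map_add, map_add, S.equi, S.equi, S.equi, hπe1, ha'u, ha'w]
      have : u + w + (w + u) = (u + w) + (u + w) := by abel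
      rw [this, h2]
    have h3 := S.triv a' _ h1
    rw [map_add, map_add] at h3
    have h4 : S.ρ a' (S.ρ a' (S.ρ a' e1)) =
        (S.ρ a' e1 + S.ρ a' (S.ρ a' e1) + S.ρ a' (S.ρ a' (S.ρ a' e1))) - S.ρ a' e1 -
          S.ρ a' (S.ρ a' e1) := by abel
    rw [h4, h3]
    abel
  -- `h ^ 3 = a' ^ 6`
  have hcomm : a' * b' = b' * a' := by rw [hab, hba]
  have hh3 : h * h * h = a' * a' * a' * (a' * a' * a') := by
    have hac : Commute a' c' := by
      show a' * c' = c' * a'
      have h6 : a' * c' = a' * (b' * a') := by rw [hba]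
      rw [h6, ← mul_assoc, hab]
    have hh1 : h = a' * a' * c'⁻¹ := by
      rw [hhab, ← hab]
      rw [hcomm]
      group
    have k1 : Commute (a' * a') c'⁻¹ := (hac.mul_left hac).inv_right
    rw [hh1]
    calc a' * a' * c'⁻¹ * (a' * a' * c'⁻¹) * (a' * a' * c'⁻¹)
        = a' * a' * (c'⁻¹ * (a' * a')) * (c'⁻¹ * (a' * a')) * c'⁻¹ := by group
      _ = a' * a' * (a' * a' * c'⁻¹) * (a' * a' * c'⁻¹) * c'⁻¹ := by rw [k1.eq]
      _ = a' * a' * (a' * a') * (c'⁻¹ * (a' * a')) * (c'⁻¹ * c'⁻¹) := by group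
      _ = a' * a' * (a' * a') * (a' * a' * c'⁻¹) * (c'⁻¹ * c'⁻¹) := by rw [k1.eq]
      _ = a' * a' * a' * (a' * a' * a') * (c' * c' * c')⁻¹ := by group
      _ = _ := by rw [hc3, inv_one, mul_one]
  have hfix : S.ρ (h * h * h) e1 = e1 := by
    rw [hh3]
    simp only [S.ρ_mul]
    rw [ha3, ha3]
  obtain ⟨c, hc, hcπ, hcc⟩ := two_torsion S h2 h hhe
  rw [S.ρ_mul, S.ρ_mul, hc, map_add, hc, S.triv h c hcπ, map_add, map_add, hc,
    S.triv h c hcπ] at hfix
  have h5 : e1 + c + c + c = e1 := hfix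
  rw [add_assoc e1, hcc, add_zero] at h5
  rw [hc, h5]

end Pool.Agent.Helper4.Jordan.QuadraticJordanAlgebra
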