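import Pool.Agent.Helper36.St.T13
import Pool.Agent.Helper36.St.Lines2
import Pool.Agent.Helper36.St.SL2

/-! Characteristic 2: comparison of retractions over triple products. -/

namespace Pool.Agent.Helper4.Jordan.QuadraticJordanAlgebra

open QuadraticMap

variable {R J : Type*} [CommRing R] [AddCommGroup J] [Module R J]
  {A : QuadraticJordanAlgebra R J}

variable {E : Type*} [AddCommGroup E] (S : Sys A E)

/-- `l` contains two of the three elements -/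
def Two (l : Set J) (a b c : J) : Prop := (a ∈ l ∧ b ∈ l) ∨ (a ∈ l ∧ c ∈ l) ∨ (b ∈ l ∧ c ∈ l)

/-- BLOCK P2A (i). Lines containing two of `x, v⁻¹, y` agree over `{x,v,y}`. Proof: `T3l` at
`u = v⁻¹` (`inv u = v`): lines `l ∋ v⁻¹, x` and `l' ∋ v⁻¹, y` agree. Since such `l'` (resp. `l`) exist
(`exists_line2`), all lines of these two types agree. `{x,v,y} = {y, x⁻¹, U_x v}` (`tr_inv_U'`) and
`T3l` at `u = x`: a line `l1 ∋ x, y` and a line `l2 ∋ x, U_x v` agree; if `v⁻¹, x ∈ l2` then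
`U_x (v⁻¹)⁻¹ = U_x v ∈ l2` (`IsLine.U_inv_mem`). -/
theorem P2a (h2 : ∀ a : J, a + a = 0) (hdiv : A.IsDivision) (hbig : Big J 4)
    {l l' : Set J} (hl : IsLine hdiv l) (hl' : IsLine hdiv l') {r r' : E →+ E}
    (hr : S.IsRet l r) (hr' : S.IsRet l' r') {x v y : J} (hx : x ≠ 0) (hv : v ≠ 0) (hy : y ≠ 0)
    (h : Two l x (A.inv v) y) (h' : Two l' x (A.inv v) y) {e : E} (he : S.π e = A.tr x v y) :
    r e = r' e := by
  have hSL : ∀ u (hu : u ≠ 0), (S.isotope hdiv hu).SL := fun u hu =>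
    SL2 h2 (isotope_isDivision hdiv hu) (S.isotope hdiv hu)
  have hv' : A.inv v ≠ 0 := inv_ne hdiv hv
  obtain ⟨la, hla, hla1, hla2⟩ := exists_line2 h2 hdiv hbig hv' x
  obtain ⟨ra, hra⟩ := S.exists_isRet hdiv hla
  obtain ⟨lc, hlc, hlc1, hlc2⟩ := exists_line2 h2 hdiv hbig hv' y
  obtain ⟨rc, hrc⟩ := S.exists_isRet hdiv hlc
  have key : ∀ (l : Set J) (_ : IsLine hdiv l) (r : E →+ E) (_ : S.IsRet l r)
      (_ : Two l x (A.inv v) y), r e = ra e := by
    intro l hl r hr h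
    have hac : ∀ (l : Set J) (_ : IsLine hdiv l) (r : E →+ E) (_ : S.IsRet l r)
        (l' : Set J) (_ : IsLine hdiv l') (r' : E →+ E) (_ : S.IsRet l' r')
        (_ : A.inv v ∈ l) (_ : A.inv v ∈ l') (_ : x ∈ l) (_ : y ∈ l'), r e = r' e := by
      intro l hl r hr l' hl' r' hr' h1 h2' h3 h4
      refine T3l S (Or.inl h2) hdiv hSL hl hl' hr hr' hv' h1 h2' h3 h4 ?_
      rw [inv_inv' hdiv hv, he]
    rcases h with h | h | h
    · rw [hac l hl r hr lc hlc rc hrc h.2 hlc1 h.1 hlc2,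
        hac la hla ra hra lc hlc rc hrc hla1 hlc1 hla2 hlc2]
    · symm
      refine T3l S (Or.inl h2) hdiv hSL hla hl hra hr hx hla2 h.1
        (X := A.U x v) (Y := y) ?_ h.2 ?_
      · have := hla.U_inv_mem hdiv hla2 hla1 hv'
        rwa [inv_inv' hdiv hv] at this
      · rw [he, tr_comm (A.U x v), tr_inv_U' hdiv hx, tr_comm]
    · exact (hac la hla ra hra l hl r hr hla1 h.1 hla2 h.2).symm
  rw [key l hl r hr h, key l' hl' r' hr' h']

/-- two retractions differ by a function of the projection -/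
lemma Sys.exists_diff {r r' : E →+ E} (h1 : ∀ e, S.π e = 0 → r e = e)
    (h2 : ∀ e, S.π e = 0 → r' e = e) : ∃ D : J →+ E, ∀ e, D (S.π e) = r e - r' e := by
  choose s hs using S.surj
  have key : ∀ e e', S.π e = S.π e' → r e - r' e = r e' - r' e' := by
    intro e e' h
    have h0 : S.π (e - e') = 0 := by rw [map_sub, h, sub_self]
    have e1 := h1 _ h0
    have e2 := h2 _ h0
    rw [map_sub] at e1 e2
    have : r e - r' e - (r e' - r' e') = (r e - r e') - (r' e - r' e') := by abel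
    rw [← sub_eq_zero, this, e1, e2, sub_self]
  refine ⟨AddMonoidHom.mk' (fun X => r (s X) - r' (s X)) ?_, ?_⟩
  · intro X Y
    have := key (s (X + Y)) (s X + s Y) (by rw [map_add, hs, hs, hs])
    simp only [this, map_add]
    abel
  · intro e
    exact key _ _ (hs _)

/-- the outer comparison for a line through `one` -/
lemma P2a_outer_one (h2 : ∀ a : J, a + a = 0) (hdiv : A.IsDivision) (hbig : Big J 4)
    {l l' : Set J} (hl : IsLine hdiv l) (h1 : A.one ∈ l) (hl' : IsLine hdiv l') {r r' : E →+ E}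
    (hr : S.IsRet l r) (hr' : S.IsRet l' r') {x v y : J} (hx : x ≠ 0) (hv : v ≠ 0) (hy : y ≠ 0)
    (h : x ∈ l) (h' : Two l' x (A.inv v) y) {e : E} (he : S.π e = A.tr x v y) :
    r e = r' e := by
  have hK : A.IsCK l := hl.isCK hdiv h1
  -- lines through `u⁻¹, y`
  have hex : ∀ u y : J, u ≠ 0 → y ≠ 0 → ∃ (D : J →+ E), ∀ (x : J), x ≠ 0 →
      ∀ (l' : Set J), IsLine hdiv l' → ∀ (r' : E →+ E), S.IsRet l' r' →
        Two l' x (A.inv u) y → ∀ e, S.π e = A.tr x u y → D (A.tr x u y) = r' e - r e := by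
    intro u y hu hy
    obtain ⟨l1, hl1, hl11, hl12⟩ := exists_line2 h2 hdiv hbig (inv_ne hdiv hu) y
    obtain ⟨r1, hr1⟩ := S.exists_isRet hdiv hl1
    obtain ⟨D, hD⟩ := S.exists_diff hr1.id hr.id
    refine ⟨D, ?_⟩
    intro x hx l' hl' r' hr' h' e he
    rw [← he, hD, P2a S h2 hdiv hbig hl1 hl' hr1 hr' hx hu hy (Or.inr (Or.inr ⟨hl11, hl12⟩)) h' he]
  obtain ⟨D1, hD1⟩ := hex v y hv hy
  obtain ⟨D2, hD2⟩ := hex y v hy hv
  -- the relation (*)
  have star : ∀ (u y : J) (hu : u ≠ 0) (hy : y ≠ 0) (D1 D2 : J →+ E),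
      (∀ (x : J), x ≠ 0 → ∀ (l' : Set J), IsLine hdiv l' → ∀ (r' : E →+ E), S.IsRet l' r' →
        Two l' x (A.inv u) y → ∀ e, S.π e = A.tr x u y → D1 (A.tr x u y) = r' e - r e) →
      (∀ (x : J), x ≠ 0 → ∀ (l' : Set J), IsLine hdiv l' → ∀ (r' : E →+ E), S.IsRet l' r' →
        Two l' x (A.inv y) u → ∀ e, S.π e = A.tr x y u → D2 (A.tr x y u) = r' e - r e) →
      ∀ x ∈ l, x ≠ 0 → D1 (A.tr x u y) = D2 (A.tr (A.inv x) y u) := by
    intro u y hu hy D1 D2 hD1 hD2 x hxl hx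
    obtain ⟨l3, hl3, hl31, hl32⟩ := exists_line2 h2 hdiv hbig hx (A.inv u)
    obtain ⟨r3, hr3⟩ := S.exists_isRet hdiv hl3
    obtain ⟨e', he'⟩ := S.surj (A.tr (A.inv x) y u)
    have hWe : S.π (S.W x e') = A.tr x u y := by
      rw [S.π_W hx, he', U_tr_inv hdiv hx]
    have e1 := hD1 x hx l3 hl3 r3 hr3 (Or.inl ⟨hl31, hl32⟩) _ hWe
    have hl4 := hl3.image hdiv S ((S.w x)⁻¹)
    have hr4 := S.isRet_map hdiv hr3 ((S.w x)⁻¹)
    have m1 : A.inv x ∈ (fun z => (((S.w x)⁻¹ : S.G) : J ≃ₗ[R] J) z) '' l3 :=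
      ⟨x, hl31, by
        show (((S.w x)⁻¹ : S.G) : J ≃ₗ[R] J) x = A.inv x
        rw [S.w_inv_apply hdiv hx, U_inv_self hdiv hx]⟩
    have m2 : u ∈ (fun z => (((S.w x)⁻¹ : S.G) : J ≃ₗ[R] J) z) '' l3 := by
      have h5 := hl3.U_inv_mem hdiv hl31 hl32 (inv_ne hdiv hu)
      rw [inv_inv' hdiv hu] at h5
      refine ⟨_, h5, ?_⟩
      show (((S.w x)⁻¹ : S.G) : J ≃ₗ[R] J) (A.U x u) = u
      rw [S.w_inv_apply hdiv hx, U_inv_U hdiv hx]
    have e2 := hD2 (A.inv x) (inv_ne hdiv hx) _ hl4 _ hr4 (Or.inr (Or.inl ⟨m1, m2⟩)) _ he'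
    rw [e1, e2]
    have e3 : r (S.W x e') = r e' := by
      have := hr.inv x hxl A.one h1 hx hdiv.1 e'
      rwa [Sys.WW, S.w_one hdiv, inv_one, mul_one] at this
    have e4 : r3 (S.W x e') = (r3.comp (S.ρ ((S.w x)⁻¹)⁻¹ : E →+ E)) e' := by
      rw [inv_inv]
      rfl
    rw [e3, e4]
  have s1 := star v y hv hy D1 D2 hD1 hD2
  have s2 := star y v hy hv D2 D1 hD2 hD1
  let T : J → J → J →+ J := fun u y => AddMonoidHom.mk' (fun x => A.tr x u y)
    (fun a b => tr_add_left a b u y)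
  have hT : ∀ u y x, T u y x = A.tr x u y := fun _ _ _ => rfl
  have hinv : ∀ z ∈ l, z ≠ 0 → A.inv z ∈ l := fun z hz hz0 => hK.inv z hz hz0
  have f1 := hua_vanish (Or.inl h2) hdiv hK hl.trip (D1.comp (T v y) + D2.comp (T y v)) (by
    intro z hz hz0
    simp only [AddMonoidHom.add_apply, AddMonoidHom.comp_apply, hT]
    have a1 := s1 (A.inv z) (hinv z hz hz0) (inv_ne hdiv hz0)
    have a2 := s2 (A.inv z) (hinv z hz hz0) (inv_ne hdiv hz0)
    rw [inv_inv' hdiv hz0] at a1 a2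
    rw [a1, a2, add_comm])
  have f2 : ∀ z ∈ l, z ≠ 0 → D1 (A.tr (A.inv z) v y) = D1 (A.tr z v y) := by
    intro z hz hz0
    have a1 := f1 (A.inv z) (hinv z hz hz0)
    simp only [AddMonoidHom.add_apply, AddMonoidHom.comp_apply, hT] at a1
    have a3 : D1 (A.tr (A.inv z) v y) + D1 (A.tr (A.inv z) v y) = 0 := by
      rw [← map_add, h2, map_zero]
    rw [s1 z hz hz0]
    have : D2 (A.tr (A.inv z) y v) = - D1 (A.tr (A.inv z) v y) :=
      (neg_eq_of_add_eq_zero_right a1).symm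
    rw [this]
    exact eq_neg_of_add_eq_zero_left a3
  have f3 := hua_vanish (Or.inl h2) hdiv hK hl.trip (D1.comp (T v y)) (by
    intro z hz hz0
    simp only [AddMonoidHom.comp_apply, hT]
    exact f2 z hz hz0) x h
  simp only [AddMonoidHom.comp_apply, hT] at f3
  have f4 := hD1 x hx l' hl' r' hr' h' e he
  rw [f3] at f4
  exact (sub_eq_zero.1 f4.symm).symm

/-- BLOCK P2A (ii). It is enough that one of the lines contains `x`. Proof: pass to the isotope at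
`x` if necessary so that `one ∈ l` (or: use `l.IsCK` in the isotope at `x`), i.e. let `K = l ∋ one`,
`r` its retraction. For `x, u, y` (`u, y ≠ 0`) let `ν(x,u,y) = Φ(e) - r e`, `e` over `{x,u,y}`,
`Φ(e)` the common value of the retractions of `P2a`; additive in `x` (use a line through `u⁻¹, y`),
`ν(x,u,y) = ν(y,u,x)`. For `x ∈ K` nonzero: `ν(x,u,y) = ν(x⁻¹,y,u)` [`U_x {x⁻¹,y,u} = {x,u,y}`
(`U_tr_inv`); if `l1 ∋ x, u⁻¹` is used for `Φ` then `w_x⁻¹ l1` (`isRet_map`, `IsLine.image`) contains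
`x⁻¹` and `u`]. So `ν(x,u,y) + ν(x,y,u)` is additive in `x` and invariant under `x ↦ x⁻¹`:
`hua_vanish` gives `ν(x,u,y) = ν(x,y,u)` (2ν = 0), hence `ν(x,u,y) = ν(x⁻¹,y,u) = ν(x⁻¹,u,y)`, and
`hua_vanish` again gives `ν(x,u,y) = 0`. -/
theorem P2a_outer (h2 : ∀ a : J, a + a = 0) (hdiv : A.IsDivision) (hbig : Big J 4)
    {l l' : Set J} (hl : IsLine hdiv l) (hl' : IsLine hdiv l') {r r' : E →+ E}
    (hr : S.IsRet l r) (hr' : S.IsRet l' r') {x v y : J} (hx : x ≠ 0) (hv : v ≠ 0) (hy : y ≠ 0)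
    (h : x ∈ l) (h' : Two l' x (A.inv v) y) {e : E} (he : S.π e = A.tr x v y) :
    r e = r' e := by
  have hUv : A.U x v ≠ 0 := U_ne hdiv hx hv
  have e1 : (QuadraticJordanAlgebra.isotope hdiv hx).inv (A.U x v) = A.inv v := by
    rw [isotope_inv hdiv hx hUv, inv_U hdiv hx hv, U_U_inv hdiv hx]
  refine P2a_outer_one (A := QuadraticJordanAlgebra.isotope hdiv hx) (S.isotope hdiv hx) h2
    (isotope_isDivision hdiv hx) hbig (hl.isotope hdiv hx) ?_ (hl'.isotope hdiv hx)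
    ((S.isotope_isRet hdiv hx l r).2 hr) ((S.isotope_isRet hdiv hx l' r').2 hr') hx hUv hy h
    (by rw [e1]; exact h') ?_
  · rw [isotope_one]
    exact h
  · rw [isotope_tr, U_inv_U hdiv hx]
    exact he

/-- BLOCK P2A (iii). Proof: `{x, k⁻¹, U_k z} = {x, z, k}`, `k = v⁻¹`, `y = U_k z`: by (ii)
(outer argument `k ∈ l`), `r e = r_{l1} e` for `l1 ∋ x, k`, and `l1` is of the type of `P2a` for
`x, v, y` too. -/
theorem P2a_mid (h2 : ∀ a : J, a + a = 0) (hdiv : A.IsDivision) (hbig : Big J 4)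
    {l l' : Set J} (hl : IsLine hdiv l) (hl' : IsLine hdiv l') {r r' : E →+ E}
    (hr : S.IsRet l r) (hr' : S.IsRet l' r') {x v y : J} (hx : x ≠ 0) (hv : v ≠ 0) (hy : y ≠ 0)
    (h : A.inv v ∈ l) (h' : Two l' x (A.inv v) y) {e : E} (he : S.π e = A.tr x v y) :
    r e = r' e := by
  have hv' : A.inv v ≠ 0 := inv_ne hdiv hv
  obtain ⟨l1, hl1, hl11, hl12⟩ := exists_line2 h2 hdiv hbig hx (A.inv v)
  obtain ⟨r1, hr1⟩ := S.exists_isRet hdiv hl1
  have hz : A.U v y ≠ 0 := U_ne hdiv hv hy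
  have e1 : A.tr (A.inv v) (A.U v y) x = A.tr x v y := by
    rw [tr_inv_U hdiv hv, tr_comm]
  have s1 : r e = r1 e := P2a_outer S h2 hdiv hbig hl hl1 hr hr1 hv' hz hx h
    (Or.inr (Or.inl ⟨hl12, hl11⟩)) (by rw [he, e1])
  rw [s1]
  exact P2a S h2 hdiv hbig hl1 hl' hr1 hr' hx hv hy (Or.inl ⟨hl11, hl12⟩) h' he

end Pool.Agent.Helper4.Jordan.QuadraticJordanAlgebra
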