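import Pool.Agent.Helper36.St.P2a

/-! Characteristic 2: all retractions agree over triple products. -/

namespace Pool.Agent.Helper4.Jordan.QuadraticJordanAlgebra

open QuadraticMap

variable {R J : Type*} [CommRing R] [AddCommGroup J] [Module R J]
  {A : QuadraticJordanAlgebra R J}

variable {E : Type*} [AddCommGroup E] (S : Sys A E)

namespace P2b

/-- data used to define `nu` -/
def Dat (hdiv : A.IsDivision) (S : Sys A E) (x u y : J) (l1 : Set J) (r1 : E →+ E) (e : E) : Prop :=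
  IsLine hdiv l1 ∧ S.IsRet l1 r1 ∧ (x ≠ 0 → u ≠ 0 → y ≠ 0 → Two l1 x (A.inv u) y) ∧
    S.π e = A.tr x u y

lemma ret_eq (S : Sys A E) {l : Set J} {r : E →+ E} (hr : S.IsRet l r) {e : E} (he : S.π e = 0) :
    r e = e := hr.id e he

lemma tr_eq_zero_of {x u y : J} (h : ¬ (x ≠ 0 ∧ u ≠ 0 ∧ y ≠ 0)) : A.tr x u y = 0 := by
  by_cases hx : x = 0
  · rw [hx, tr_zero_left]
  by_cases hu : u = 0
  · rw [hu, tr_zero_mid]
  by_cases hy : y = 0
  · rw [hy, tr_zero_right]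
  exact absurd ⟨hx, hu, hy⟩ h

lemma dat_agree (h2 : ∀ a : J, a + a = 0) (hdiv : A.IsDivision) (hbig : Big J 4)
    {x u y : J} {l1 l1' : Set J} {r1 r1' : E →+ E} {e : E}
    (hd : Dat hdiv S x u y l1 r1 e) (hd' : Dat hdiv S x u y l1' r1' e) : r1 e = r1' e := by
  obtain ⟨hl, hr, ht, he⟩ := hd
  obtain ⟨hl', hr', ht', -⟩ := hd'
  by_cases h : x ≠ 0 ∧ u ≠ 0 ∧ y ≠ 0
  · exact P2a S h2 hdiv hbig hl hl' hr hr' h.1 h.2.1 h.2.2 (ht h.1 h.2.1 h.2.2)
      (ht' h.1 h.2.1 h.2.2) he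
  · have h0 : S.π e = 0 := by rw [he, tr_eq_zero_of h]
    rw [hr.id e h0, hr'.id e h0]

lemma exists_dat (h2 : ∀ a : J, a + a = 0) (hdiv : A.IsDivision) (hbig : Big J 4) (x u y : J) :
    ∃ l1 r1 e, Dat hdiv S x u y l1 r1 e := by
  obtain ⟨e, he⟩ := S.surj (A.tr x u y)
  by_cases hx : x = 0
  · obtain ⟨l, hl, -, -⟩ := exists_line2 h2 hdiv hbig hdiv.1 A.one
    obtain ⟨r, hr⟩ := S.exists_isRet hdiv hl
    exact ⟨l, r, e, hl, hr, fun h => absurd hx h, he⟩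
  · obtain ⟨l, hl, h1, h3⟩ := exists_line2 h2 hdiv hbig hx (A.inv u)
    obtain ⟨r, hr⟩ := S.exists_isRet hdiv hl
    exact ⟨l, r, e, hl, hr, fun _ _ _ => Or.inl ⟨h1, h3⟩, he⟩

open Classical in
/-- the discrepancy -/
noncomputable def nu (hdiv : A.IsDivision) (S : Sys A E) (r : E →+ E) (x u y : J) : E :=
  if h : ∃ p : Set J × (E →+ E) × E, Dat hdiv S x u y p.1 p.2.1 p.2.2 then
    (Classical.choose h).2.1 (Classical.choose h).2.2 - r (Classical.choose h).2.2 else 0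

variable {S}

lemma nu_eq (h2 : ∀ a : J, a + a = 0) (hdiv : A.IsDivision) (hbig : Big J 4) {l : Set J}
    {r : E →+ E} (hr : S.IsRet l r) {x u y : J} {l1 : Set J} {r1 : E →+ E} {e : E}
    (hd : Dat hdiv S x u y l1 r1 e) : nu hdiv S r x u y = r1 e - r e := by
  have h : ∃ p : Set J × (E →+ E) × E, Dat hdiv S x u y p.1 p.2.1 p.2.2 := ⟨(l1, r1, e), hd⟩
  unfold nu
  rw [dif_pos h]
  have hp := Classical.choose_spec h
  set p := Classical.choose h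
  have h3 : S.π (p.2.2 - e) = 0 := by rw [map_sub, hp.2.2.2, hd.2.2.2, sub_self]
  have hp2 : Dat hdiv S x u y p.1 p.2.1 e := ⟨hp.1, hp.2.1, hp.2.2.1, hd.2.2.2⟩
  have h4 := hp.2.1.id _ h3
  have h5 := hr.id _ h3
  have h6 := dat_agree S h2 hdiv hbig hp2 hd
  rw [map_sub] at h4 h5
  rw [← h6, sub_eq_sub_iff_sub_eq_sub]
  rw [h4, h5]

lemma nu_two (h2 : ∀ a : J, a + a = 0) (hdiv : A.IsDivision) (hbig : Big J 4) {l : Set J}
    {r : E →+ E} (hr : S.IsRet l r) (x u y : J) : nu hdiv S r x u y + nu hdiv S r x u y = 0 := by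
  obtain ⟨l1, r1, e, hd⟩ := exists_dat S h2 hdiv hbig x u y
  rw [nu_eq h2 hdiv hbig hr hd]
  have h3 : S.π (e + e) = 0 := by rw [map_add, h2]
  have h4 := hd.2.1.id _ h3
  have h5 := hr.id _ h3
  rw [map_add] at h4 h5
  have : r1 e - r e + (r1 e - r e) = (r1 e + r1 e) - (r e + r e) := by abel
  rw [this, h4, h5, sub_self]

lemma nu_swap13 (h2 : ∀ a : J, a + a = 0) (hdiv : A.IsDivision) (hbig : Big J 4) {l : Set J}
    {r : E →+ E} (hr : S.IsRet l r) (x u y : J) : nu hdiv S r x u y = nu hdiv S r y u x := by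
  obtain ⟨l1, r1, e, hd⟩ := exists_dat S h2 hdiv hbig x u y
  rw [nu_eq h2 hdiv hbig hr hd]
  rw [nu_eq h2 hdiv hbig hr (l1 := l1) (r1 := r1) (e := e)]
  obtain ⟨d1, d2, d3, d4⟩ := hd
  refine ⟨d1, d2, fun hy hu hx => ?_, by rw [d4, tr_comm]⟩
  rcases d3 hx hu hy with h | h | h
  · exact Or.inr (Or.inr ⟨h.2, h.1⟩)
  · exact Or.inr (Or.inl ⟨h.2, h.1⟩)
  · exact Or.inl ⟨h.2, h.1⟩

lemma nu_zero_of (h2 : ∀ a : J, a + a = 0) (hdiv : A.IsDivision) (hbig : Big J 4) {l : Set J}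
    {r : E →+ E} (hr : S.IsRet l r) {x u y : J} (h : ¬ (x ≠ 0 ∧ u ≠ 0 ∧ y ≠ 0)) :
    nu hdiv S r x u y = 0 := by
  obtain ⟨l1, r1, e, hd⟩ := exists_dat S h2 hdiv hbig x u y
  rw [nu_eq h2 hdiv hbig hr hd]
  have h0 : S.π e = 0 := by rw [hd.2.2.2, tr_eq_zero_of h]
  rw [hd.2.1.id e h0, hr.id e h0, sub_self]

lemma nu_add (h2 : ∀ a : J, a + a = 0) (hdiv : A.IsDivision) (hbig : Big J 4) {l : Set J}
    {r : E →+ E} (hr : S.IsRet l r) (x x' u y : J) :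
    nu hdiv S r (x + x') u y = nu hdiv S r x u y + nu hdiv S r x' u y := by
  by_cases hu : u = 0
  · rw [nu_zero_of h2 hdiv hbig hr (fun h => h.2.1 hu),
      nu_zero_of h2 hdiv hbig hr (fun h => h.2.1 hu),
      nu_zero_of h2 hdiv hbig hr (fun h => h.2.1 hu), add_zero]
  by_cases hy : y = 0
  · rw [nu_zero_of h2 hdiv hbig hr (fun h => h.2.2 hy),
      nu_zero_of h2 hdiv hbig hr (fun h => h.2.2 hy),
      nu_zero_of h2 hdiv hbig hr (fun h => h.2.2 hy), add_zero]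
  obtain ⟨l1, hl1, m1, m2⟩ := exists_line2 h2 hdiv hbig hy (A.inv u)
  obtain ⟨r1, hr1⟩ := S.exists_isRet hdiv hl1
  obtain ⟨e, he⟩ := S.surj (A.tr x u y)
  obtain ⟨e', he'⟩ := S.surj (A.tr x' u y)
  rw [nu_eq h2 hdiv hbig hr (l1 := l1) (r1 := r1) (e := e + e')
    ⟨hl1, hr1, fun _ _ _ => Or.inr (Or.inr ⟨m2, m1⟩), by rw [map_add, he, he', tr_add_left]⟩,
    nu_eq h2 hdiv hbig hr (l1 := l1) (r1 := r1) (e := e)
    ⟨hl1, hr1, fun _ _ _ => Or.inr (Or.inr ⟨m2, m1⟩), he⟩,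
    nu_eq h2 hdiv hbig hr (l1 := l1) (r1 := r1) (e := e')
    ⟨hl1, hr1, fun _ _ _ => Or.inr (Or.inr ⟨m2, m1⟩), he'⟩, map_add, map_add]
  abel

/-- the value of `Φ` by an outer line -/
lemma nu_outer (h2 : ∀ a : J, a + a = 0) (hdiv : A.IsDivision) (hbig : Big J 4) {l : Set J}
    {r : E →+ E} (hr : S.IsRet l r) {x u y : J} {l1 : Set J} (hl1 : IsLine hdiv l1) {r1 : E →+ E}
    (hr1 : S.IsRet l1 r1) (hy : y ∈ l1) {e : E} (he : S.π e = A.tr x u y) :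
    nu hdiv S r x u y = r1 e - r e := by
  by_cases h : x ≠ 0 ∧ u ≠ 0 ∧ y ≠ 0
  · obtain ⟨l2, r2, e2, hd⟩ := exists_dat S h2 hdiv hbig x u y
    have hd2 : Dat hdiv S x u y l2 r2 e := ⟨hd.1, hd.2.1, hd.2.2.1, he⟩
    rw [nu_eq h2 hdiv hbig hr hd2]
    have h3 : Two l2 y (A.inv u) x := by
      rcases hd.2.2.1 h.1 h.2.1 h.2.2 with h | h | h
      · exact Or.inr (Or.inr ⟨h.2, h.1⟩)
      · exact Or.inr (Or.inl ⟨h.2, h.1⟩)
      · exact Or.inl ⟨h.2, h.1⟩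
    rw [P2a_outer S h2 hdiv hbig hl1 hd.1 hr1 hd.2.1 h.2.2 h.2.1 h.1 hy h3 (by rw [he, tr_comm])]
  · rw [nu_zero_of h2 hdiv hbig hr h]
    have h0 : S.π e = 0 := by rw [he, tr_eq_zero_of h]
    rw [hr1.id e h0, hr.id e h0, sub_self]

lemma nu_swap12 (h2 : ∀ a : J, a + a = 0) (hdiv : A.IsDivision) (hbig : Big J 4) {l : Set J}
    (hl : IsLine hdiv l) (h1 : A.one ∈ l)
    {r : E →+ E} (hr : S.IsRet l r) (x u y : J) : nu hdiv S r x u y = nu hdiv S r u x y := by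
  obtain ⟨l1, hl1, m1, m2⟩ := exists_line2 h2 hdiv hbig hdiv.1 y
  obtain ⟨r1, hr1⟩ := S.exists_isRet hdiv hl1
  obtain ⟨e, he⟩ := S.surj (A.tr x u y)
  obtain ⟨e', he'⟩ := S.surj (A.tr u x y)
  have e1 := nu_outer h2 hdiv hbig hr hl1 hr1 m2 he
  have e2 := nu_outer h2 hdiv hbig hr hl1 hr1 m2 he'
  have e3 : S.π (e + e') = A.tr (A.jp x u) A.one y := by
    have h := LinearMap.congr_fun (V2_add_V2 hdiv x u) y
    rw [LinearMap.add_apply, V2_apply, V2_apply, V_apply] at h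
    rw [map_add, he, he', h]; rfl
  have e4 : r (e + e') = r1 (e + e') := by
    by_cases h : A.jp x u ≠ 0 ∧ y ≠ 0
    · refine P2a_mid S h2 hdiv hbig hl hl1 hr hr1 h.1 hdiv.1 h.2 (by rwa [inv_one' hdiv]) ?_ e3
      rw [inv_one' hdiv]
      exact Or.inr (Or.inr ⟨m1, m2⟩)
    · have h0 : S.π (e + e') = 0 := by
        rw [e3, tr_eq_zero_of (fun h' => h ⟨h'.1, h'.2.2⟩)]
      rw [hr.id _ h0, hr1.id _ h0]
  have e5 : nu hdiv S r x u y + nu hdiv S r u x y = 0 := by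
    rw [e1, e2]
    have : r1 e - r e + (r1 e' - r e') = r1 (e + e') - r (e + e') := by
      rw [map_add, map_add]; abel
    rw [this, e4, sub_self]
  have e6 := nu_two h2 hdiv hbig hr u x y
  rw [← sub_eq_zero]
  calc _ = (nu hdiv S r x u y + nu hdiv S r u x y) - (nu hdiv S r u x y + nu hdiv S r u x y) := by
        abel
    _ = 0 := by rw [e5, e6, sub_zero]

/-- invariance under `k` in the line -/
lemma nu_inv (h2 : ∀ a : J, a + a = 0) (hdiv : A.IsDivision) (hbig : Big J 4) {l : Set J}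
    (h1 : A.one ∈ l) {r : E →+ E} (hr : S.IsRet l r) {k : J} (hk : k ∈ l) (hk0 : k ≠ 0)
    (x u y : J) :
    nu hdiv S r (A.U k x) (A.U (A.inv k) u) (A.U k y) = nu hdiv S r x u y := by
  have hki := inv_ne hdiv hk0
  by_cases h : x ≠ 0 ∧ u ≠ 0 ∧ y ≠ 0
  · obtain ⟨l1, r1, e, hd⟩ := exists_dat S h2 hdiv hbig x u y
    rw [nu_eq h2 hdiv hbig hr hd]
    have hr' := S.isRet_map hdiv hd.2.1 (S.w k)
    have hl' := hd.1.image hdiv S (S.w k)
    have hd' : Dat hdiv S (A.U k x) (A.U (A.inv k) u) (A.U k y)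
        ((fun x => (S.w k : J ≃ₗ[R] J) x) '' l1) (r1.comp (S.ρ (S.w k)⁻¹ : E →+ E)) (S.W k e) := by
      refine ⟨hl', hr', fun _ _ _ => ?_, ?_⟩
      · rw [inv_U hdiv hki h.2.1, inv_inv' hdiv hk0]
        have m : ∀ z ∈ l1, A.U k z ∈ (fun x => (S.w k : J ≃ₗ[R] J) x) '' l1 :=
          fun z hz => ⟨z, hz, S.hw k hk0 z⟩
        rcases hd.2.2.1 h.1 h.2.1 h.2.2 with h | h | h
        · exact Or.inl ⟨m _ h.1, m _ h.2⟩
        · exact Or.inr (Or.inl ⟨m _ h.1, m _ h.2⟩)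
        · exact Or.inr (Or.inr ⟨m _ h.1, m _ h.2⟩)
      · rw [S.π_W hk0, hd.2.2.2, tr_def, tr_def, P_U_U, Module.End.mul_apply,
          Module.End.mul_apply, U_U_inv hdiv hk0]
    rw [nu_eq h2 hdiv hbig hr hd']
    have e1 : r (S.W k e) = r e := by
      have h5 : S.WW k A.one e = S.W k e := by
        rw [Sys.WW, S.w_one hdiv, inv_one, mul_one]; rfl
      rw [← h5]
      exact hr.inv k hk A.one h1 hk0 hdiv.1 e
    have e2 : (r1.comp (S.ρ (S.w k)⁻¹ : E →+ E)) (S.W k e) = r1 e := by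
      show r1 (S.ρ (S.w k)⁻¹ (S.ρ (S.w k) e)) = r1 e
      rw [S.ρ_inv_apply]
    rw [e1, e2]
  · rw [nu_zero_of h2 hdiv hbig hr h, nu_zero_of h2 hdiv hbig hr]
    rintro ⟨h3, h4, h5⟩
    refine h ⟨?_, ?_, ?_⟩
    · rintro rfl; exact h3 (map_zero _)
    · rintro rfl; exact h4 (map_zero _)
    · rintro rfl; exact h5 (map_zero _)

lemma nu_sq (h2 : ∀ a : J, a + a = 0) (hdiv : A.IsDivision) (hbig : Big J 4) {l : Set J}
    (hl : IsLine hdiv l) (h1 : A.one ∈ l) {r : E →+ E} (hr : S.IsRet l r) {k : J} (hk : k ∈ l)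
    (hk0 : k ≠ 0) (x u y : J) :
    nu hdiv S r (A.U (A.U k A.one) x) u y = nu hdiv S r x u y := by
  have s12 := fun x u y => nu_swap12 h2 hdiv hbig hl h1 hr x u y
  have s13 := fun x u y => nu_swap13 h2 hdiv hbig hr x u y
  have inv := fun x u y => nu_inv h2 hdiv hbig h1 hr hk hk0 x u y
  rw [U_sq, Module.End.mul_apply]
  calc nu hdiv S r (A.U k (A.U k x)) u y
      = nu hdiv S r (A.U k (A.U k x)) (A.U k (A.U (A.inv k) u)) (A.U (A.inv k) (A.U k y)) := by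
        rw [U_U_inv hdiv hk0, U_inv_U hdiv hk0]
    _ = nu hdiv S r (A.U k (A.U k x)) (A.U (A.inv k) (A.U k y)) (A.U k (A.U (A.inv k) u)) := by
        rw [s13, s12, s13]
    _ = nu hdiv S r (A.U k x) (A.U k y) (A.U (A.inv k) u) := inv _ _ _
    _ = nu hdiv S r (A.U k x) (A.U (A.inv k) u) (A.U k y) := by rw [s13, s12, s13]
    _ = nu hdiv S r x u y := inv _ _ _

lemma nu_eq_zero (h2 : ∀ a : J, a + a = 0) (hdiv : A.IsDivision) (hbig : Big J 4) {l : Set J}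
    (hl : IsLine hdiv l) (h1 : A.one ∈ l) {r : E →+ E} (hr : S.IsRet l r) (x u y : J) :
    nu hdiv S r x u y = 0 := by
  have hK := hl.isCK hdiv h1
  obtain ⟨f, hf, g, hg, h, hh, t1, t2, t3, t4, t5, t6, t7⟩ := hl.trip
  set N : J →+ E := AddMonoidHom.mk' (fun x => nu hdiv S r x u y)
    (fun a b => nu_add h2 hdiv hbig hr a b u y) with hN
  have hNx : ∀ k ∈ l, k ≠ 0 → N (A.U (A.U k A.one) x) = N x := fun k hk hk0 =>
    nu_sq h2 hdiv hbig hl h1 hr hk hk0 x u y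
  have sq : ∀ a ∈ l, ∀ b ∈ l, A.U (a + b) A.one = A.U a A.one + A.U b A.one := by
    intro a ha b hb
    have h3 := hK.tr_eq_zero h2 hdiv ha hK.one hb
    rw [tr_def] at h3
    rw [U_add', LinearMap.add_apply, LinearMap.add_apply, h3, add_zero]
  have c1 := hNx f hf t1
  have c2 := hNx g hg t2
  have c3 := hNx h hh t3
  have c4 := hNx (f + g) (hK.add _ hf _ hg) t4
  have c5 := hNx (f + h) (hK.add _ hf _ hh) t5
  have c6 := hNx (g + h) (hK.add _ hg _ hh) t6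
  have c7 := hNx (f + g + h) (hK.add _ (hK.add _ hf _ hg) _ hh) t7
  rw [sq f hf g hg] at c4
  rw [sq f hf h hh] at c5
  rw [sq g hg h hh] at c6
  rw [sq (f + g) (hK.add _ hf _ hg) h hh, sq f hf g hg] at c7
  set F := A.U f A.one
  set G := A.U g A.one
  set H := A.U h A.one
  have key : N (A.U (F + G + H) x) - N (A.U (F + G) x) - N (A.U (F + H) x) - N (A.U (G + H) x) +
      N (A.U F x) + N (A.U G x) + N (A.U H x) = 0 := by
    rw [← map_sub, ← map_sub, ← map_sub, ← map_add, ← map_add, ← map_add]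
    have : A.U (F + G + H) x - A.U (F + G) x - A.U (F + H) x - A.U (G + H) x + A.U F x +
        A.U G x + A.U H x = 0 := by
      simp only [U_add', P_add_left, LinearMap.add_apply]
      abel
    rw [this, map_zero]
  rw [c1, c2, c3, c4, c5, c6, c7] at key
  have : N x - N x - N x - N x + N x + N x + N x = N x := by abel
  rw [this] at key
  exact key

lemma main_one (h2 : ∀ a : J, a + a = 0) (hdiv : A.IsDivision) (hbig : Big J 4) {l : Set J}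
    (hl : IsLine hdiv l) (h1 : A.one ∈ l) {r : E →+ E} (hr : S.IsRet l r) {x u y : J}
    {l1 : Set J} {r1 : E →+ E} {e : E} (hd : Dat hdiv S x u y l1 r1 e) : r e = r1 e := by
  have h3 := nu_eq h2 hdiv hbig hr hd
  rw [nu_eq_zero h2 hdiv hbig hl h1 hr] at h3
  exact (sub_eq_zero.1 h3.symm).symm

lemma main (h2 : ∀ a : J, a + a = 0) (hdiv : A.IsDivision) (hbig : Big J 4) {l : Set J}
    (hl : IsLine hdiv l) {r : E →+ E} (hr : S.IsRet l r) {x u y : J}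
    {l1 : Set J} {r1 : E →+ E} {e : E} (hd : Dat hdiv S x u y l1 r1 e) : r e = r1 e := by
  obtain ⟨f, hf, _, _, _, _, ht⟩ := hl.trip
  have hf0 := ht.1
  have hr' := (S.isotope_isRet hdiv hf0 l r).2 hr
  refine main_one (S := S.isotope hdiv hf0) h2 (isotope_isDivision hdiv hf0) hbig
    (hl.isotope hdiv hf0) hf hr' (x := x) (u := A.U f u) (y := y) (l1 := l1) (r1 := r1) ?_
  refine ⟨hd.1.isotope hdiv hf0, (S.isotope_isRet hdiv hf0 l1 r1).2 hd.2.1,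
    fun hx hu hy => ?_, ?_⟩
  · have hu0 : u ≠ 0 := by rintro rfl; exact hu (map_zero _)
    rw [isotope_inv hdiv hf0 hu, inv_U hdiv hf0 hu0, U_U_inv hdiv hf0]
    exact hd.2.2.1 hx hu0 hy
  · rw [isotope_tr, U_inv_U hdiv hf0]
    exact hd.2.2.2

end P2b

/-- BLOCK P2B. Proof: it is enough to compare an arbitrary line `l` (WLOG `one ∈ l =: K`, isotope)
with the common value `Φ` of `P2a`; `ν(x,u,y) = Φ(e) - r e` for `e` over `{x,u,y}` (`x,u,y ≠ 0`).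
(1) `ν(x,u,y) = ν(y,u,x)`; (2) `ν(x,u,y) = ν(u,x,y)`: `e1` over `{x,u,y}`, `e2` over `{u,x,y}`,
`e1 + e2` over `{x∘u, 1, y}` (`V2_add_V2`). Take a line `l1 ∋ one, y`. By `P2a_outer` `r_{l1} e1 = Φ e1`
and `r_{l1} e2 = Φ e2` (outer argument `y`); by `P2a_mid` for `K` (middle argument `1`)
`r (e1+e2) = r_{l1} (e1+e2)`. So `ν(x,u,y) + ν(u,x,y) = 0` and `2ν = 0`.
(3) for `k ∈ K` nonzero `ν(U_k x, U_k⁻¹ u, U_k y) = ν(x,u,y)` (`ρ (w k)`, `r` is invariant, `Φ` is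
equivariant). By symmetry `ν(U_k² x, u, y) = ν(x, u, y)`.
(4) `ν(·,u,y)` is additive; `(U_k)² = U (k²)`, `(f+g)² = f² + g²` in `K` (`IsCK.tr_eq_zero`), so for a
`Trip f g h` in `K`, `∑ ± (U_{f_S})² = ∑ ± U_{(f²)_S} = 0` while `∑ ± 1 = 1`: `ν = 0`. -/
theorem P2b (h2 : ∀ a : J, a + a = 0) (hdiv : A.IsDivision) (hbig : Big J 4)
    {l l' : Set J} (hl : IsLine hdiv l) (hl' : IsLine hdiv l') {r r' : E →+ E}
    (hr : S.IsRet l r) (hr' : S.IsRet l' r') {x v y : J} {e : E} (he : S.π e = A.tr x v y) :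
    r e = r' e := by
  obtain ⟨l1, r1, e1, hd⟩ := P2b.exists_dat S h2 hdiv hbig x v y
  have hd' : P2b.Dat hdiv S x v y l1 r1 e := ⟨hd.1, hd.2.1, hd.2.2.1, he⟩
  rw [P2b.main h2 hdiv hbig hl hr hd', P2b.main h2 hdiv hbig hl' hr' hd']

end Pool.Agent.Helper4.Jordan.QuadraticJordanAlgebra
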