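import Pool.Agent.Helper36.St.Act
import Pool.Agent.Helper36.St.Comm
import Pool.Agent.Helper36.St.Lines3

/-! The stabiliser lemma, characteristic 3. -/

namespace Pool.Agent.Helper4.Jordan.QuadraticJordanAlgebra

open QuadraticMap

variable {R J : Type*} [CommRing R] [AddCommGroup J] [Module R J]
  {A : QuadraticJordanAlgebra R J}

/-- counting through an additive map -/
lemma card_fib {M N : Type*} [AddCommGroup M] [AddCommGroup N] (f : M →+ N) (Q : N → Prop)
    (n m : ℕ) (hQ : ∀ t : Finset N, (∀ y ∈ t, Q y) → t.card ≤ m)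
    (hk : ∀ t : Finset M, (∀ x ∈ t, f x = 0) → t.card ≤ n) (s : Finset M)
    (hs : ∀ x ∈ s, Q (f x)) : s.card ≤ n * m := by
  classical
  have h1 : s.card ≤ n * (s.image f).card := by
    apply Finset.card_le_mul_card_image
    intro a ha
    obtain ⟨x0, hx0, rfl⟩ := Finset.mem_image.1 ha
    have h2 : ((s.filter fun x => f x = f x0).image fun x => x - x0).card ≤ n := by
      apply hk
      intro z hz
      obtain ⟨x, hx, rfl⟩ := Finset.mem_image.1 hz
      rw [map_sub, (Finset.mem_filter.1 hx).2, sub_self]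
    rwa [Finset.card_image_of_injective _ (sub_left_injective)] at h2
  refine h1.trans (Nat.mul_le_mul_left n ?_)
  apply hQ
  intro y hy
  obtain ⟨x, hx, rfl⟩ := Finset.mem_image.1 hy
  exact hs x hx

omit [AddCommGroup J] in
lemma Big.exists_card {n : ℕ} (h : Big J n) : ∃ s : Finset J, n < s.card := by
  classical
  by_contra hc
  push Not at hc
  obtain ⟨s, hs⟩ : ∃ s : Finset J, ∀ t : Finset J, t.card ≤ s.card := by
    have hb : BddAbove (Set.range (Finset.card : Finset J → ℕ)) := ⟨n, by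
      rintro _ ⟨t, rfl⟩; exact hc t⟩
    have hne : (Set.range (Finset.card : Finset J → ℕ)).Nonempty := ⟨_, ∅, rfl⟩
    obtain ⟨s, hs⟩ := Nat.sSup_mem hne hb
    exact ⟨s, fun t => by rw [hs]; exact le_csSup hb ⟨t, rfl⟩⟩
  obtain ⟨x, hx⟩ := h s (hc s)
  have := hs (insert x s)
  rw [Finset.card_insert_of_notMem hx] at this
  omega

/-- `T = (1 + a + a⁻¹) U` with `T² = 0`: `a` has many fixed points. -/
lemma nilp_count (h3 : ∀ a : J, a + a + a = 0) (hbig : Big J 81) (u : J) (a b U T : J →+ J)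
    (hab : ∀ x, a (b x) = x)
    (hT : ∀ x, T x = U x + a (U x) + b (U x)) (hTT : ∀ x, T (T x) = 0)
    (hU : Function.Injective U) : ∃ x, a x = x ∧ x ≠ 0 ∧ x ≠ u ∧ x ≠ -u := by
  classical
  by_contra hc
  push Not at hc
  obtain ⟨s, hs⟩ := hbig.exists_card
  have hfix : ∀ t : Finset J, (∀ x ∈ t, (a - AddMonoidHom.id J) x = 0) → t.card ≤ 3 := by
    intro t ht
    have h1 : t ⊆ {0, u, -u} := by
      intro x hx
      have h2 : a x = x := sub_eq_zero.1 (ht x hx)
      simp only [Finset.mem_insert, Finset.mem_singleton]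
      by_contra hcc
      push Not at hcc
      exact hcc.2.2 (hc x h2 hcc.1 hcc.2.1)
    exact (Finset.card_le_card h1).trans Finset.card_le_three
  have hker : ∀ t : Finset J, (∀ x ∈ t, T x = 0) → t.card ≤ 3 * 3 := by
    intro t ht
    apply card_fib ((a - AddMonoidHom.id J).comp U) (fun z => (a - AddMonoidHom.id J) z = 0)
      3 3 hfix
    · intro t' ht'
      have h1 : (t'.image U).card ≤ 3 := by
        apply hfix
        intro z hz
        obtain ⟨x, hx, rfl⟩ := Finset.mem_image.1 hz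
        exact ht' x hx
      rwa [Finset.card_image_of_injective _ hU] at h1
    · intro x hx
      have h1 := congrArg a (ht x hx)
      rw [hT, map_add, map_add, hab, map_zero] at h1
      show a (a (U x) - U x) - (a (U x) - U x) = 0
      rw [map_sub]
      have h4 : a (a (U x)) - a (U x) - (a (U x) - U x) =
        (a (U x) + a (a (U x)) + U x) - (a (U x) + a (U x) + a (U x)) := by abel
      rw [h4, h1, h3, sub_zero]
  have hall := card_fib T (fun z => T z = 0) (3 * 3) (3 * 3) hker hker s fun x _ => hTT x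
  omega

/-- The stabiliser lemma in characteristic 3. -/
theorem SL3 (h3 : ∀ a : J, a + a + a = 0) (hdiv : A.IsDivision) (hbig : Big J 81) {E : Type*}
    [AddCommGroup E] (S : Sys A E) : S.SL := by
  intro g y hg hy e he
  set v := A.jp (A.inv g) (A.inv y) with hv
  by_cases hv0 : v = 0
  · rw [hv0] at he
    have h1 : ∀ b, S.W b e = e := fun b => S.triv _ _ he
    rw [h1, h1, h1]
  have hu0 : A.jp g y ≠ 0 := fun h => hv0 ((jp_inv_inv_eq_zero hdiv hg hy).2 h)
  set u := A.jp g y with hu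
  have hvi : A.inv v ≠ 0 := inv_ne hdiv hv0
  set w := A.inv v with hw
  have hig := inv_ne hdiv hg
  have hiy := inv_ne hdiv hy
  have hiu := inv_ne hdiv hu0
  -- `U_g U_y v = u = U_y U_g v`
  have e1 : A.U g (A.U y v) = u := U_U_jp_inv hdiv hg hy
  have e2 : A.U y (A.U g v) = u := by
    have := U_U_jp_inv hdiv hy hg
    rw [jp_comm, jp_comm y g] at this
    exact this
  have hyv := U_ne hdiv hy hv0
  have hgv := U_ne hdiv hg hv0
  have e3 : A.U y (A.U g (A.inv u)) = w := by
    rw [← e1, inv_U hdiv hg hyv, inv_U hdiv hy hv0, U_U_inv hdiv hg, U_U_inv hdiv hy]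
  have e4 : A.U g (A.U y (A.inv u)) = w := by
    rw [← e2, inv_U hdiv hy hgv, inv_U hdiv hg hv0, U_U_inv hdiv hy, U_U_inv hdiv hg]
  -- the elements of the group
  set Aa : S.G := S.w g * S.w y * (S.w u)⁻¹ with hAa
  set Bb : S.G := S.w y * S.w g * (S.w u)⁻¹ with hBb
  have hAu : (Aa : J ≃ₗ[R] J) u = w := by
    rw [hAa, S.mul_apply, S.mul_apply, S.w_inv_apply hdiv hu0, S.hw g hg, S.hw y hy,
      U_inv_self hdiv hu0, e4]
  have hBu : (Bb : J ≃ₗ[R] J) u = w := by
    rw [hBb, S.mul_apply, S.mul_apply, S.w_inv_apply hdiv hu0, S.hw g hg, S.hw y hy,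
      U_inv_self hdiv hu0, e3]
  -- reduction to a statement about `h`
  set e' := S.W y (S.W g e) with he'
  have hπ : S.π e' = u := by rw [he', S.π_W hy, S.π_W hg, he, e2]
  have hred : S.ρ (Aa * Bb⁻¹) e' = e' → S.W g (S.W y e) = S.W y (S.W g e) := by
    intro h
    have h1 : S.W g (S.W y e) = S.ρ (Aa * Bb⁻¹) e' := by
      simp only [he', Sys.W]
      rw [← S.ρ_mul, ← S.ρ_mul, ← S.ρ_mul]
      congr 2
      rw [hAa, hBb]; group
    rw [h1, h]
  apply hred
  have hhu : ((Aa * Bb⁻¹ : S.G) : J ≃ₗ[R] J) u = u := by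
    have h1 : Aa * Bb⁻¹ = S.w g * S.w y * (S.w y * S.w g)⁻¹ := by rw [hAa, hBb]; group
    have h2 : (((S.w y * S.w g)⁻¹ : S.G) : J ≃ₗ[R] J) u = v := by
      rw [← e2]
      have := S.inv_apply_apply (S.w y * S.w g) v
      rwa [S.mul_apply, S.hw y hy, S.hw g hg] at this
    rw [h1, S.mul_apply, h2, S.mul_apply, S.hw g hg, S.hw y hy, e1]
  have hhw : ((Aa * Bb⁻¹ : S.G) : J ≃ₗ[R] J) w = w := by
    rw [S.mul_apply]
    nth_rewrite 1 [← hBu]
    rw [S.inv_apply_apply, hAu]
  by_cases hwu : w = u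
  · -- case (c)
    have hAB : Aa * Bb = 1 := by
      apply S.ext_G
      intro x
      rw [hAa, hBb]
      simp only [S.mul_apply, S.w_inv_apply hdiv hu0, S.hw g hg, S.hw y hy]
      have h1 : A.U w = A.U g * (A.U y * A.U (A.inv u) * A.U y) * A.U g := by
        rw [← A.QJ3, ← A.QJ3, e4]
      rw [hwu] at h1
      have h2 := LinearMap.congr_fun h1 (A.U (A.inv u) x)
      rw [U_U_inv hdiv hu0] at h2
      exact h2.symm
    have hBa : Bb = Aa⁻¹ := eq_inv_of_mul_eq_one_right hAB
    -- the operator `T`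
    set T : Module.End R J := A.U (A.jp g y) + A.U g * A.U y + A.U y * A.U g with hTdef
    have hT1 : T (A.inv u) = 0 := by
      rw [hTdef, LinearMap.add_apply, LinearMap.add_apply, Module.End.mul_apply,
        Module.End.mul_apply, e3, e4, ← hu, U_inv hdiv hu0, hwu, h3]
    have hT2 := commutator_sq h3 hdiv hg hy
    rw [← hTdef] at hT2
    have hT3 : T A.one = 0 := by
      apply eq_zero_of_U hdiv hiu
      rw [← hT2, Module.End.mul_apply, hT1, map_zero]
    rw [hT3, U_zero] at hT2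
    obtain ⟨x, hx, hx0, hxu, hxu'⟩ := nilp_count h3 hbig u
      ((Aa : J ≃ₗ[R] J) : J ≃+ J).toAddMonoidHom ((Bb : J ≃ₗ[R] J) : J ≃+ J).toAddMonoidHom
      (A.U u).toAddMonoidHom T.toAddMonoidHom
      (fun x => by
        show (Aa : J ≃ₗ[R] J) ((Bb : J ≃ₗ[R] J) x) = x
        rw [← S.mul_apply, hAB]; rfl)
      (fun x => by
        show T x = A.U u x + (Aa : J ≃ₗ[R] J) (A.U u x) + (Bb : J ≃ₗ[R] J) (A.U u x)
        rw [hAa, hBb]
        simp only [S.mul_apply, S.w_inv_apply hdiv hu0, S.hw g hg, S.hw y hy, U_inv_U hdiv hu0]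
        rfl)
      (fun x => by
        show T (T x) = 0
        rw [← Module.End.mul_apply, hT2]; rfl)
      (hdiv.2 u hu0).1
    have hx' : (Aa : J ≃ₗ[R] J) x = x := hx
    have hAu' : (Aa : J ≃ₗ[R] J) u = u := by rw [hAu, hwu]
    have hfix : S.ρ Aa e' = e' := S.fix_of_trip hdiv Aa (trip3 h3 hu0 hx0 hxu hxu') hAu' hAu' hx'
      (by rw [hπ, hAu'])
    rw [hBa, inv_inv, S.ρ_mul, hfix, hfix]
  · by_cases hwu' : w = -u
    · -- case (b)
      have hAB : Aa * Bb = 1 := by
        apply S.ext_G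
        intro x
        rw [hAa, hBb]
        simp only [S.mul_apply, S.w_inv_apply hdiv hu0, S.hw g hg, S.hw y hy]
        have h1 : A.U w = A.U g * (A.U y * A.U (A.inv u) * A.U y) * A.U g := by
          rw [← A.QJ3, ← A.QJ3, e4]
        rw [hwu', U_neg] at h1
        have h2 := LinearMap.congr_fun h1 (A.U (A.inv u) x)
        rw [U_U_inv hdiv hu0] at h2
        exact h2.symm
      have hBa : Bb = Aa⁻¹ := eq_inv_of_mul_eq_one_right hAB
      have h1 : S.π (e' + S.ρ Aa e') = 0 := by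
        rw [map_add, S.equi, hπ, hAu, hwu', add_neg_cancel]
      have h2 := S.triv Aa _ h1
      rw [map_add] at h2
      have h4 : S.ρ Aa (S.ρ Aa e') = e' := by
        have h5 : S.ρ Aa e' + S.ρ Aa (S.ρ Aa e') = S.ρ Aa e' + e' := by rw [h2, add_comm]
        exact add_left_cancel h5
      rw [hBa, inv_inv, S.ρ_mul, h4]
    · exact S.fix_of_trip hdiv _ (trip3 h3 hu0 hvi hwu hwu') hhu hhu hhw (by rw [hπ, hhu])

end Pool.Agent.Helper4.Jordan.QuadraticJordanAlgebra
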