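import Pool.Agent.Helper36.St.T13
import Pool.Agent.Helper36.St.SL3

/-! Characteristic 3: the invariant retraction. -/

namespace Pool.Agent.Helper4.Jordan.QuadraticJordanAlgebra

open QuadraticMap

variable {R J : Type*} [CommRing R] [AddCommGroup J] [Module R J]
  {A : QuadraticJordanAlgebra R J}

/-- BLOCK P3. -/
theorem exists_ret3 (h3 : ∀ a : J, a + a + a = 0) (hdiv : A.IsDivision) (hbig : Big J 81)
    {E : Type*} [AddCommGroup E] (S : Sys A E) : ∃ r, S.IsRet Set.univ r := by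
  have hb3 : Big J 3 := hbig.mono (by norm_num)
  have hSL : ∀ u (hu : u ≠ 0), (S.isotope hdiv hu).SL := fun u hu =>
    SL3 h3 (isotope_isDivision hdiv hu) hbig _
  -- two lines through `u` agree over the points of the second one
  have step : ∀ {u : J} (_ : u ≠ 0) {l l' : Set J} (_ : IsLine hdiv l) (_ : IsLine hdiv l')
      (_ : u ∈ l) (_ : u ∈ l') {r r' : E →+ E} (_ : S.IsRet l r) (_ : S.IsRet l' r') {e : E},
      S.π e ∈ l' → r e = r' e := by
    intro u hu l l' hl hl' hul hul' r r' hr hr' e he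
    refine T3l S (Or.inr h3) hdiv hSL hl hl' hr hr' hu hul hul' hul
      (hl'.neg_mem hdiv he) (X := u) ?_
    rw [tr_neg_right, tr_inv_self hdiv hu]
    exact (neg_eq_of_add_eq_zero_right (h3 _)).symm
  -- two lines through a common nonzero point have the same retraction
  have same : ∀ {u : J} (_ : u ≠ 0) {l l' : Set J} (_ : IsLine hdiv l) (_ : IsLine hdiv l')
      (_ : u ∈ l) (_ : u ∈ l') {r r' : E →+ E} (_ : S.IsRet l r) (_ : S.IsRet l' r') (e : E),
      r e = r' e := by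
    intro u hu l l' hl hl' hul hul' r r' hr hr' e
    obtain ⟨m, hm, hum, hem⟩ := exists_line3 h3 hdiv hb3 hu (S.π e)
    obtain ⟨s, hs⟩ := S.exists_isRet hdiv hm
    rw [step hu hl hm hul hum hr hs hem, step hu hl' hm hul' hum hr' hs hem]
  obtain ⟨l, hl, h1l, -⟩ := exists_line3 h3 hdiv hb3 hdiv.1 A.one
  obtain ⟨r, hr⟩ := S.exists_isRet hdiv hl
  refine ⟨r, hr.ker, hr.id, ?_⟩
  intro a _ b _ ha hb e
  obtain ⟨m, hm, ham, hbm⟩ := exists_line3 h3 hdiv hb3 ha b
  obtain ⟨s, hs⟩ := S.exists_isRet hdiv hm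
  obtain ⟨n, hn, h1n, han⟩ := exists_line3 h3 hdiv hb3 hdiv.1 a
  obtain ⟨t, ht⟩ := S.exists_isRet hdiv hn
  have e1 : ∀ e, r e = s e := fun e => by
    rw [same hdiv.1 hl hn h1l h1n hr ht, same ha hn hm han ham ht hs]
  rw [e1, e1, hs.inv a ham b hbm ha hb]

end Pool.Agent.Helper4.Jordan.QuadraticJordanAlgebra
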