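import Pool.Agent.Helper36.St.Hua

/-! The main comparison lemmas T1 and T3. -/

namespace Pool.Agent.Helper4.Jordan.QuadraticJordanAlgebra

open QuadraticMap

variable {R J : Type*} [CommRing R] [AddCommGroup J] [Module R J]
  {A : QuadraticJordanAlgebra R J}

variable {E : Type*} [AddCommGroup E] (S : Sys A E)

/-- a homomorphism vanishing on `ker π` factors through `π` -/
theorem Sys.exists_factor (φ : E →+ E) (h : ∀ e, S.π e = 0 → φ e = 0) :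
    ∃ ψ : J →+ E, ∀ e, ψ (S.π e) = φ e := by
  have hk : S.π.ker ≤ φ.ker := fun e he => h e he
  refine ⟨AddMonoidHom.liftOfSurjective S.π S.surj ⟨φ, hk⟩, fun e => ?_⟩
  have := AddMonoidHom.liftOfRightInverse_comp_apply S.π (Function.surjInv S.surj)
    (Function.rightInverse_surjInv S.surj) ⟨φ, hk⟩ e
  exact this

/-- `r ∘ W X = r` for `X ∈ K` -/
theorem Sys.IsRet.W_eq {S : Sys A E} (hdiv : A.IsDivision) {K : Set J} (h1 : A.one ∈ K)
    {r : E →+ E} (hr : S.IsRet K r) {X : J} (hX : X ∈ K) (hX0 : X ≠ 0) (e : E) :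
    r (S.W X e) = r e := by
  have h := hr.inv X hX A.one h1 hX0 hdiv.1 e
  rwa [Sys.WW, S.w_one hdiv, inv_one, mul_one] at h

/-- `w X⁻¹ = (w X)⁻¹` -/
theorem Sys.w_inv (hdiv : A.IsDivision) {X : J} (hX0 : X ≠ 0) :
    S.w (A.inv X) = (S.w X)⁻¹ :=
  S.ext_G fun x => by rw [S.hw _ (inv_ne hdiv hX0), S.w_inv_apply hdiv hX0]

/-- BLOCK T13 (i). Proof: for `X : J` let `ε X = r (W y e) - r e` for any `e` over `X ∘ y⁻¹`
(independent of `e`, additive in `X`). For `X ∈ K` nonzero let `e'` be over `X⁻¹∘y⁻¹`; `W X e'` is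
over `X∘y⁻¹` (`U_jp_inv`), so `ε X = r (W y (W X e')) - r (W X e')`, `r (W X _) = r` (`X, one ∈ K`,
`W = WW _ one`), and `ε X⁻¹ = r (W y e') - r e' = r (W X (W y e')) - r e'`; `hSL` gives
`W X (W y e') = W y (W X e')`, so `ε X⁻¹ = ε X`; `hua_vanish`. -/
theorem T1 (hp : (∀ a : J, a + a = 0) ∨ (∀ a : J, a + a + a = 0)) (hdiv : A.IsDivision)
    (hSL : S.SL) {K : Set J} (hK : A.IsCK K) (ht : ∃ f ∈ K, ∃ g ∈ K, ∃ h ∈ K, Trip f g h)
    {r : E →+ E} (hr : S.IsRet K r) {X y : J} (hX : X ∈ K) (hy : y ≠ 0) {e : E}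
    (he : S.π e = A.jp X (A.inv y)) : r (S.W y e) = r e := by
  obtain ⟨ψ, hψ⟩ := S.exists_factor (r.comp (S.W y : E →+ E) - r) (fun e he => by
    show r (S.W y e) - r e = 0
    rw [Sys.W, S.triv _ _ he, sub_self])
  have hψ' : ∀ e, ψ (S.π e) = r (S.W y e) - r e := hψ
  let ε : J →+ E := ψ.comp
    { toFun := fun X => A.jp X (A.inv y)
      map_zero' := by show A.jp 0 (A.inv y) = 0; rw [← tr_one_mid, tr_zero_left]
      map_add' := fun a b => jp_add_left a b _ }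
  have hε : ∀ X, ε X = ψ (A.jp X (A.inv y)) := fun _ => rfl
  have key : ∀ x ∈ K, x ≠ 0 → ε (A.inv x) = ε x := by
    intro x hx hx0
    obtain ⟨e', he'⟩ := S.surj (A.jp (A.inv x) (A.inv y))
    have h1 : S.π (S.W x e') = A.jp x (A.inv y) := by
      rw [S.π_W hx0, he', U_jp_inv hdiv hx0]
    rw [hε, hε, ← he', ← h1, hψ', hψ', ← hSL x y hx0 hy e' he', hr.W_eq hdiv hK.one hx hx0,
      hr.W_eq hdiv hK.one hx hx0]
  have h0 := hua_vanish hp hdiv hK ht ε key X hX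
  rw [hε, ← he, hψ'] at h0
  exact sub_eq_zero.1 h0

/-- BLOCK T13 (ii). Proof: fix `Y` (≠ 0). `ε X = r e - r' e` for `e` over `X∘Y`, additive in `X`.
For `X ∈ K` nonzero, `e` over `X∘Y`: `e' = ρ (w X)⁻¹ e` is over `X⁻¹∘Y`; `r e' = r e` and
`r' e' = r' e` by `T1` for `K'`, `r'` (element `Y ∈ K'`, `y = X⁻¹`; `w X⁻¹ = w (X⁻¹)`). So
`ε X⁻¹ = ε X`; `hua_vanish`. -/
theorem T3 (hp : (∀ a : J, a + a = 0) ∨ (∀ a : J, a + a + a = 0)) (hdiv : A.IsDivision)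
    (hSL : S.SL) {K K' : Set J} (hK : A.IsCK K) (ht : ∃ f ∈ K, ∃ g ∈ K, ∃ h ∈ K, Trip f g h)
    (hK' : A.IsCK K') (ht' : ∃ f ∈ K', ∃ g ∈ K', ∃ h ∈ K', Trip f g h)
    {r r' : E →+ E} (hr : S.IsRet K r) (hr' : S.IsRet K' r') {X Y : J} (hX : X ∈ K)
    (hY : Y ∈ K') {e : E} (he : S.π e = A.jp X Y) : r e = r' e := by
  obtain ⟨ψ, hψ⟩ := S.exists_factor (r - r') (fun e he => by
    show r e - r' e = 0
    rw [hr.id e he, hr'.id e he, sub_self])
  have hψ' : ∀ e, ψ (S.π e) = r e - r' e := hψ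
  let ε : J →+ E := ψ.comp
    { toFun := fun X => A.jp X Y
      map_zero' := by show A.jp 0 Y = 0; rw [← tr_one_mid, tr_zero_left]
      map_add' := fun a b => jp_add_left a b _ }
  have hε : ∀ X, ε X = ψ (A.jp X Y) := fun _ => rfl
  have key : ∀ x ∈ K, x ≠ 0 → ε (A.inv x) = ε x := by
    intro x hx hx0
    obtain ⟨e, he⟩ := S.surj (A.jp x Y)
    have hi0 := inv_ne hdiv hx0
    have h1 : S.π (S.W (A.inv x) e) = A.jp (A.inv x) Y := by
      rw [S.π_W hi0, he, U_inv_jp hdiv hx0]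
    have h2 : r' (S.W (A.inv x) e) = r' e := by
      refine T1 S hp hdiv hSL hK' ht' hr' hY hi0 ?_
      rw [inv_inv' hdiv hx0, jp_comm, he]
    have h3 : r (S.W (A.inv x) e) = r e :=
      hr.W_eq hdiv hK.one (hK.inv x hx hx0) hi0 e
    rw [hε, hε, ← he, ← h1, hψ', hψ', h2, h3]
  have h0 := hua_vanish hp hdiv hK ht ε key X hX
  rw [hε, ← he, hψ'] at h0
  exact sub_eq_zero.1 h0

/-- BLOCK T13 (iii): `T3` in the isotope at `u`. -/
theorem T3l (hp : (∀ a : J, a + a = 0) ∨ (∀ a : J, a + a + a = 0)) (hdiv : A.IsDivision)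
    (hSL : ∀ u (hu : u ≠ 0), (S.isotope hdiv hu).SL) {l l' : Set J} (hl : IsLine hdiv l)
    (hl' : IsLine hdiv l') {r r' : E →+ E} (hr : S.IsRet l r) (hr' : S.IsRet l' r')
    {u : J} (hu : u ≠ 0) (hul : u ∈ l) (hul' : u ∈ l') {X Y : J} (hX : X ∈ l) (hY : Y ∈ l')
    {e : E} (he : S.π e = A.tr X (A.inv u) Y) : r e = r' e :=
  T3 (S.isotope hdiv hu) hp (isotope_isDivision hdiv hu) (hSL u hu) (hl.ck u hu hul) hl.trip
    (hl'.ck u hu hul') hl'.trip ((S.isotope_isRet hdiv hu l r).2 hr)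
    ((S.isotope_isRet hdiv hu l' r').2 hr') hX hY
    (by rw [S.isotope_π hdiv hu, he, isotope_jp hdiv hu])

end Pool.Agent.Helper4.Jordan.QuadraticJordanAlgebra
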